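import Pool.Agent.U416.GE.Crit

/-! Few `k`-th powers modulo `q` when `k` has the divisor `φ (q) / t`: many summands are needed. -/

set_option autoImplicit false

namespace Pool.Agent.U416.GE

open Finset Pool.Agent.U416.WR

/-- sums of `s` elements of a small set -/
theorem few_values {q s : ℕ} [NeZero q] (V : Finset (ZMod q)) (h : ∀ a : ZMod q, ∃ y : Fin s → ZMod q,
    (∀ i, y i ∈ V ∨ y i = 0) ∧ ∑ i, y i = a) : q ≤ (s + 1) ^ #V := by
  classical
  have hsurj : Function.Surjective (fun n : V → Fin (s + 1) => ∑ v : V, ((n v : ℕ) : ZMod q) * (v : ZMod q)) := by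
    intro a
    obtain ⟨y, hy, rfl⟩ := h a
    refine ⟨fun v => ⟨#{i | y i = v}, ?_⟩, ?_⟩
    · have := card_filter_le (univ : Finset (Fin s)) (fun i => y i = v)
      rw [card_univ, Fintype.card_fin] at this
      omega
    · show ∑ v : V, ((#{i | y i = (v : ZMod q)} : ℕ) : ZMod q) * (v : ZMod q) = ∑ i, y i
      have h1 : ∀ v : V, ((#{i | y i = (v : ZMod q)} : ℕ) : ZMod q) * (v : ZMod q) = ∑ i, if y i = v then y i else 0 := by
        intro v
        rw [← sum_filter, sum_congr rfl (fun i hi => (mem_filter.1 hi).2 : ∀ i ∈ univ.filter (fun i => y i = (v : ZMod q)), y i = v),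
          sum_const, nsmul_eq_mul]
      rw [sum_congr rfl fun v _ => h1 v, sum_comm]
      refine sum_congr rfl fun i _ => ?_
      rcases hy i with hi | hi
      · rw [sum_eq_single ⟨y i, hi⟩]
        · simp
        · intro v _ hv
          rw [if_neg]
          intro h
          exact hv (Subtype.ext h.symm)
        · intro h
          exact absurd (mem_univ _) h
      · rw [hi]
        simp
  have h1 := Fintype.card_le_of_surjective _ hsurj
  rw [ZMod.card, Fintype.card_fun, Fintype.card_fin, Fintype.card_coe] at h1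
  exact h1

theorem conv_aux {k s D t p a : ℕ} (hp : p.Prime) (ha : 1 ≤ a) (hDk : D ∣ k) (h : D * t = Nat.totient (p ^ a))
    (hcard : ∀ [NeZero (p ^ a)], #{u : (ZMod (p ^ a))ˣ | u ^ t = 1} ≤ t) (hk : t < k) (hk4 : 4 ≤ k) (hloc : Loc k s) :
    D ≤ (s + 1) ^ t := by
  classical
  have : NeZero (p ^ a) := ⟨pow_ne_zero _ hp.ne_zero⟩
  have hD1 : 0 < D := Nat.pos_of_dvd_of_pos hDk (by omega)
  have ht1 : 1 ≤ t := by
    rcases Nat.eq_zero_or_pos t with h0 | h0
    · exfalso
      rw [h0, mul_zero] at h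
      have := Nat.totient_pos.2 (pow_pos hp.pos a)
      omega
    · exact h0
  -- the exponent
  have hak : a ≤ k := by
    by_contra hcon
    push Not at hcon
    obtain ⟨b, rfl⟩ : ∃ b, a = b + 1 := ⟨a - 1, by omega⟩
    rw [Nat.totient_prime_pow_succ hp] at h
    have h1 : 2 ^ k ≤ p ^ b * (p - 1) := by
      calc 2 ^ k ≤ 2 ^ b := Nat.pow_le_pow_right (by norm_num) (by omega)
        _ ≤ p ^ b := Nat.pow_le_pow_left hp.two_le _
        _ = p ^ b * 1 := (mul_one _).symm
        _ ≤ p ^ b * (p - 1) := Nat.mul_le_mul_left _ (by have := hp.two_le; omega)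
    have h2 : D ≤ k := Nat.le_of_dvd (by omega) hDk
    have h3 : D * t < k * k := by
      calc D * t ≤ k * t := Nat.mul_le_mul_right _ h2
        _ < k * k := Nat.mul_lt_mul_of_pos_left hk (by omega)
    have h4 : k * k ≤ 2 ^ k := by
      clear h1 h2 h3 h hk hloc hDk hcon
      induction k, hk4 using Nat.le_induction with
      | base => norm_num
      | succ k hk ih =>
        rw [pow_succ]
        nlinarith
    omega
  obtain ⟨V, hV⟩ : ∃ V : Finset (ZMod (p ^ a)), V = image (fun u : (ZMod (p ^ a))ˣ => (u : ZMod (p ^ a)))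
      (univ.filter fun u : (ZMod (p ^ a))ˣ => u ^ t = 1) := ⟨_, rfl⟩
  have hVc : #V ≤ t := by
    rw [hV]
    exact card_image_le.trans hcard
  have hq := few_values (s := s) V (fun x => by
    obtain ⟨y, hy⟩ := hloc (p ^ a) (pow_pos hp.pos _) x.val
    refine ⟨fun i => ((y i : ℕ) : ZMod (p ^ a)) ^ k, fun i => ?_, ?_⟩
    · by_cases hc : Nat.Coprime (y i) (p ^ a)
      · left
        rw [hV, mem_image]
        refine ⟨ZMod.unitOfCoprime (y i) hc ^ k, ?_, ?_⟩
        · rw [mem_filter]
          refine ⟨mem_univ _, ?_⟩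
          obtain ⟨m, rfl⟩ := hDk
          rw [← pow_mul, show D * m * t = D * t * m by ring, h, pow_mul, ZMod.pow_totient, one_pow]
        · show ((ZMod.unitOfCoprime (y i) hc ^ k : (ZMod (p ^ a))ˣ) : ZMod (p ^ a)) = ((y i : ℕ) : ZMod (p ^ a)) ^ k
          rw [Units.val_pow_eq_pow_val, ZMod.coe_unitOfCoprime]
      · right
        have hpy : p ∣ y i := by
          by_contra hcon
          exact hc (Nat.Coprime.pow_right _ ((Nat.Prime.coprime_iff_not_dvd hp).2 hcon).symm)
        show ((y i : ℕ) : ZMod (p ^ a)) ^ k = 0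
        rw [← Nat.cast_pow, ZMod.natCast_eq_zero_iff]
        exact (pow_dvd_pow p hak).trans (pow_dvd_pow_of_dvd hpy k)
    · have h1 := (ZMod.natCast_eq_natCast_iff _ _ _).2 hy
      push_cast at h1
      show ∑ i, ((y i : ℕ) : ZMod (p ^ a)) ^ k = x
      rw [h1, ZMod.natCast_zmod_val])
  calc D ≤ D * t := Nat.le_mul_of_pos_right _ ht1
    _ ≤ p ^ a := by rw [h]; exact Nat.totient_le _
    _ ≤ (s + 1) ^ #V := hq
    _ ≤ (s + 1) ^ t := Nat.pow_le_pow_right (by omega) hVc

/-- **Converse of the criterion.** -/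
theorem conv {k s D t q : ℕ} (hk4 : 4 ≤ k) (hk : t < k) (hDk : D ∣ k) (hq : IsPrimePow q) (h : D * t = Nat.totient q)
    (hloc : Loc k s) : D ≤ (s + 1) ^ t := by
  obtain ⟨p, a, hp, ha, rfl⟩ := hq
  have hp' := hp.nat_prime
  have ht1 : 1 ≤ t := by
    rcases Nat.eq_zero_or_pos t with h0 | h0
    · exfalso
      rw [h0, mul_zero] at h
      have := Nat.totient_pos.2 (pow_pos hp'.pos a)
      omega
    · exact h0
  by_cases hp2 : p = 2
  · subst hp2
    obtain ⟨b, rfl⟩ : ∃ b, a = b + 1 := ⟨a - 1, by omega⟩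
    rw [Nat.totient_prime_pow_succ Nat.prime_two] at h
    norm_num at h
    obtain ⟨c, -, hc⟩ := (Nat.dvd_prime_pow Nat.prime_two).1 (⟨t, h.symm⟩ : D ∣ 2 ^ b)
    have h1 : D ≤ (s + 1) ^ 1 := by
      refine conv_aux (p := 2) (a := c + 1) Nat.prime_two (by omega) hDk ?_ ?_ (by omega) hk4 hloc
      · rw [Nat.totient_prime_pow_succ Nat.prime_two, hc]
      · intro _
        rw [card_le_one]
        intro x hx y hy
        rw [mem_filter, pow_one] at hx hy
        rw [hx.2, hy.2]
    calc D ≤ (s + 1) ^ 1 := h1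
      _ ≤ (s + 1) ^ t := Nat.pow_le_pow_right (by omega) ht1
  · refine conv_aux hp' (by omega) hDk h ?_ hk hk4 hloc
    intro _
    have : IsCyclic (ZMod (p ^ a))ˣ := ZMod.isCyclic_units_of_prime_pow p hp' hp2 a
    exact IsCyclic.card_pow_eq_one_le ht1

end Pool.Agent.U416.GE
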