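import Pool.Agent.U416.GE.Crit
import Pool.Agent.Erdos456.Sieve

/-! Prime exponents. -/

set_option autoImplicit false

namespace Pool.Agent.U416.GE

open Finset Pool.Agent.U416.WR

/-- a prime which does not satisfy the criterion -/
theorem prime_not_free {T l s : ℕ} (hl : l.Prime) (hlT : T < l) (hs : 4 ≤ s) (h : ¬ Free T l s) :
    ∃ t ∈ Ico 1 T, (t * l + 1).Prime := by
  unfold Free at h
  push Not at h
  obtain ⟨D, t, q, hD, htT, hq, hDt, hs'⟩ := h
  obtain ⟨p, a, hp, ha, rfl⟩ := hq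
  have hp' := hp.nat_prime
  have ht1 : 1 ≤ t := by
    rcases Nat.eq_zero_or_pos t with h0 | h0
    · exfalso
      rw [h0, mul_zero] at hDt
      have := Nat.totient_pos.2 (pow_pos hp'.pos a)
      omega
    · exact h0
  have hDl : D = l := by
    rcases (Nat.dvd_prime hl).1 hD with h1 | h1
    · omega
    · exact h1
  subst hDl
  obtain ⟨b, rfl⟩ : ∃ b, a = b + 1 := ⟨a - 1, by omega⟩
  rw [Nat.totient_prime_pow_succ hp'] at hDt
  rcases Nat.eq_zero_or_pos b with hb | hb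
  · subst hb
    rw [pow_zero, one_mul] at hDt
    refine ⟨t, mem_Ico.2 ⟨ht1, htT⟩, ?_⟩
    rw [mul_comm, hDt, Nat.sub_add_cancel hp'.one_le]
    exact hp'
  · exfalso
    by_cases hpl : p = D
    · subst hpl
      -- `p ^ b (p - 1) = p t`
      obtain ⟨c, rfl⟩ : ∃ c, b = c + 1 := ⟨b - 1, by omega⟩
      have h1 : t = p ^ c * (p - 1) := by
        apply Nat.eq_of_mul_eq_mul_left hp'.pos
        rw [hDt, pow_succ]
        ring
      have h2 : 1 ≤ p ^ c := Nat.one_le_pow _ _ hp'.pos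
      have h3 : p - 1 ≤ t := by
        rw [h1]
        exact Nat.le_mul_of_pos_left _ h2
      omega
    · -- `p` divides `t`
      have h1 : p ∣ D * t := by
        rw [hDt]
        exact (dvd_pow_self p (by omega)).mul_right _
      have h2 : p ∣ t := by
        rcases (Nat.Prime.dvd_mul hp').1 h1 with h3 | h3
        · exact absurd ((Nat.prime_dvd_prime_iff_eq hp' hl).1 h3) hpl
        · exact h3
      have h3 : p ≤ t := Nat.le_of_dvd ht1 h2
      have h4 : D ∣ p ^ b * (p - 1) := ⟨t, hDt.symm⟩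
      rcases (Nat.Prime.dvd_mul hl).1 h4 with h5 | h5
      · exact hpl ((Nat.prime_dvd_prime_iff_eq hl hp').1 (hl.dvd_of_dvd_pow h5)).symm
      · have := Nat.le_of_dvd (by have := hp'.two_le; omega) h5
        omega

/-- the number of primes `l ≤ N` with `t l + 1` prime for some `t < T` -/
theorem prime_count (T : ℕ) : ∃ C : ℝ, 0 < C ∧ ∀ N : ℕ, 2 ≤ N →
    ((#{l ∈ Icc 1 N | l.Prime ∧ ∃ t ∈ Ico 1 T, (t * l + 1).Prime} : ℕ) : ℝ) ≤ C * N / Real.log N ^ 2 := by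
  obtain ⟨C, hC, h⟩ := Pool.Agent.Erdos456.sieve_two
  refine ⟨∑ t ∈ Ico 1 T, C * t ^ 2 + 1, by positivity, fun N hN => ?_⟩
  have hN0 : (0 : ℝ) < N := by
    have : 0 < N := by omega
    exact_mod_cast this
  have hlog : 0 < Real.log N := Real.log_pos (by exact_mod_cast hN)
  have h1 : {l ∈ Icc 1 N | l.Prime ∧ ∃ t ∈ Ico 1 T, (t * l + 1).Prime} ⊆
      (Ico 1 T).biUnion fun t => {l ∈ Icc 1 N | (1 * l + 0).Prime ∧ (t * l + 1).Prime} := by
    intro l hl
    rw [mem_filter] at hl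
    obtain ⟨hl, hp, t, ht, htp⟩ := hl
    rw [mem_biUnion]
    exact ⟨t, ht, mem_filter.2 ⟨hl, by rwa [one_mul, add_zero], htp⟩⟩
  have h2 : ∀ t ∈ Ico 1 T, ((#{l ∈ Icc 1 N | (1 * l + 0).Prime ∧ (t * l + 1).Prime} : ℕ) : ℝ) ≤
      C * t ^ 2 * N / Real.log N ^ 2 := by
    intro t ht
    rw [mem_Ico] at ht
    have h3 := h 1 0 t 1 N one_pos (by omega) (by norm_num) (by norm_num) (by omega) hN
    refine h3.trans ?_
    have h4 : 1 * t * (((1 * 1 : ℕ) : ℤ) - ((t * 0 : ℕ) : ℤ)).natAbs = t := by simp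
    rw [h4]
    have h5 : (1 : ℝ) ≤ Nat.totient t := by exact_mod_cast Nat.totient_pos.2 ht.1
    have h6 : (t : ℝ) / Nat.totient t ≤ t := div_le_self (Nat.cast_nonneg t) h5
    have h7 : 0 ≤ (t : ℝ) / Nat.totient t := by positivity
    gcongr
  calc ((#{l ∈ Icc 1 N | l.Prime ∧ ∃ t ∈ Ico 1 T, (t * l + 1).Prime} : ℕ) : ℝ)
      ≤ ((∑ t ∈ Ico 1 T, #{l ∈ Icc 1 N | (1 * l + 0).Prime ∧ (t * l + 1).Prime} : ℕ) : ℝ) := by
        exact_mod_cast (card_le_card h1).trans card_biUnion_le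
    _ = ∑ t ∈ Ico 1 T, ((#{l ∈ Icc 1 N | (1 * l + 0).Prime ∧ (t * l + 1).Prime} : ℕ) : ℝ) := by push_cast; rfl
    _ ≤ ∑ t ∈ Ico 1 T, C * t ^ 2 * N / Real.log N ^ 2 := sum_le_sum h2
    _ = (∑ t ∈ Ico 1 T, C * t ^ 2) * N / Real.log N ^ 2 := by
        rw [sum_mul, sum_div]
    _ ≤ _ := by
        gcongr
        linarith

end Pool.Agent.U416.GE
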