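import Pool.Agent.U416.GE.Wag5
import Pool.Agent.U416.GE.Conv
import Pool.Agent.U416.GE.Pr

/-! Almost all exponents and almost all prime exponents satisfy the criterion. -/

set_option autoImplicit false

namespace Pool.Agent.U416.GE

open Finset Filter Topology Pool.Agent.U416.WR

theorem floor_pow {ε : ℝ} (hε : 0 < ε) : ∀ᶠ k : ℕ in atTop, (k : ℝ) ^ (ε / 2) ≤ (⌊(k : ℝ) ^ ε⌋₊ : ℝ) ∧
    4 ≤ ⌊(k : ℝ) ^ ε⌋₊ ∧ 4 * (k : ℝ) ^ (ε / 2) ≤ (⌊(k : ℝ) ^ ε⌋₊ : ℝ) := by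
  have hnat := tendsto_natCast_atTop_atTop (R := ℝ)
  have e1 : ∀ᶠ x : ℝ in atTop, (5 : ℝ) ≤ x ^ (ε / 2) := (tendsto_rpow_atTop (by linarith)).eventually_ge_atTop _
  filter_upwards [hnat.eventually e1, eventually_ge_atTop 1] with k h1 hk
  have hk0 : (0 : ℝ) < k := by exact_mod_cast hk
  have e2 : (k : ℝ) ^ ε = (k : ℝ) ^ (ε / 2) * (k : ℝ) ^ (ε / 2) := by
    rw [← Real.rpow_add hk0]
    congr 1
    ring
  have h2 := Nat.lt_floor_add_one ((k : ℝ) ^ ε)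
  rw [e2] at h2
  have h4 : 4 * (k : ℝ) ^ (ε / 2) ≤ (⌊(k : ℝ) ^ ε⌋₊ : ℝ) := by
    rw [e2]
    nlinarith
  refine ⟨by linarith, ?_, h4⟩
  have h3 : (4 : ℝ) ≤ (⌊(k : ℝ) ^ ε⌋₊ : ℝ) := by linarith
  exact_mod_cast h3

/-- almost all exponents -/
theorem almost_all {ε η : ℝ} (hε : 0 < ε) (hη : 0 < η) : ∀ᶠ n : ℕ in atTop,
    ({k : ℕ | k < n ∧ ¬ (1 ≤ k ∧ Loc k ⌊(k : ℝ) ^ ε⌋₊)}.ncard : ℝ) ≤ η * n := by
  obtain ⟨ε', hε'⟩ : ∃ ε' : ℝ, ε' = min ε 1 := ⟨_, rfl⟩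
  have hε'0 : 0 < ε' := hε' ▸ lt_min hε one_pos
  have hε'1 : ε' ≤ 1 := hε' ▸ min_le_right _ _
  have hε'ε : ε' ≤ ε := hε' ▸ min_le_left _ _
  obtain ⟨T, k₀, hcrit⟩ := crit (show 0 < ε' / 2 by linarith)
  obtain ⟨k₁, hk₁⟩ := eventually_atTop.1 (floor_pow hε'0)
  have hw := Wag.wag T (ε := ε' / 4) (η := η / 2) (by linarith) (by linarith) (by linarith)
  have hnat := tendsto_natCast_atTop_atTop (R := ℝ)
  have hsqrt : ∀ᶠ x : ℝ in atTop, 2 * (x ^ (1 / 2 : ℝ) + (k₀ + k₁ + 3)) ≤ η * x := by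
    have h1 : ∀ᶠ x : ℝ in atTop, 4 / η ≤ x ^ (1 / 2 : ℝ) := (tendsto_rpow_atTop (by norm_num)).eventually_ge_atTop _
    filter_upwards [h1, eventually_ge_atTop (4 * ((k₀ : ℝ) + k₁ + 3) / η), eventually_gt_atTop 0] with x h1 h2 h3
    have e : x ^ (1 / 2 : ℝ) * x ^ (1 / 2 : ℝ) = x := by
      rw [← Real.rpow_add h3]
      norm_num
    have h4 : 0 ≤ x ^ (1 / 2 : ℝ) := by positivity
    rw [div_le_iff₀ hη] at h1 h2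
    nlinarith
  filter_upwards [hw, hnat.eventually hsqrt, eventually_ge_atTop 1] with n h1 h2 hn1
  have hn0 : (0 : ℝ) < n := by exact_mod_cast hn1
  obtain ⟨W, hW⟩ : ∃ W : Set ℕ, W = {k : ℕ | k ∈ (Icc 1 n : Finset ℕ) ∧ ∃ D t q, D ∣ k ∧ t < T ∧ IsPrimePow q ∧
    D * t = Nat.totient q ∧ (n : ℝ) ^ (ε' / 4) ≤ D} := ⟨_, rfl⟩
  rw [← hW] at h1
  have hWf : W.Finite := (Finset.finite_toSet (Icc 1 n)).subset (by rw [hW]; exact fun k hk => hk.1)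
  obtain ⟨m, hm⟩ : ∃ m, m = ⌊(n : ℝ) ^ (1 / 2 : ℝ)⌋₊ + k₀ + k₁ + 1 := ⟨_, rfl⟩
  have hsub : {k : ℕ | k < n ∧ ¬ (1 ≤ k ∧ Loc k ⌊(k : ℝ) ^ ε⌋₊)} ⊆ (range (m + 1) : Finset ℕ) ∪ W := by
    rintro k ⟨hkn, hk⟩
    rcases Nat.lt_or_ge k (m + 1) with h | h
    · left
      rw [mem_coe, mem_range]
      exact h
    · right
      have hkk0 : k₀ ≤ k := by omega
      have hkk1 : k₁ ≤ k := by omega
      have hk1 : 1 ≤ k := by omega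
      obtain ⟨f1, f2, f3⟩ := hk₁ k hkk1
      have hkr : (1 : ℝ) ≤ k := by exact_mod_cast hk1
      have hmono : ⌊(k : ℝ) ^ ε'⌋₊ ≤ ⌊(k : ℝ) ^ ε⌋₊ :=
        Nat.floor_le_floor (Real.rpow_le_rpow_of_exponent_le hkr hε'ε)
      have hnf : ¬ Free T k ⌊(k : ℝ) ^ ε'⌋₊ := fun hf =>
        hk ⟨hk1, loc_mono hk1 (hcrit k hkk0 _ f1 hf) hmono⟩
      unfold Free at hnf
      push Not at hnf
      obtain ⟨D, t, q, hD, ht, hq, hDt, hs⟩ := hnf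
      rw [hW]
      refine ⟨by rw [mem_Icc]; omega, D, t, q, hD, ht, hq, hDt, ?_⟩
      -- `n ^ (ε' / 4) ≤ k ^ (ε' / 2) ≤ D`
      have g1 : (⌊(k : ℝ) ^ ε'⌋₊ : ℝ) ≤ 4 * D := by exact_mod_cast hs.le
      have g2 : (k : ℝ) ^ (ε' / 2) ≤ D := by linarith
      have g3 : (n : ℝ) ^ (1 / 2 : ℝ) ≤ k := by
        have := Nat.lt_floor_add_one ((n : ℝ) ^ (1 / 2 : ℝ))
        have h5 : ⌊(n : ℝ) ^ (1 / 2 : ℝ)⌋₊ + 1 ≤ k := by omega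
        have h6 : ((⌊(n : ℝ) ^ (1 / 2 : ℝ)⌋₊ : ℝ) + 1) ≤ k := by exact_mod_cast h5
        linarith
      calc (n : ℝ) ^ (ε' / 4) = ((n : ℝ) ^ (1 / 2 : ℝ)) ^ (ε' / 2) := by
            rw [← Real.rpow_mul hn0.le]
            congr 1
            ring
        _ ≤ (k : ℝ) ^ (ε' / 2) := Real.rpow_le_rpow (by positivity) g3 (by linarith)
        _ ≤ D := g2
  have hcard := Set.ncard_le_ncard hsub ((Finset.finite_toSet _).union hWf)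
  have hcard2 := hcard.trans (Set.ncard_union_le _ _)
  rw [Set.ncard_coe_finset, card_range] at hcard2
  have hcard3 : ({k : ℕ | k < n ∧ ¬ (1 ≤ k ∧ Loc k ⌊(k : ℝ) ^ ε⌋₊)}.ncard : ℝ) ≤ (m + 1 : ℕ) + (W.ncard : ℝ) := by
    exact_mod_cast hcard2
  have hmle : ((m + 1 : ℕ) : ℝ) ≤ (n : ℝ) ^ (1 / 2 : ℝ) + (k₀ + k₁ + 3) := by
    have := Nat.floor_le (show (0 : ℝ) ≤ (n : ℝ) ^ (1 / 2 : ℝ) by positivity)
    rw [hm]
    push_cast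
    linarith
  linarith

/-- almost all prime exponents -/
theorem primes {ε : ℝ} (hε : 0 < ε) : ∃ C : ℝ, 0 < C ∧ ∀ N : ℕ, 2 ≤ N →
    ({l : ℕ | l ≤ N ∧ l.Prime ∧ ¬ Loc l ⌊(l : ℝ) ^ ε⌋₊}.ncard : ℝ) ≤ C * N / Real.log N ^ 2 := by
  classical
  obtain ⟨T, k₀, hcrit⟩ := crit (show 0 < ε / 2 by linarith)
  obtain ⟨k₁, hk₁⟩ := eventually_atTop.1 (floor_pow hε)
  obtain ⟨C, hC, hpc⟩ := prime_count T
  refine ⟨C + 4 * (k₀ + k₁ + T + 1), by positivity, fun N hN => ?_⟩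
  have hN1 : (1 : ℝ) ≤ N := by exact_mod_cast (by omega : 1 ≤ N)
  have hlog : 0 < Real.log N := Real.log_pos (by exact_mod_cast hN)
  have hsub : {l : ℕ | l ≤ N ∧ l.Prime ∧ ¬ Loc l ⌊(l : ℝ) ^ ε⌋₊} ⊆
      ((range (k₀ + k₁ + T + 1) ∪ {l ∈ Icc 1 N | l.Prime ∧ ∃ t ∈ Ico 1 T, (t * l + 1).Prime} : Finset ℕ) : Set ℕ) := by
    rintro l ⟨hlN, hl, hloc⟩
    rw [mem_coe, mem_union]
    rcases Nat.lt_or_ge l (k₀ + k₁ + T + 1) with h | h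
    · left
      rw [mem_range]
      exact h
    · right
      obtain ⟨f1, f2, f3⟩ := hk₁ l (by omega)
      have hnf : ¬ Free T l ⌊(l : ℝ) ^ ε⌋₊ := fun hf => hloc (hcrit l (by omega) _ f1 hf)
      rw [mem_filter, mem_Icc]
      exact ⟨⟨hl.one_le, hlN⟩, hl, prime_not_free hl (by omega) f2 hnf⟩
  have hcard := Set.ncard_le_ncard hsub (Finset.finite_toSet _)
  rw [Set.ncard_coe_finset] at hcard
  have hcard2 := hcard.trans (card_union_le _ _)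
  rw [card_range] at hcard2
  have hcard3 : ({l : ℕ | l ≤ N ∧ l.Prime ∧ ¬ Loc l ⌊(l : ℝ) ^ ε⌋₊}.ncard : ℝ) ≤ (k₀ + k₁ + T + 1 : ℕ) +
      ((#{l ∈ Icc 1 N | l.Prime ∧ ∃ t ∈ Ico 1 T, (t * l + 1).Prime} : ℕ) : ℝ) := by exact_mod_cast hcard2
  have hlog2 : Real.log N ^ 2 ≤ 4 * N := by
    have h1 : Real.log N ≤ 2 * Real.sqrt N := by
      have h2 := Real.log_le_sub_one_of_pos (show (0 : ℝ) < Real.sqrt N by positivity)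
      rw [Real.log_sqrt (by linarith)] at h2
      have h3 : 0 ≤ Real.sqrt N := Real.sqrt_nonneg _
      linarith
    calc Real.log N ^ 2 ≤ (2 * Real.sqrt N) ^ 2 := pow_le_pow_left₀ hlog.le h1 2
      _ = 4 * N := by rw [mul_pow, Real.sq_sqrt (by linarith)]; norm_num
  have h5 : (1 : ℝ) ≤ 4 * N / Real.log N ^ 2 := by
    rw [le_div_iff₀ (by positivity)]
    linarith
  have h6 : ((k₀ + k₁ + T + 1 : ℕ) : ℝ) ≤ 4 * (k₀ + k₁ + T + 1) * N / Real.log N ^ 2 := by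
    push_cast
    calc ((k₀ : ℝ) + k₁ + T + 1) = (k₀ + k₁ + T + 1) * 1 := (mul_one _).symm
      _ ≤ (k₀ + k₁ + T + 1) * (4 * N / Real.log N ^ 2) := mul_le_mul_of_nonneg_left h5 (by positivity)
      _ = _ := by ring
  calc _ ≤ ((k₀ + k₁ + T + 1 : ℕ) : ℝ) + ((#{l ∈ Icc 1 N | l.Prime ∧ ∃ t ∈ Ico 1 T, (t * l + 1).Prime} : ℕ) : ℝ) := hcard3
    _ ≤ 4 * (k₀ + k₁ + T + 1) * N / Real.log N ^ 2 + C * N / Real.log N ^ 2 := add_le_add h6 (hpc N hN)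
    _ = (C + 4 * (k₀ + k₁ + T + 1)) * N / Real.log N ^ 2 := by ring

end Pool.Agent.U416.GE
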