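import Pool.Agent.U416.GE.Units

/-! The local criterion: `k ^ ε` powers are enough unless `k` has a large divisor `φ (q) / t` with
bounded `t`. -/

set_option autoImplicit false
set_option linter.unusedSectionVars false

namespace Pool.Agent.U416.GE

open Finset Pointwise Pool.Agent.U416.WR Filter

theorem mem_S {N : ℕ} [NeZero N] {H : Finset (ZMod N)} {r : ℕ} {x : ZMod N} (hx : x ∈ S H r) :
    ∃ a : Fin r → ZMod N, (∀ i, a i ∈ H) ∧ x = ∑ i, a i := mem_sums hx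

/-- from the modulus `p ^ (τ + 1)` to all powers of `p` -/
theorem odd_sum {p : ℕ} (hp : p.Prime) (hp2 : p ≠ 2) {τ k' : ℕ} (hk' : ¬ p ∣ k') [NeZero (p ^ (τ + 1))]
    {r s : ℕ} (hr : 1 ≤ r) (hrs : r ≤ s) (hS : S (HH (p ^ (τ + 1)) (p ^ τ * k')) r = univ) (j : ℕ) (n : ℤ) :
    SumMod ((p : ℤ) ^ j) (p ^ τ * k') s n := by
  classical
  have hk0 : 0 < k' := Nat.pos_of_ne_zero fun h => hk' (h ▸ dvd_zero p)
  have hk : 1 ≤ p ^ τ * k' := Nat.mul_pos (pow_pos hp.pos _) hk0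
  refine SumMod.mono hk ?_ hrs
  obtain ⟨r', rfl⟩ : ∃ r', r = r' + 1 := ⟨r - 1, by omega⟩
  obtain ⟨a, ha, hsum⟩ := mem_S (x := (n : ZMod (p ^ (τ + 1)))) (by rw [hS]; exact mem_univ _)
  have hex : ∀ i : Fin r', ∃ x : ℤ, ((x ^ (p ^ τ * k') : ℤ) : ZMod (p ^ (τ + 1))) = a i.castSucc := by
    intro i
    obtain ⟨u, hu⟩ := mem_HH.1 (ha i.castSucc)
    refine ⟨((u : ZMod (p ^ (τ + 1))).val : ℤ), ?_⟩
    push_cast
    rw [ZMod.natCast_zmod_val, ← Units.val_pow_eq_pow_val]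
    exact hu
  choose x hx using hex
  have hy : ((n - ∑ i, x i ^ (p ^ τ * k') : ℤ) : ZMod (p ^ (τ + 1))) ∈ HH (p ^ (τ + 1)) (p ^ τ * k') := by
    rw [Int.cast_sub, Int.cast_sum, hsum, Fin.sum_univ_castSucc]
    have : ∑ i, ((x i ^ (p ^ τ * k') : ℤ) : ZMod (p ^ (τ + 1))) = ∑ i : Fin r', a i.castSucc :=
      sum_congr rfl fun i _ => hx i
    rw [this, add_sub_cancel_left]
    exact ha _
  obtain ⟨z, hz⟩ := lift_pow hp hp2 hk' j hy
  refine ⟨Fin.snoc x z, ?_⟩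
  rw [Fin.sum_univ_castSucc]
  simp only [Fin.snoc_castSucc, Fin.snoc_last]
  have e : ∑ i, x i ^ (p ^ τ * k') + z ^ (p ^ τ * k') - n = z ^ (p ^ τ * k') - (n - ∑ i, x i ^ (p ^ τ * k')) := by ring
  rw [e]
  exact hz

/-- three elements of a large subgroup have every sum -/
theorem three_sum_univ {p : ℕ} (hp : p.Prime) [NeZero p] {H : Finset (ZMod p)} (h0 : (0 : ZMod p) ∉ H)
    (hmul : ∀ a ∈ H, ∀ b ∈ H, a * b ∈ H) (hinv : ∀ a ∈ H, ∃ b ∈ H, a * b = 1) (h2 : 2 ≤ #H)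
    (hbig : p ^ 3 ≤ #H ^ 4) : S H 3 = univ := by
  classical
  rw [eq_univ_iff_forall]
  intro n
  have h3 : ∃ h ∈ H, n - h ≠ 0 := by
    obtain ⟨a, ha, b, hb, hab⟩ := one_lt_card.1 (show 1 < #H by omega)
    by_cases h : n = a
    · exact ⟨b, hb, fun h' => hab (by rw [← h]; exact sub_eq_zero.1 h')⟩
    · exact ⟨a, ha, fun h' => h (sub_eq_zero.1 h')⟩
  obtain ⟨h, hh, hne⟩ := h3
  obtain ⟨a, ha, b, hb, e⟩ := two_sum hp h0 hmul hinv ⟨h, hh⟩ hbig hne
  have e2 : n = a + b + h := by linear_combination e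
  rw [e2, S_succ, S_succ, S_one]
  exact add_mem_add (add_mem_add ha hb) hh

/-- the number of summands given by the growth of sums -/
theorem cover_log {N : ℕ} [NeZero N] {H : Finset (ZMod N)} (hmul : ∀ a ∈ H, ∀ b ∈ H, a * b ∈ H)
    (hH : ∀ a ∈ H, ∀ b ∈ H, a ≠ b → IsUnit (a - b)) {m : ℕ} (hm : 2 ≤ m) (ht : 2 ^ m ≤ #H) :
    ∃ r : ℕ, 1 ≤ r ∧ r ≤ 32 * (Nat.log 2 N + 1) * 4 ^ ((Nat.log 2 N + 2) / m) ∧ S H r = univ := by
  have h4 : 4 ≤ #H := le_trans (by calc 4 = 2 ^ 2 := rfl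
                                      _ ≤ 2 ^ m := Nat.pow_le_pow_right (by norm_num) hm) ht
  set l := Nat.log 2 N + 1 with hl
  have hN : N < 2 ^ l := Nat.lt_pow_succ_log_self (by norm_num) N
  have hj : 2 * N ≤ #H ^ ((l + 1) / m + 1) := by
    calc 2 * N ≤ 2 * 2 ^ l := Nat.mul_le_mul_left _ hN.le
      _ = 2 ^ (l + 1) := by ring
      _ ≤ 2 ^ (m * ((l + 1) / m + 1)) := Nat.pow_le_pow_right (by norm_num) (by
          have h1 := Nat.div_add_mod (l + 1) m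
          have h2 := Nat.mod_lt (l + 1) (show 0 < m by omega)
          rw [mul_add, mul_one]
          omega)
      _ = (2 ^ m) ^ ((l + 1) / m + 1) := by rw [pow_mul]
      _ ≤ _ := Nat.pow_le_pow_left ht _
  have hl0 : l ≠ 0 := by omega
  have hi : N < 2 ^ 2 ^ (Nat.log 2 l + 1) := by
    refine hN.trans_le (Nat.pow_le_pow_right (by norm_num) ?_)
    exact (Nat.lt_pow_succ_log_self (by norm_num) l).le
  obtain ⟨r, hr1, hr2, hr3⟩ := cover hmul h4 hH hj hi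
  refine ⟨r, hr1, hr2.trans ?_, hr3⟩
  have h5 : 2 ^ Nat.log 2 l ≤ l := Nat.pow_log_le_self 2 hl0
  have e : Nat.log 2 N + 2 = l + 1 := rfl
  rw [e]
  calc 2 ^ (Nat.log 2 l + 1 + 2) * 4 ^ ((l + 1) / m + 1) = 32 * 2 ^ Nat.log 2 l * 4 ^ ((l + 1) / m) := by ring
    _ ≤ 32 * l * 4 ^ ((l + 1) / m) := Nat.mul_le_mul_right _ (Nat.mul_le_mul_left _ h5)

/-- the analytic estimate -/
theorem eventually_small {ε : ℝ} (hε : 0 < ε) : ∃ m k₀ : ℕ, 2 ≤ m ∧ 16 ≤ k₀ ∧ ∀ k : ℕ, k₀ ≤ k → 3 ≤ (k : ℝ) ^ ε ∧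
    ∀ N : ℕ, 1 ≤ N → N ≤ k ^ 5 →
      ((32 * (Nat.log 2 N + 1) * 4 ^ ((Nat.log 2 N + 2) / m) : ℕ) : ℝ) ≤ (k : ℝ) ^ ε := by
  obtain ⟨m, hm⟩ := exists_nat_gt (24 / ε)
  have h1 : ∀ᶠ x : ℝ in atTop, Real.log x ≤ (1 / 480) * x ^ (ε / 2) := by
    have h2 := (isLittleO_log_rpow_atTop (show 0 < ε / 2 by linarith)).def (show (0 : ℝ) < 1 / 480 by norm_num)
    filter_upwards [h2, eventually_ge_atTop 1] with x hx hx1
    rw [Real.norm_of_nonneg (Real.log_nonneg hx1), Real.norm_of_nonneg (by positivity)] at hx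
    exact hx
  have h3 : ∀ᶠ x : ℝ in atTop, (3 : ℝ) ≤ x ^ ε := (tendsto_rpow_atTop hε).eventually_ge_atTop 3
  have h4 := tendsto_natCast_atTop_atTop (R := ℝ)
  obtain ⟨k₁, hk₁⟩ := eventually_atTop.1 ((h4.eventually h1).and (h4.eventually h3))
  refine ⟨m + 2, max 16 k₁, by omega, le_max_left _ _, fun k hk => ?_⟩
  obtain ⟨hlog, hthree⟩ := hk₁ k ((le_max_right _ _).trans hk)
  refine ⟨hthree, fun N hN hN5 => ?_⟩
  have hk16 : (16 : ℝ) ≤ k := by exact_mod_cast (le_max_left 16 k₁).trans hk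
  have hk0 : (0 : ℝ) < k := by linarith
  have hNr : (1 : ℝ) ≤ N := by exact_mod_cast hN
  have hN5r : (N : ℝ) ≤ (k : ℝ) ^ 5 := by exact_mod_cast hN5
  have hl2 : (0.6931471803 : ℝ) < Real.log 2 := Real.log_two_gt_d9
  have hlog16 : 4 * Real.log 2 ≤ Real.log k := by
    have h5 : Real.log 16 ≤ Real.log k := Real.log_le_log (by norm_num) hk16
    have h6 : Real.log 16 = 4 * Real.log 2 := by
      rw [show (16 : ℝ) = 2 ^ 4 by norm_num, Real.log_pow]; norm_num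
    linarith
  have hlogk : (1 : ℝ) ≤ Real.log k := by linarith
  -- the logarithm
  have hlogN : ((Nat.log 2 N : ℕ) : ℝ) * Real.log 2 ≤ Real.log N := by
    rw [← Real.log_pow]
    apply Real.log_le_log (by positivity)
    exact_mod_cast Nat.pow_log_le_self 2 (by omega : N ≠ 0)
  have hlogN2 : Real.log N ≤ 5 * Real.log k := by
    have h5 := Real.log_le_log (by linarith) hN5r
    rw [Real.log_pow] at h5
    exact_mod_cast h5
  have hL : ((Nat.log 2 N : ℕ) : ℝ) + 1 ≤ 15 * Real.log k := by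
    nlinarith
  -- the power
  have hP : (4 : ℝ) ^ ((Nat.log 2 N + 2) / (m + 2)) ≤ (k : ℝ) ^ (ε / 2) := by
    have h5 : (4 : ℝ) ^ ((Nat.log 2 N + 2) / (m + 2)) = (4 : ℝ) ^ (((Nat.log 2 N + 2) / (m + 2) : ℕ) : ℝ) := by
      rw [Real.rpow_natCast]
    have h6 : (((Nat.log 2 N + 2) / (m + 2) : ℕ) : ℝ) ≤ ((Nat.log 2 N : ℕ) + 2 : ℝ) / (m + 2) := by
      have := @Nat.cast_div_le ℝ _ _ _ (Nat.log 2 N + 2) (m + 2)
      push_cast at this
      exact this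
    have hm0 : (0 : ℝ) < (m : ℝ) + 2 := by positivity
    rw [h5]
    calc (4 : ℝ) ^ (((Nat.log 2 N + 2) / (m + 2) : ℕ) : ℝ) ≤ (4 : ℝ) ^ (((Nat.log 2 N : ℕ) + 2 : ℝ) / (m + 2)) :=
          Real.rpow_le_rpow_of_exponent_le (by norm_num) h6
      _ = Real.exp (Real.log 4 * (((Nat.log 2 N : ℕ) + 2 : ℝ) / (m + 2))) := Real.rpow_def_of_pos (by norm_num) _
      _ ≤ Real.exp (Real.log k * (ε / 2)) := by
          apply Real.exp_le_exp.2
          have h7 : Real.log 4 = 2 * Real.log 2 := by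
            rw [show (4 : ℝ) = 2 ^ 2 by norm_num, Real.log_pow]; norm_num
          have h8 : Real.log 4 * ((Nat.log 2 N : ℕ) + 2 : ℝ) ≤ 12 * Real.log k := by
            rw [h7]
            have h10 : 2 * Real.log 2 * ((Nat.log 2 N : ℕ) + 2 : ℝ) = 2 * (((Nat.log 2 N : ℕ) : ℝ) * Real.log 2) + 4 * Real.log 2 := by ring
            rw [h10]
            linarith
          have h9 : (24 : ℝ) ≤ ε * (m + 2) := by
            rw [div_lt_iff₀ hε] at hm
            nlinarith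
          rw [← mul_div_assoc, div_le_iff₀ hm0]
          calc Real.log 4 * ((Nat.log 2 N : ℕ) + 2 : ℝ) ≤ 12 * Real.log k := h8
            _ ≤ Real.log k * (ε / 2) * (m + 2) := by nlinarith
      _ = (k : ℝ) ^ (ε / 2) := (Real.rpow_def_of_pos hk0 _).symm
  have hk2 : (0 : ℝ) ≤ (k : ℝ) ^ (ε / 2) := by positivity
  push_cast
  calc 32 * ((Nat.log 2 N : ℕ) + 1 : ℝ) * 4 ^ ((Nat.log 2 N + 2) / (m + 2))
      ≤ 32 * (15 * Real.log k) * (k : ℝ) ^ (ε / 2) := by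
        apply mul_le_mul _ hP (by positivity) (by nlinarith)
        linarith
    _ ≤ (k : ℝ) ^ (ε / 2) * (k : ℝ) ^ (ε / 2) := by
        apply mul_le_mul_of_nonneg_right _ hk2
        linarith
    _ = (k : ℝ) ^ ε := by
        rw [← Real.rpow_add hk0]
        congr 1
        ring

/-- odd primes for which the `k`-th powers form a subgroup of more than `T` elements -/
theorem odd_case {ε : ℝ} (hε : 0 < ε) : ∃ T k₀ : ℕ, 2 ≤ T ∧ ∀ k : ℕ, k₀ ≤ k → ∀ p τ k' : ℕ, p.Prime → p ≠ 2 →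
    k = p ^ τ * k' → ¬ p ∣ k' → T ≤ (p - 1) / Nat.gcd (p - 1) k' → ∀ s : ℕ, (k : ℝ) ^ ε ≤ s →
    ∀ (j : ℕ) (n : ℤ), SumMod ((p : ℤ) ^ j) k s n := by
  obtain ⟨m, k₀, hm, hk16, h⟩ := eventually_small hε
  have h2m : 2 ≤ 2 ^ m := by
    calc 2 ≤ 2 ^ 2 := by norm_num
      _ ≤ 2 ^ m := Nat.pow_le_pow_right (by norm_num) hm
  refine ⟨2 ^ m, k₀, h2m, fun k hk p τ k' hp hp2 hkk hk' hT s hs j n => ?_⟩
  obtain ⟨h3, hN⟩ := h k hk
  have hk0 : 0 < k' := Nat.pos_of_ne_zero fun h => hk' (h ▸ dvd_zero p)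
  have : NeZero (p ^ (τ + 1)) := ⟨pow_ne_zero _ hp.ne_zero⟩
  have : NeZero (p ^ (τ + 0 + 1)) := ⟨pow_ne_zero _ hp.ne_zero⟩
  have hcard : #(HH (p ^ (τ + 1)) (p ^ τ * k')) = (p - 1) / Nat.gcd (p - 1) k' := by
    have h1 := HH_card_eq hp hp2 hk' 0 (τ := τ)
    rw [pow_zero, one_mul] at h1
    exact h1
  have hgpos : 0 < Nat.gcd (p - 1) k' := Nat.gcd_pos_of_pos_right _ hk0
  have hgk : Nat.gcd (p - 1) k' ≤ k' := Nat.gcd_le_right _ hk0
  have hmul : Nat.gcd (p - 1) k' * ((p - 1) / Nat.gcd (p - 1) k') = p - 1 := Nat.mul_div_cancel' (Nat.gcd_dvd_left _ _)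
  have hkk' : k' ≤ k := by rw [hkk]; exact Nat.le_mul_of_pos_left _ (pow_pos hp.pos _)
  have hs3 : 3 ≤ s := by
    have : (3 : ℝ) ≤ s := h3.trans hs
    exact_mod_cast this
  subst hkk
  by_cases hbig : τ = 0 ∧ p ^ 3 ≤ ((p - 1) / Nat.gcd (p - 1) k') ^ 4
  · obtain ⟨rfl, hb⟩ := hbig
    refine odd_sum hp hp2 hk' (r := 3) (by norm_num) hs3 ?_ j n
    have key : ∀ (q : ℕ) [NeZero q], q = p → #(HH q (p ^ 0 * k')) = (p - 1) / Nat.gcd (p - 1) k' →
        S (HH q (p ^ 0 * k')) 3 = univ := by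
      intro q _ hq hc
      subst hq
      have : Fact q.Prime := ⟨hp⟩
      refine three_sum_univ hp ?_ HH_mul HH_inv (by rw [hc]; omega) (by rw [hc]; exact hb)
      intro h0
      rw [mem_HH] at h0
      obtain ⟨u, hu⟩ := h0
      exact Units.ne_zero _ hu
    exact key (p ^ (0 + 1)) (by rw [zero_add, pow_one]) hcard
  · have hN5 : p ^ (τ + 1) ≤ (p ^ τ * k') ^ 5 := by
      rcases Nat.eq_zero_or_pos τ with rfl | hτ
      · have hb : ((p - 1) / Nat.gcd (p - 1) k') ^ 4 < p ^ 3 := by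
          by_contra hcon
          exact hbig ⟨rfl, by omega⟩
        generalize (p - 1) / Nat.gcd (p - 1) k' = t at *
        have ht1 : 1 ≤ t := by omega
        have hp1 : p ≤ 2 * (t * k') := by
          have h1 : p - 1 ≤ t * k' := by
            rw [← hmul, mul_comm]
            exact Nat.mul_le_mul_left _ hgk
          have h2 : 1 ≤ t * k' := Nat.mul_pos ht1 hk0
          omega
        have h4 : p ^ 3 * p < p ^ 3 * (16 * k' ^ 4) := by
          calc p ^ 3 * p = p ^ 4 := by ring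
            _ ≤ (2 * (t * k')) ^ 4 := Nat.pow_le_pow_left hp1 4
            _ = t ^ 4 * (16 * k' ^ 4) := by ring
            _ < p ^ 3 * (16 * k' ^ 4) := Nat.mul_lt_mul_of_pos_right hb (by positivity)
        have h5 : p < 16 * k' ^ 4 := lt_of_mul_lt_mul_left h4 (Nat.zero_le _)
        have hk16' : 16 ≤ k' := by
          have : p ^ 0 * k' = k' := by rw [pow_zero, one_mul]
          omega
        rw [zero_add, pow_one, pow_zero, one_mul]
        calc p ≤ 16 * k' ^ 4 := h5.le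
          _ ≤ k' * k' ^ 4 := Nat.mul_le_mul_right _ hk16'
          _ = k' ^ 5 := by ring
      · have h1 : p ≤ p ^ τ := by
          calc p = p ^ 1 := (pow_one p).symm
            _ ≤ p ^ τ := Nat.pow_le_pow_right hp.pos hτ
        have h2 : p ^ τ ≤ p ^ τ * k' := Nat.le_mul_of_pos_right _ hk0
        calc p ^ (τ + 1) = p ^ τ * p := pow_succ _ _
          _ ≤ (p ^ τ * k') * (p ^ τ * k') := Nat.mul_le_mul h2 (h1.trans h2)
          _ = (p ^ τ * k') ^ 2 := by ring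
          _ ≤ (p ^ τ * k') ^ 5 := Nat.pow_le_pow_right (by omega) (by norm_num)
    obtain ⟨r, hr1, hr2, hr3⟩ := cover_log (N := p ^ (τ + 1)) HH_mul (HH_diff hp) hm (by rw [hcard]; exact hT)
    have hrs : r ≤ s := by
      have h1 := hN (p ^ (τ + 1)) (Nat.pos_of_ne_zero (NeZero.ne _)) hN5
      have h2 : (r : ℝ) ≤ s := le_trans (by exact_mod_cast hr2) (h1.trans hs)
      exact_mod_cast h2
    exact odd_sum hp hp2 hk' hr1 hrs hr3 j n

/-- `k` has no divisor `D > s / 4` of the form `φ (q) / t` with `t < T` and a prime power `q` -/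
def Free (T k s : ℕ) : Prop :=
  ∀ D t q : ℕ, D ∣ k → t < T → IsPrimePow q → D * t = Nat.totient q → 4 * D ≤ s

/-- **The local criterion.** -/
theorem crit {ε : ℝ} (hε : 0 < ε) : ∃ T k₀ : ℕ, ∀ k : ℕ, k₀ ≤ k → ∀ s : ℕ, (k : ℝ) ^ ε ≤ s → Free T k s → Loc k s := by
  obtain ⟨T, k₀, hT, h⟩ := odd_case hε
  refine ⟨T, max 1 k₀, fun k hk s hs hfree => ?_⟩
  have hk1 : 1 ≤ k := (le_max_left _ _).trans hk
  apply loc_crt
  intro p j hp hj a
  obtain ⟨τ, k', hk', hkk⟩ := Nat.exists_eq_pow_mul_and_not_dvd (n := k) (by omega) p hp.ne_one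
  have hk0 : 0 < k' := Nat.pos_of_ne_zero fun h => hk' (h ▸ dvd_zero p)
  by_cases hp2 : p = 2
  · subst hp2
    have hD : 4 * 2 ^ τ ≤ s := by
      apply hfree (2 ^ τ) 1 (2 ^ (τ + 1)) (hkk ▸ dvd_mul_right _ _) (by omega)
        (Nat.prime_two.isPrimePow.pow (by omega))
      rw [Nat.totient_prime_pow_succ Nat.prime_two]
    have hodd : Odd k' := by
      rw [← Nat.not_even_iff_odd, even_iff_two_dvd]
      exact hk'
    have : NeZero (2 ^ j) := ⟨pow_ne_zero _ two_ne_zero⟩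
    subst hkk
    apply of_zmod
    refine cover_of_ker hk1 (D := 2 ^ (τ + 1)) (by positivity) (fun S hS => ker_two hodd j S hS) ?_ (a : ZMod (2 ^ j))
    obtain ⟨j', rfl⟩ : ∃ j', j = j' + 1 := ⟨j - 1, by omega⟩
    rw [Nat.totient_prime_pow_succ Nat.prime_two]
    calc 2 ^ (j' + 1) * 2 ^ (τ + 1) = 2 ^ j' * (4 * 2 ^ τ) := by ring
      _ ≤ 2 ^ j' * s := Nat.mul_le_mul_left _ hD
      _ = s * (2 ^ j' * (2 - 1)) := by ring
  · by_cases ht : T ≤ (p - 1) / Nat.gcd (p - 1) k'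
    · have h1 := h k ((le_max_right _ _).trans hk) p τ k' hp hp2 hkk hk' ht s hs j a
      have h2 : SumMod ((p ^ j : ℕ) : ℤ) k s a := by
        push_cast
        exact h1
      exact h2.nat (pow_pos hp.pos _)
    · push Not at ht
      have hgpos : 0 < Nat.gcd (p - 1) k' := Nat.gcd_pos_of_pos_right _ hk0
      have hD : 4 * (p ^ τ * Nat.gcd (p - 1) k') ≤ s := by
        apply hfree _ ((p - 1) / Nat.gcd (p - 1) k') (p ^ (τ + 1)) ?_ ht (hp.isPrimePow.pow (by omega))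
        · rw [mul_assoc, Nat.mul_div_cancel' (Nat.gcd_dvd_left _ _), Nat.totient_prime_pow_succ hp]
        · rw [hkk]
          exact Nat.mul_dvd_mul_left _ (Nat.gcd_dvd_right _ _)
      have hp3 : p ≤ 2 * (p - 1) := by
        have := hp.two_le
        omega
      obtain ⟨j', rfl⟩ : ∃ j', j = j' + 1 := ⟨j - 1, by omega⟩
      rw [hkk]
      apply trivial_bound hp hp2 hk'
      calc p * (p ^ τ * Nat.gcd (p - 1) k') ≤ 2 * (p - 1) * (p ^ τ * Nat.gcd (p - 1) k') := Nat.mul_le_mul_right _ hp3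
        _ ≤ (p - 1) * (4 * (p ^ τ * Nat.gcd (p - 1) k')) := by
            have : 2 * (p - 1) * (p ^ τ * Nat.gcd (p - 1) k') = (p - 1) * (2 * (p ^ τ * Nat.gcd (p - 1) k')) := by ring
            rw [this]
            exact Nat.mul_le_mul_left _ (by omega)
        _ ≤ (p - 1) * s := Nat.mul_le_mul_left _ hD
        _ = s * (p - 1) := mul_comm _ _

end Pool.Agent.U416.GE
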