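import Pool.Agent.U416.WR.Cover

/-! Growth of sums of a multiplicative subgroup modulo `N` all of whose differences are units. -/

set_option autoImplicit false

namespace Pool.Agent.U416.GE

open Finset Pointwise Pool.Agent.U416.WR

/-- Cauchy's inequality for the fibres of a map -/
theorem sq_card_le {ι κ : Type} [DecidableEq ι] [DecidableEq κ] (P : Finset ι) (f : ι → κ) :
    #P ^ 2 ≤ #(P.image f) * #((P ×ˢ P).filter (fun q => f q.1 = f q.2)) := by
  have h1 : #P = ∑ v ∈ P.image f, #(P.filter (fun a => f a = v)) :=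
    card_eq_sum_card_fiberwise (fun x hx => by
      simp only [coe_image, Set.mem_image, mem_coe]
      exact ⟨x, hx, rfl⟩)
  have h2 : #((P ×ˢ P).filter (fun q => f q.1 = f q.2)) = ∑ v ∈ P.image f, #(P.filter (fun a => f a = v)) ^ 2 := by
    have h3 : #((P ×ˢ P).filter (fun q => f q.1 = f q.2)) =
        ∑ v ∈ P.image f, #(((P ×ˢ P).filter (fun q => f q.1 = f q.2)).filter (fun q => f q.1 = v)) :=
      card_eq_sum_card_fiberwise (fun x hx => by
        simp only [coe_filter, mem_product, Set.mem_setOf_eq] at hx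
        simp only [coe_image, Set.mem_image, mem_coe]
        exact ⟨x.1, hx.1.1, rfl⟩)
    rw [h3]
    refine sum_congr rfl fun v _ => ?_
    rw [pow_two, ← card_product]
    congr 1
    ext q
    simp only [mem_filter, mem_product]
    constructor
    · rintro ⟨⟨⟨a, b⟩, c⟩, d⟩
      exact ⟨⟨a, d⟩, b, c ▸ d⟩
    · rintro ⟨⟨a, b⟩, c, d⟩
      exact ⟨⟨⟨a, c⟩, b.trans d.symm⟩, b⟩
  rw [h2, h1]
  exact sq_sum_le_card_mul_sum_sq

section

variable {N : ℕ} [NeZero N]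

/-- the number of quadruples `x + ξ y = x' + ξ y'` -/
def en (X Y : Finset (ZMod N)) (ξ : ZMod N) : ℕ :=
  #(((X ×ˢ Y) ×ˢ (X ×ˢ Y)).filter (fun q => q.1.1 + ξ * q.1.2 = q.2.1 + ξ * q.2.2))

theorem sum_en (X Y : Finset (ZMod N)) (hY : ∀ a ∈ Y, ∀ b ∈ Y, a ≠ b → IsUnit (a - b)) :
    ∑ ξ : ZMod N, en X Y ξ ≤ N * (#X * #Y) + (#X * #Y) ^ 2 := by
  classical
  have h1 : ∑ ξ : ZMod N, en X Y ξ =
      ∑ q ∈ (X ×ˢ Y) ×ˢ (X ×ˢ Y), #((univ : Finset (ZMod N)).filter (fun ξ => q.1.1 + ξ * q.1.2 = q.2.1 + ξ * q.2.2)) := by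
    unfold en
    simp only [card_filter]
    rw [sum_comm]
  rw [h1]
  have h2 : ∀ q ∈ (X ×ˢ Y) ×ˢ (X ×ˢ Y),
      #((univ : Finset (ZMod N)).filter (fun ξ => q.1.1 + ξ * q.1.2 = q.2.1 + ξ * q.2.2)) ≤
        (if q.1 = q.2 then N else 0) + 1 := by
    rintro ⟨⟨x, y⟩, ⟨x', y'⟩⟩ hq
    simp only [mem_product] at hq
    obtain ⟨⟨hx, hy⟩, hx', hy'⟩ := hq
    by_cases hyy : y = y'
    · subst hyy
      by_cases hxx : x = x'
      · subst hxx
        simp only [if_true]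
        calc _ ≤ #(univ : Finset (ZMod N)) := card_le_card (filter_subset _ _)
          _ = N := by rw [card_univ, ZMod.card]
          _ ≤ N + 1 := Nat.le_succ _
      · have h3 : ((univ : Finset (ZMod N)).filter (fun ξ => x + ξ * y = x' + ξ * y)) = ∅ := by
          rw [filter_eq_empty_iff]
          intro ξ _ h
          exact hxx (add_right_cancel h)
        rw [h3]
        simp
    · have h3 : #((univ : Finset (ZMod N)).filter (fun ξ => x + ξ * y = x' + ξ * y')) ≤ 1 := by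
        rw [card_le_one]
        intro a ha b hb
        simp only [mem_filter, mem_univ, true_and] at ha hb
        have h4 : (a - b) * (y - y') = 0 := by linear_combination ha - hb
        have h5 := hY y hy y' hy' hyy
        exact sub_eq_zero.1 ((h5.mul_left_eq_zero).1 h4)
      exact h3.trans (Nat.le_add_left _ _)
  calc _ ≤ ∑ q ∈ (X ×ˢ Y) ×ˢ (X ×ˢ Y), ((if q.1 = q.2 then N else 0) + 1) := sum_le_sum h2
    _ = N * #(((X ×ˢ Y) ×ˢ (X ×ˢ Y)).filter (fun q => q.1 = q.2)) + #((X ×ˢ Y) ×ˢ (X ×ˢ Y)) := by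
        rw [sum_add_distrib, ← sum_filter, sum_const, sum_const, smul_eq_mul, smul_eq_mul, mul_one, mul_comm N]
    _ ≤ N * (#X * #Y) + (#X * #Y) ^ 2 := by
        have h3 : #(((X ×ˢ Y) ×ˢ (X ×ˢ Y)).filter (fun q => q.1 = q.2)) ≤ #X * #Y := by
          rw [← card_product]
          apply card_le_card_of_injOn (fun q => q.1)
          · intro q hq
            rw [mem_coe, mem_filter, mem_product] at hq
            exact hq.1.1
          · intro q hq q' hq' h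
            rw [mem_coe, mem_filter] at hq hq'
            ext1
            · exact h
            · exact hq.2.symm.trans (h.trans hq'.2)
        have h4 : #((X ×ˢ Y) ×ˢ (X ×ˢ Y)) = (#X * #Y) ^ 2 := by
          rw [card_product, card_product, pow_two]
        rw [h4]
        exact Nat.add_le_add_right (Nat.mul_le_mul_left _ h3) _

/-- an average dilate has many sums -/
theorem exists_xi (X Y : Finset (ZMod N)) (hX : X.Nonempty) (hYn : Y.Nonempty)
    (hY : ∀ a ∈ Y, ∀ b ∈ Y, a ≠ b → IsUnit (a - b)) :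
    ∃ ξ : ZMod N, (#X * #Y) * N ≤ #((X ×ˢ Y).image (fun q => q.1 + ξ * q.2)) * (#X * #Y + N) := by
  classical
  have h1 := sum_en X Y hY
  have h2 : ∃ ξ : ZMod N, N * en X Y ξ ≤ N * (#X * #Y) + (#X * #Y) ^ 2 := by
    by_contra hcon
    push Not at hcon
    have h3 : ∑ ξ : ZMod N, (N * (#X * #Y) + (#X * #Y) ^ 2) < ∑ ξ : ZMod N, N * en X Y ξ :=
      sum_lt_sum_of_nonempty ⟨0, mem_univ _⟩ fun ξ _ => hcon ξ
    rw [sum_const, card_univ, ZMod.card, smul_eq_mul, ← mul_sum] at h3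
    have h4 := Nat.mul_le_mul_left N h1
    omega
  obtain ⟨ξ, hξ⟩ := h2
  refine ⟨ξ, ?_⟩
  have h3 := sq_card_le (X ×ˢ Y) (fun q => q.1 + ξ * q.2)
  have h4 : #(((X ×ˢ Y) ×ˢ (X ×ˢ Y)).filter (fun q => (fun q : ZMod N × ZMod N => q.1 + ξ * q.2) q.1 =
      (fun q : ZMod N × ZMod N => q.1 + ξ * q.2) q.2)) = en X Y ξ := rfl
  rw [h4, card_product] at h3
  have hm : 0 < #X * #Y := Nat.mul_pos hX.card_pos hYn.card_pos
  generalize #X * #Y = m at *
  generalize #((X ×ˢ Y).image (fun q => q.1 + ξ * q.2)) = I at *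
  have h5 : m * (m * N) ≤ m * (I * (m + N)) := by
    calc m * (m * N) = N * m ^ 2 := by ring
      _ ≤ N * (I * en X Y ξ) := Nat.mul_le_mul_left _ h3
      _ = I * (N * en X Y ξ) := by ring
      _ ≤ I * (N * m + m ^ 2) := Nat.mul_le_mul_left _ hξ
      _ = m * (I * (m + N)) := by ring
  exact Nat.le_of_mul_le_mul_left h5 hm

/-- **Growth.** -/
theorem grow {H X : Finset (ZMod N)} (hmul : ∀ a ∈ H, ∀ b ∈ H, a * b ∈ H) (h2 : 2 ≤ #H)
    (hH : ∀ a ∈ H, ∀ b ∈ H, a ≠ b → IsUnit (a - b)) (hX : X.Nonempty) (hinv : ∀ a ∈ H, ∀ x ∈ X, a * x ∈ X) :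
    (#X * #H) * N ≤ #((X + X) - (X + X) + (H - H)) * (#X * #H + N) := by
  classical
  have hHn : H.Nonempty := card_pos.1 (by omega)
  obtain ⟨h0, hh0⟩ := hHn
  -- a multiple of the sum set is contained in the set
  have key : ∀ ξ : ZMod N, ∀ y₁ ∈ H, ∀ y₂ ∈ H, y₁ ≠ y₂ → ∀ x₁ ∈ X, ∀ x₂ ∈ X,
      ((y₁ - y₂) * ξ = x₁ - x₂ ∨ (y₁ - y₂) * ξ = x₁ - x₂ + (y₁ - y₂)) →
      #((X ×ˢ H).image (fun q => q.1 + ξ * q.2)) ≤ #((X + X) - (X + X) + (H - H)) := by
    intro ξ y₁ hy₁ y₂ hy₂ hne x₁ hx₁ x₂ hx₂ hor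
    have hu := hH y₁ hy₁ y₂ hy₂ hne
    have hinj : Function.Injective (fun z : ZMod N => (y₁ - y₂) * z) := fun a b hab => by
      have h3 : (y₁ - y₂) * (a - b) = 0 := by
        have : (y₁ - y₂) * a = (y₁ - y₂) * b := hab
        linear_combination this
      exact sub_eq_zero.1 ((hu.mul_right_eq_zero).1 h3)
    rw [← card_image_of_injective _ hinj]
    apply card_le_card
    intro w hw
    obtain ⟨z, hz, rfl⟩ := mem_image.1 hw
    obtain ⟨⟨x, y⟩, hq, rfl⟩ := mem_image.1 hz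
    rw [mem_product] at hq
    obtain ⟨hx, hy⟩ := hq
    rcases hor with h | h
    · refine mem_add.2 ⟨(y₁ * x + y * x₁) - (y₂ * x + y * x₂), ?_, h0 - h0, sub_mem_sub hh0 hh0, ?_⟩
      · exact sub_mem_sub (add_mem_add (hinv _ hy₁ _ hx) (hinv _ hy _ hx₁))
          (add_mem_add (hinv _ hy₂ _ hx) (hinv _ hy _ hx₂))
      · dsimp only
        linear_combination -y * h
    · refine mem_add.2 ⟨(y₁ * x + y * x₁) - (y₂ * x + y * x₂), ?_, y₁ * y - y₂ * y, sub_mem_sub (hmul _ hy₁ _ hy)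
        (hmul _ hy₂ _ hy), ?_⟩
      · exact sub_mem_sub (add_mem_add (hinv _ hy₁ _ hx) (hinv _ hy _ hx₁))
          (add_mem_add (hinv _ hy₂ _ hx) (hinv _ hy _ hx₂))
      · dsimp only
        linear_combination -y * h
  -- the quotient set
  by_cases hQ : ∀ ξ : ZMod N, ∃ y₁ ∈ H, ∃ y₂ ∈ H, y₁ ≠ y₂ ∧ ∃ x₁ ∈ X, ∃ x₂ ∈ X, (y₁ - y₂) * ξ = x₁ - x₂
  · obtain ⟨ξ, hξ⟩ := exists_xi X H hX ⟨h0, hh0⟩ hH
    obtain ⟨y₁, hy₁, y₂, hy₂, hne, x₁, hx₁, x₂, hx₂, h⟩ := hQ ξ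
    exact hξ.trans (Nat.mul_le_mul_right _ (key ξ y₁ hy₁ y₂ hy₂ hne x₁ hx₁ x₂ hx₂ (Or.inl h)))
  · -- an element of the quotient set whose successor is not in it
    set Q : ZMod N → Prop := fun ξ => ∃ y₁ ∈ H, ∃ y₂ ∈ H, y₁ ≠ y₂ ∧ ∃ x₁ ∈ X, ∃ x₂ ∈ X, (y₁ - y₂) * ξ = x₁ - x₂ with hQd
    obtain ⟨x0, hx0⟩ := hX
    obtain ⟨y₁, hy₁, y₂, hy₂, hne⟩ := one_lt_card.1 (show 1 < #H by omega)
    have hQ0 : Q 0 := ⟨y₁, hy₁, y₂, hy₂, hne, x0, hx0, x0, hx0, by ring⟩
    have hex : ∃ ξ, Q ξ ∧ ¬ Q (ξ + 1) := by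
      by_contra hcon
      push Not at hcon
      apply hQ
      have h3 : ∀ n : ℕ, Q (n : ZMod N) := by
        intro n
        induction n with
        | zero => simpa using hQ0
        | succ n ih => push_cast; exact hcon _ ih
      intro ξ
      have h4 := h3 ξ.val
      rwa [ZMod.natCast_zmod_val] at h4
    obtain ⟨ξ, ⟨a, ha, b, hb, hab, x₁, hx₁, x₂, hx₂, h⟩, hn⟩ := hex
    have hk := key (ξ + 1) a ha b hb hab x₁ hx₁ x₂ hx₂ (Or.inr (by rw [mul_add, h, mul_one]))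
    have hinj : #((X ×ˢ H).image (fun q => q.1 + (ξ + 1) * q.2)) = #X * #H := by
      rw [← card_product]
      apply card_image_of_injOn
      rintro ⟨x, y⟩ hq ⟨x', y'⟩ hq' heq
      rw [mem_coe, mem_product] at hq hq'
      dsimp only at heq
      by_cases hyy : y = y'
      · subst hyy
        rw [Prod.mk.injEq]
        exact ⟨add_right_cancel heq, rfl⟩
      · exfalso
        apply hn
        exact ⟨y, hq.2, y', hq'.2, hyy, x', hq'.1, x, hq.1, by linear_combination heq⟩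
    rw [hinj] at hk
    calc #X * #H * N ≤ #X * #H * (#X * #H + N) := Nat.mul_le_mul_left _ (Nat.le_add_left _ _)
      _ ≤ _ := Nat.mul_le_mul_right _ hk

end

end Pool.Agent.U416.GE
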