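import Pool.Agent.U416.GE.Grow

/-! Iteration of the growth lemma: few sums cover everything. -/

set_option autoImplicit false
set_option linter.unusedSectionVars false

namespace Pool.Agent.U416.GE

open Finset Pointwise Pool.Agent.U416.WR

variable {N : ℕ} [NeZero N]

/-- the `a`-fold sum set -/
def S (H : Finset (ZMod N)) (a : ℕ) : Finset (ZMod N) := sums (fun _ => H) a

theorem S_succ (H : Finset (ZMod N)) (a : ℕ) : S H (a + 1) = S H a + H := rfl

theorem S_zero (H : Finset (ZMod N)) : S H 0 = 0 := rfl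

theorem S_one (H : Finset (ZMod N)) : S H 1 = H := by rw [S_succ, S_zero, zero_add]

theorem S_add (H : Finset (ZMod N)) (a b : ℕ) : S H (a + b) = S H a + S H b := by
  induction b with
  | zero => rw [S_zero, add_zero, add_zero]
  | succ b ih => rw [← add_assoc, S_succ, S_succ, ih, add_assoc]

theorem S_nonempty {H : Finset (ZMod N)} (hH : H.Nonempty) (a : ℕ) : (S H a).Nonempty :=
  sums_nonempty (fun _ => hH) a

theorem S_inv {H : Finset (ZMod N)} (hmul : ∀ a ∈ H, ∀ b ∈ H, a * b ∈ H) (a : ℕ) :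
    ∀ h ∈ H, ∀ x ∈ S H a, h * x ∈ S H a := by
  induction a with
  | zero =>
    intro h _ x hx
    rw [S_zero, mem_zero] at *
    rw [hx, mul_zero]
  | succ a ih =>
    intro h hh x hx
    rw [S_succ] at *
    obtain ⟨y, hy, z, hz, rfl⟩ := mem_add.1 hx
    rw [mul_add]
    exact add_mem_add (ih h hh y hy) (hmul h hh z hz)

theorem diff_eq (H : Finset (ZMod N)) (a : ℕ) :
    ((S H a - S H a) + (S H a - S H a)) - ((S H a - S H a) + (S H a - S H a)) + (H - H) =
      S H (4 * a + 1) - S H (4 * a + 1) := by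
  have e1 : (S H a - S H a) + (S H a - S H a) = S H (a + a) - S H (a + a) := by
    rw [S_add, sub_add_sub_comm]
  have e2 : ∀ B : Finset (ZMod N), (B - B) - (B - B) = (B + B) - (B + B) := by
    intro B
    rw [sub_sub_eq_add_sub, sub_add_eq_add_sub, sub_sub]
  rw [e1, e2, ← S_add, sub_add_sub_comm, ← S_succ]
  congr 2 <;> ring

theorem step {H : Finset (ZMod N)} (hmul : ∀ a ∈ H, ∀ b ∈ H, a * b ∈ H) (h2 : 2 ≤ #H)
    (hH : ∀ a ∈ H, ∀ b ∈ H, a ≠ b → IsUnit (a - b)) (a : ℕ) :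
    (#(S H a - S H a) * #H) * N ≤ #(S H (4 * a + 1) - S H (4 * a + 1)) * (#(S H a - S H a) * #H + N) := by
  have hHn : H.Nonempty := card_pos.1 (by omega)
  rw [← diff_eq]
  refine grow hmul h2 hH ((S_nonempty hHn a).sub (S_nonempty hHn a)) ?_
  intro h hh x hx
  obtain ⟨y, hy, z, hz, rfl⟩ := mem_sub.1 hx
  rw [mul_sub]
  exact sub_mem_sub (S_inv hmul a h hh y hy) (S_inv hmul a h hh z hz)

/-- `1, 5, 21, ...` -/
def aa : ℕ → ℕ
  | 0 => 1
  | j + 1 => 4 * aa j + 1

theorem aa_eq (j : ℕ) : 3 * aa j + 1 = 4 ^ (j + 1) := by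
  induction j with
  | zero => rfl
  | succ j ih =>
    rw [pow_succ, ← ih]
    show 3 * (4 * aa j + 1) + 1 = _
    ring

theorem pos_of {H : Finset (ZMod N)} (hHn : H.Nonempty) (a : ℕ) : 0 < #(S H a - S H a) :=
  ((S_nonempty hHn a).sub (S_nonempty hHn a)).card_pos

theorem ratio {H : Finset (ZMod N)} (hmul : ∀ a ∈ H, ∀ b ∈ H, a * b ∈ H) (h4 : 4 ≤ #H)
    (hH : ∀ a ∈ H, ∀ b ∈ H, a ≠ b → IsUnit (a - b)) (j : ℕ) :
    (N : ℝ) / #(S H (aa j) - S H (aa j)) ≤ 4 / 3 + N / (#H : ℝ) ^ (j + 1) := by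
  have hHn : H.Nonempty := card_pos.1 (by omega)
  have ht : (4 : ℝ) ≤ #H := by exact_mod_cast h4
  have hN : (0 : ℝ) < N := by exact_mod_cast Nat.pos_of_ne_zero (NeZero.ne N)
  induction j with
  | zero =>
    have h1 : #H ≤ #(S H 1 - S H 1) := by
      rw [S_one]
      obtain ⟨h0, hh0⟩ := hHn
      rw [← card_image_of_injective H (sub_left_injective (b := h0))]
      apply card_le_card
      intro x hx
      obtain ⟨y, hy, rfl⟩ := mem_image.1 hx
      exact sub_mem_sub hy hh0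
    have h2 : (#H : ℝ) ≤ #(S H (aa 0) - S H (aa 0)) := by
      show (#H : ℝ) ≤ #(S H 1 - S H 1)
      exact_mod_cast h1
    have h3 : (N : ℝ) / #(S H (aa 0) - S H (aa 0)) ≤ N / #H :=
      div_le_div_of_nonneg_left hN.le (by linarith) h2
    rw [zero_add, pow_one]
    linarith
  | succ j ih =>
    have h1 := step hmul (by omega) hH (aa j)
    have hP : (0 : ℝ) < #(S H (aa j) - S H (aa j)) := by exact_mod_cast pos_of hHn (aa j)
    have hP' : (0 : ℝ) < #(S H (aa (j + 1)) - S H (aa (j + 1))) := by exact_mod_cast pos_of hHn (aa (j + 1))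
    have h2 : ((#(S H (aa j) - S H (aa j)) : ℝ) * #H) * N ≤
        #(S H (aa (j + 1)) - S H (aa (j + 1))) * (#(S H (aa j) - S H (aa j)) * #H + N) := by
      show ((#(S H (aa j) - S H (aa j)) : ℝ) * #H) * N ≤
        #(S H (4 * aa j + 1) - S H (4 * aa j + 1)) * (#(S H (aa j) - S H (aa j)) * #H + N)
      exact_mod_cast h1
    generalize (#(S H (aa j) - S H (aa j)) : ℝ) = P at *
    generalize (#(S H (aa (j + 1)) - S H (aa (j + 1))) : ℝ) = P' at *
    generalize (#H : ℝ) = t at *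
    have ht0 : 0 < t := by linarith
    have h3 : (N : ℝ) / P' ≤ 1 + (N / P) / t := by
      rw [div_le_iff₀ hP']
      have e : (1 + (N : ℝ) / P / t) * P' = (P' * (P * t + N)) / (P * t) := by
        field_simp
      rw [e, le_div_iff₀ (by positivity)]
      linarith
    have h5 : (N : ℝ) / P / t ≤ (4 / 3 + N / t ^ (j + 1)) / t := div_le_div_of_nonneg_right ih ht0.le
    have h6 : (4 / 3 + (N : ℝ) / t ^ (j + 1)) / t = 4 / 3 / t + N / t ^ (j + 1 + 1) := by
      rw [add_div, div_div (N : ℝ) (t ^ (j + 1)) t, ← pow_succ]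
    have h7 : (4 : ℝ) / 3 / t ≤ 1 / 3 := by
      rw [div_le_iff₀ ht0]
      linarith
    linarith

theorem pig {A B : Finset (ZMod N)} (h : N < #A + #B) : A + B = univ := by
  classical
  rw [eq_univ_iff_forall]
  intro z
  have h1 : #(B.image (fun b => z - b)) = #B := card_image_of_injective _ (sub_right_injective)
  have h2 : (A ∩ B.image (fun b => z - b)).Nonempty := by
    apply inter_nonempty_of_card_lt_card_add_card (s := univ) (subset_univ _) (subset_univ _)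
    rw [card_univ, ZMod.card, h1]
    exact h
  obtain ⟨a, ha⟩ := h2
  rw [mem_inter, mem_image] at ha
  obtain ⟨ha, b, hb, rfl⟩ := ha
  exact mem_add.2 ⟨z - b, ha, b, hb, by ring⟩

/-- the differences cover everything -/
theorem diff_univ {H : Finset (ZMod N)} (hmul : ∀ a ∈ H, ∀ b ∈ H, a * b ∈ H) (h4 : 4 ≤ #H)
    (hH : ∀ a ∈ H, ∀ b ∈ H, a ≠ b → IsUnit (a - b)) {j : ℕ} (hj : 2 * N ≤ #H ^ (j + 1)) :
    S H (2 * aa j) - S H (2 * aa j) = univ := by
  have hHn : H.Nonempty := card_pos.1 (by omega)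
  have h1 := ratio hmul h4 hH j
  have hP : (0 : ℝ) < #(S H (aa j) - S H (aa j)) := by exact_mod_cast pos_of hHn (aa j)
  have h2 : (N : ℝ) / (#H : ℝ) ^ (j + 1) ≤ 1 / 2 := by
    have h3 : (0 : ℝ) < (#H : ℝ) ^ (j + 1) := pow_pos (by exact_mod_cast hHn.card_pos) _
    rw [div_le_iff₀ h3]
    have : (2 : ℝ) * N ≤ (#H : ℝ) ^ (j + 1) := by exact_mod_cast hj
    linarith
  have h3 : (N : ℝ) < 2 * #(S H (aa j) - S H (aa j)) := by
    have : (N : ℝ) / #(S H (aa j) - S H (aa j)) < 2 := by linarith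
    rwa [div_lt_iff₀ hP] at this
  have h5 : N < #(S H (aa j) - S H (aa j)) + #(S H (aa j) - S H (aa j)) := by
    have : (N : ℝ) < ((#(S H (aa j) - S H (aa j)) + #(S H (aa j) - S H (aa j)) : ℕ) : ℝ) := by
      push_cast; linarith
    exact_mod_cast this
  rw [two_mul, S_add, ← sub_add_sub_comm]
  exact pig h5

theorem diff_univ_mono {H : Finset (ZMod N)} (hHn : H.Nonempty) {b c : ℕ} (hbc : b ≤ c)
    (h : S H b - S H b = univ) : S H c - S H c = univ := by
  obtain ⟨d, rfl⟩ := Nat.exists_eq_add_of_le hbc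
  rw [eq_univ_iff_forall]
  intro z
  have h1 : z ∈ S H b - S H b := by rw [h]; exact mem_univ _
  obtain ⟨x, hx, y, hy, rfl⟩ := mem_sub.1 h1
  obtain ⟨w, hw⟩ := S_nonempty hHn d
  rw [S_add]
  refine mem_sub.2 ⟨x + w, add_mem_add hx hw, y + w, add_mem_add hy hw, by ring⟩

theorem half {H : Finset (ZMod N)} (hHn : H.Nonempty) {b : ℕ} (h : S H b - S H b = univ) (i : ℕ) :
    ((N : ℝ) / #(S H (2 ^ i * b))) ^ 2 ^ i ≤ N := by
  have hN : (0 : ℝ) < N := by exact_mod_cast Nat.pos_of_ne_zero (NeZero.ne N)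
  induction i with
  | zero =>
    rw [pow_zero, pow_one, one_mul]
    apply div_le_self hN.le
    exact_mod_cast (S_nonempty hHn b).card_pos
  | succ i ih =>
    refine le_trans ?_ ih
    rw [pow_succ, mul_comm (2 ^ i) 2, pow_mul]
    apply pow_le_pow_left₀ (by positivity)
    have h1 := ruzsa_triangle_inequality_sub_add_add (S H (2 ^ i * b)) (S H (2 ^ i * b)) (S H (2 ^ i * b))
    rw [diff_univ_mono hHn (Nat.le_mul_of_pos_left b (by positivity)) h, card_univ, ZMod.card, ← S_add] at h1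
    have e : 2 ^ i * b + 2 ^ i * b = 2 * 2 ^ i * b := by ring
    rw [e] at h1
    have h2 : (N : ℝ) * #(S H (2 ^ i * b)) ≤ (#(S H (2 * 2 ^ i * b)) : ℝ) * #(S H (2 * 2 ^ i * b)) := by
      exact_mod_cast h1
    have hW : (0 : ℝ) < #(S H (2 ^ i * b)) := by exact_mod_cast (S_nonempty hHn _).card_pos
    have hW' : (0 : ℝ) < #(S H (2 * 2 ^ i * b)) := by exact_mod_cast (S_nonempty hHn _).card_pos
    rw [div_pow, div_le_div_iff₀ (by positivity) hW]
    nlinarith

/-- **Few sums cover everything.** -/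
theorem cover {H : Finset (ZMod N)} (hmul : ∀ a ∈ H, ∀ b ∈ H, a * b ∈ H) (h4 : 4 ≤ #H)
    (hH : ∀ a ∈ H, ∀ b ∈ H, a ≠ b → IsUnit (a - b)) {i j : ℕ} (hj : 2 * N ≤ #H ^ (j + 1)) (hi : N < 2 ^ 2 ^ i) :
    ∃ r : ℕ, 1 ≤ r ∧ r ≤ 2 ^ (i + 2) * 4 ^ (j + 1) ∧ S H r = univ := by
  have hHn : H.Nonempty := card_pos.1 (by omega)
  have h1 := diff_univ hmul h4 hH hj
  have h2 := half hHn h1 i
  have haj := aa_eq j
  have haj1 : 1 ≤ aa j := by
    rcases j with _ | j
    · exact le_rfl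
    · show 1 ≤ 4 * aa j + 1
      omega
  refine ⟨2 ^ i * (2 * aa j) + 2 ^ i * (2 * aa j), ?_, ?_, ?_⟩
  · have : 1 ≤ 2 ^ i * (2 * aa j) := Nat.mul_pos (by positivity) (by omega)
    omega
  · calc 2 ^ i * (2 * aa j) + 2 ^ i * (2 * aa j) = 2 ^ (i + 2) * aa j := by ring
      _ ≤ 2 ^ (i + 2) * 4 ^ (j + 1) := Nat.mul_le_mul_left _ (by omega)
  · rw [S_add]
    apply pig
    have hW : (0 : ℝ) < #(S H (2 ^ i * (2 * aa j))) := by exact_mod_cast (S_nonempty hHn _).card_pos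
    have h3 : (N : ℝ) / #(S H (2 ^ i * (2 * aa j))) < 2 := by
      by_contra hcon
      push Not at hcon
      have h5 : (2 : ℝ) ^ 2 ^ i ≤ ((N : ℝ) / #(S H (2 ^ i * (2 * aa j)))) ^ 2 ^ i :=
        pow_le_pow_left₀ (by norm_num) hcon _
      have h6 : (N : ℝ) < 2 ^ 2 ^ i := by exact_mod_cast hi
      linarith
    rw [div_lt_iff₀ hW] at h3
    have : (N : ℝ) < ((#(S H (2 ^ i * (2 * aa j))) + #(S H (2 ^ i * (2 * aa j))) : ℕ) : ℝ) := by
      push_cast; linarith
    exact_mod_cast this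

end Pool.Agent.U416.GE
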