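import Pool.Agent.U416.GE.Iter

/-! Large multiplicative subgroups modulo a prime: two summands are enough. -/

set_option autoImplicit false
set_option linter.unusedSectionVars false

namespace Pool.Agent.U416.GE

open Finset Pointwise Pool.Agent.U416.WR

variable {p : ℕ} [NeZero p]

theorem sum_en_ne (hp : p.Prime) (X : Finset (ZMod p)) :
    ((∑ ξ ∈ (univ : Finset (ZMod p)).erase 0, en X X ξ : ℕ) : ℤ) ≤ #X ^ 2 * (p - 1) + (#X ^ 2 - #X) ^ 2 := by
  classical
  haveI := Fact.mk hp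
  have h1 : ∑ ξ ∈ (univ : Finset (ZMod p)).erase 0, en X X ξ =
      ∑ q ∈ (X ×ˢ X) ×ˢ (X ×ˢ X), #(((univ : Finset (ZMod p)).erase 0).filter (fun ξ => q.1.1 + ξ * q.1.2 = q.2.1 + ξ * q.2.2)) := by
    unfold en
    simp only [card_filter]
    rw [sum_comm]
  have h2 : ∀ q ∈ (X ×ˢ X) ×ˢ (X ×ˢ X),
      #(((univ : Finset (ZMod p)).erase 0).filter (fun ξ => q.1.1 + ξ * q.1.2 = q.2.1 + ξ * q.2.2)) ≤
        (if q.1 = q.2 then (p - 1) else 0) + (if q.1.1 ≠ q.2.1 ∧ q.1.2 ≠ q.2.2 then 1 else 0) := by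
    rintro ⟨⟨x, y⟩, ⟨x', y'⟩⟩ hq
    by_cases hyy : y = y'
    · subst hyy
      by_cases hxx : x = x'
      · subst hxx
        simp only [if_true]
        calc _ ≤ #((univ : Finset (ZMod p)).erase 0) := card_le_card (filter_subset _ _)
          _ = p - 1 := by rw [card_erase_of_mem (mem_univ _), card_univ, ZMod.card]
          _ ≤ _ := Nat.le_add_right _ _
      · have h3 : (((univ : Finset (ZMod p)).erase 0).filter (fun ξ => x + ξ * y = x' + ξ * y)) = ∅ := by
          rw [filter_eq_empty_iff]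
          intro ξ _ h
          exact hxx (add_right_cancel h)
        rw [h3]
        simp
    · by_cases hxx : x = x'
      · subst hxx
        have h3 : (((univ : Finset (ZMod p)).erase 0).filter (fun ξ => x + ξ * y = x + ξ * y')) = ∅ := by
          rw [filter_eq_empty_iff]
          intro ξ hξ h
          have h4 := mul_left_cancel₀ (mem_erase.1 hξ).1 (add_left_cancel h)
          exact hyy h4
        rw [h3]
        simp
      · have h3 : #(((univ : Finset (ZMod p)).erase 0).filter (fun ξ => x + ξ * y = x' + ξ * y')) ≤ 1 := by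
          rw [card_le_one]
          intro a ha b hb
          simp only [mem_filter] at ha hb
          have h4 : (a - b) * (y - y') = 0 := by linear_combination ha.2 - hb.2
          rcases mul_eq_zero.1 h4 with h5 | h5
          · exact sub_eq_zero.1 h5
          · exact absurd (sub_eq_zero.1 h5) hyy
        refine h3.trans ?_
        rw [if_pos (show (x, y).1 ≠ (x', y').1 ∧ (x, y).2 ≠ (x', y').2 from ⟨hxx, hyy⟩)]
        exact Nat.le_add_left _ _
  have h3 : ∑ ξ ∈ (univ : Finset (ZMod p)).erase 0, en X X ξ ≤ #X ^ 2 * (p - 1) + (#X ^ 2 - #X) ^ 2 := by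
    rw [h1]
    calc _ ≤ ∑ q ∈ (X ×ˢ X) ×ˢ (X ×ˢ X), ((if q.1 = q.2 then (p - 1) else 0) +
          (if q.1.1 ≠ q.2.1 ∧ q.1.2 ≠ q.2.2 then 1 else 0)) := sum_le_sum h2
      _ = #(((X ×ˢ X) ×ˢ (X ×ˢ X)).filter (fun q => q.1 = q.2)) * (p - 1) +
          #(((X ×ˢ X) ×ˢ (X ×ˢ X)).filter (fun q => q.1.1 ≠ q.2.1 ∧ q.1.2 ≠ q.2.2)) := by
          rw [sum_add_distrib, ← sum_filter, sum_const, smul_eq_mul, ← sum_filter, sum_const, smul_eq_mul, mul_one]
      _ ≤ #X ^ 2 * (p - 1) + (#X ^ 2 - #X) ^ 2 := by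
          have h4 : #(((X ×ˢ X) ×ˢ (X ×ˢ X)).filter (fun q => q.1 = q.2)) ≤ #X ^ 2 := by
            rw [pow_two, ← card_product]
            apply card_le_card_of_injOn (fun q => q.1)
            · intro q hq
              rw [mem_coe, mem_filter, mem_product] at hq
              exact hq.1.1
            · intro q hq q' hq' h
              rw [mem_coe, mem_filter] at hq hq'
              ext1
              · exact h
              · exact hq.2.symm.trans (h.trans hq'.2)
          have h5 : #(((X ×ˢ X) ×ˢ (X ×ˢ X)).filter (fun q => q.1.1 ≠ q.2.1 ∧ q.1.2 ≠ q.2.2)) ≤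
              #(X.offDiag ×ˢ X.offDiag) := by
            apply card_le_card_of_injOn (fun q => ((q.1.1, q.2.1), (q.1.2, q.2.2)))
            · intro q hq
              rw [mem_coe, mem_filter, mem_product, mem_product, mem_product] at hq
              rw [mem_coe, mem_product, mem_offDiag, mem_offDiag]
              exact ⟨⟨hq.1.1.1, hq.1.2.1, hq.2.1⟩, hq.1.1.2, hq.1.2.2, hq.2.2⟩
            · intro q _ q' _ h
              simp only [Prod.mk.injEq] at h
              ext1
              · ext1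
                · exact h.1.1
                · exact h.2.1
              · ext1
                · exact h.1.2
                · exact h.2.2
          have h6 : #(X.offDiag ×ˢ X.offDiag) = (#X ^ 2 - #X) ^ 2 := by
            rw [card_product, offDiag_card, pow_two, pow_two]
          rw [h6] at h5
          exact Nat.add_le_add (Nat.mul_le_mul_right _ h4) h5
  have h4 : #X ≤ #X ^ 2 := by
    rw [pow_two]
    exact Nat.le_mul_self _
  have h5 : ((#X ^ 2 * (p - 1) + (#X ^ 2 - #X) ^ 2 : ℕ) : ℤ) = #X ^ 2 * (p - 1) + (#X ^ 2 - #X) ^ 2 := by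
    push_cast [Nat.cast_sub h4, Nat.cast_sub hp.one_le]
    ring
  rw [← h5]
  exact_mod_cast h3

/-- two elements of a large multiplicative subgroup have every nonzero sum -/
theorem two_sum (hp : p.Prime) {H : Finset (ZMod p)} (h0 : (0 : ZMod p) ∉ H) (hmul : ∀ a ∈ H, ∀ b ∈ H, a * b ∈ H)
    (hinv : ∀ a ∈ H, ∃ b ∈ H, a * b = 1) (hne : H.Nonempty) (hbig : p ^ 3 ≤ #H ^ 4) {n : ZMod p} (hn : n ≠ 0) :
    ∃ a ∈ H, ∃ b ∈ H, n = a + b := by
  classical
  haveI := Fact.mk hp
  by_contra hcon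
  push Not at hcon
  -- the elements `n h` are not sums
  have hno : ∀ h ∈ H, ∀ a ∈ H, ∀ b ∈ H, n * h ≠ a + b := by
    intro h hh a ha b hb e
    obtain ⟨h', hh', e'⟩ := hinv h hh
    apply hcon (a * h') (hmul _ ha _ hh') (b * h') (hmul _ hb _ hh')
    rw [← add_mul, ← e, mul_assoc, e', mul_one]
  have hcard : #(H.image (fun h => n * h)) = #H := card_image_of_injective _ (mul_right_injective₀ hn)
  have htp : #H < p := by
    have h1 : #H ≤ #((univ : Finset (ZMod p)).erase 0) :=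
      card_le_card fun x hx => mem_erase.2 ⟨fun h => h0 (h ▸ hx), mem_univ _⟩
    rw [card_erase_of_mem (mem_univ _), card_univ, ZMod.card] at h1
    have := hp.one_lt
    omega
  have hE : ∀ ξ ∈ H, #H ^ 4 ≤ (p - #H) * en H H ξ := by
    intro ξ hξ
    have h1 := sq_card_le (H ×ˢ H) (fun q => q.1 + ξ * q.2)
    have h2 : #(((H ×ˢ H) ×ˢ (H ×ˢ H)).filter (fun q => (fun q : ZMod p × ZMod p => q.1 + ξ * q.2) q.1 =
      (fun q : ZMod p × ZMod p => q.1 + ξ * q.2) q.2)) = en H H ξ := rfl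
    rw [h2, card_product] at h1
    have h3 : #((H ×ˢ H).image (fun q => q.1 + ξ * q.2)) ≤ p - #H := by
      have h4 : (H ×ˢ H).image (fun q => q.1 + ξ * q.2) ⊆ univ \ H.image (fun h => n * h) := by
        intro w hw
        obtain ⟨⟨x, y⟩, hq, rfl⟩ := mem_image.1 hw
        rw [mem_product] at hq
        rw [mem_sdiff]
        refine ⟨mem_univ _, fun hw' => ?_⟩
        obtain ⟨h, hh, e⟩ := mem_image.1 hw'
        exact hno h hh x hq.1 (ξ * y) (hmul _ hξ _ hq.2) e
      have h5 := card_le_card h4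
      rw [card_sdiff_of_subset (subset_univ _), card_univ, ZMod.card, hcard] at h5
      exact h5
    calc #H ^ 4 = (#H * #H) ^ 2 := by ring
      _ ≤ _ := h1
      _ ≤ _ := Nat.mul_le_mul_right _ h3
  have hE' : ∀ ξ : ZMod p, #H ^ 4 ≤ p * en H H ξ := by
    intro ξ
    have h1 := sq_card_le (H ×ˢ H) (fun q => q.1 + ξ * q.2)
    have h2 : #(((H ×ˢ H) ×ˢ (H ×ˢ H)).filter (fun q => (fun q : ZMod p × ZMod p => q.1 + ξ * q.2) q.1 =
      (fun q : ZMod p × ZMod p => q.1 + ξ * q.2) q.2)) = en H H ξ := rfl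
    rw [h2, card_product] at h1
    have h3 : #((H ×ˢ H).image (fun q => q.1 + ξ * q.2)) ≤ p := by
      have h4 := card_le_univ ((H ×ˢ H).image (fun q => q.1 + ξ * q.2))
      rwa [ZMod.card] at h4
    calc #H ^ 4 = (#H * #H) ^ 2 := by ring
      _ ≤ _ := h1
      _ ≤ _ := Nat.mul_le_mul_right _ h3
  have hsum := sum_en_ne hp H
  have hHs : H ⊆ (univ : Finset (ZMod p)).erase 0 := fun x hx => mem_erase.2 ⟨fun h => h0 (h ▸ hx), mem_univ _⟩
  rw [← sum_sdiff hHs] at hsum
  push_cast at hsum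
  have ht : (0 : ℤ) < #H := by exact_mod_cast hne.card_pos
  have htp' : (#H : ℤ) < p := by exact_mod_cast htp
  have hA : (#H : ℤ) * #H ^ 4 ≤ (p - #H) * ∑ ξ ∈ H, (en H H ξ : ℤ) := by
    rw [mul_sum]
    calc (#H : ℤ) * #H ^ 4 = ∑ ξ ∈ H, (#H : ℤ) ^ 4 := by rw [sum_const, nsmul_eq_mul]
      _ ≤ ∑ ξ ∈ H, (p - #H) * (en H H ξ : ℤ) := by
          refine sum_le_sum fun ξ hξ => ?_
          have h1 := hE ξ hξ
          have h2 : ((#H ^ 4 : ℕ) : ℤ) ≤ (((p - #H) * en H H ξ : ℕ) : ℤ) := by exact_mod_cast h1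
          push_cast [Nat.cast_sub htp.le] at h2
          exact h2
  have hB : ((p : ℤ) - 1 - #H) * #H ^ 4 ≤ p * ∑ ξ ∈ (univ : Finset (ZMod p)).erase 0 \ H, (en H H ξ : ℤ) := by
    rw [mul_sum]
    have h1 : ((#((univ : Finset (ZMod p)).erase 0 \ H) : ℕ) : ℤ) = p - 1 - #H := by
      rw [card_sdiff_of_subset hHs, card_erase_of_mem (mem_univ _), card_univ, ZMod.card]
      have h2 : #H ≤ p - 1 := by omega
      rw [Nat.cast_sub h2, Nat.cast_sub hp.one_le]
      push_cast
      ring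
    calc ((p : ℤ) - 1 - #H) * #H ^ 4 = ∑ ξ ∈ (univ : Finset (ZMod p)).erase 0 \ H, (#H : ℤ) ^ 4 := by
          rw [sum_const, nsmul_eq_mul, h1]
      _ ≤ _ := sum_le_sum fun ξ _ => by exact_mod_cast hE' ξ
  generalize ∑ ξ ∈ H, (en H H ξ : ℤ) = A at *
  generalize ∑ ξ ∈ (univ : Finset (ZMod p)).erase 0 \ H, (en H H ξ : ℤ) = B at *
  have hbig' : (p : ℤ) ^ 3 ≤ #H ^ 4 := by exact_mod_cast hbig
  generalize (#H : ℤ) = t at *
  generalize (p : ℤ) = P at *
  have hd : 0 < P - t := by linarith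
  have hP : 0 < P := by linarith
  have h1 : P * (t * t ^ 4) + (P - t) * ((P - 1 - t) * t ^ 4) ≤ P * (P - t) * (t ^ 2 * (P - 1) + (t ^ 2 - t) ^ 2) := by
    calc P * (t * t ^ 4) + (P - t) * ((P - 1 - t) * t ^ 4) ≤ P * ((P - t) * A) + (P - t) * (P * B) :=
          add_le_add (mul_le_mul_of_nonneg_left hA hP.le) (mul_le_mul_of_nonneg_left hB hd.le)
      _ = P * (P - t) * (B + A) := by ring
      _ ≤ _ := mul_le_mul_of_nonneg_left hsum (by positivity)
  have h2 : 0 ≤ t ^ 2 * ((P - t) ^ 3 - t ^ 4) := by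
    have e : t ^ 2 * ((P - t) ^ 3 - t ^ 4) = P * (P - t) * (t ^ 2 * (P - 1) + (t ^ 2 - t) ^ 2) -
      (P * (t * t ^ 4) + (P - t) * ((P - 1 - t) * t ^ 4)) := by ring
    rw [e]
    linarith
  have h3 : 0 ≤ (P - t) ^ 3 - t ^ 4 := nonneg_of_mul_nonneg_right h2 (by positivity)
  have h4 : (P - t) ^ 3 < P ^ 3 := pow_lt_pow_left₀ (by linarith) hd.le (by norm_num)
  linarith

end Pool.Agent.U416.GE
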