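import Pool.Agent.U416.GE.Large
import Pool.Agent.U416.WR.LocalExact

/-! The `k`-th powers modulo powers of an odd prime. -/

set_option autoImplicit false
set_option linter.unusedSectionVars false

namespace Pool.Agent.U416.GE

open Finset Pointwise Pool.Agent.U416.WR

theorem gcd_ge {p : ℕ} (hp : p.Prime) {τ k' : ℕ} (hk' : ¬ p ∣ k') (m : ℕ) :
    Nat.gcd (p ^ (τ + m) * (p - 1)) (p ^ τ * k') = p ^ τ * Nat.gcd (p - 1) k' := by
  rw [pow_add, mul_assoc, Nat.gcd_mul_left]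
  congr 1
  exact Nat.Coprime.gcd_mul_left_cancel _ (Nat.Coprime.pow_left m ((hp.coprime_iff_not_dvd).2 hk'))

theorem gcd_le {p : ℕ} (hp : p.Prime) {τ k' : ℕ} (hk' : ¬ p ∣ k') (e : ℕ) :
    Nat.gcd (p ^ e * (p - 1)) (p ^ τ * k') ≤ p ^ τ * Nat.gcd (p - 1) k' := by
  rw [← gcd_ge hp hk' e]
  apply Nat.le_of_dvd
  · apply Nat.gcd_pos_of_pos_left
    exact Nat.mul_pos (pow_pos hp.pos _) (by have := hp.two_le; omega)
  · apply Nat.gcd_dvd_gcd_of_dvd_left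
    exact Nat.mul_dvd_mul_right (pow_dvd_pow p (by omega)) _

theorem card_G {p : ℕ} (hp : p.Prime) (j : ℕ) : Nat.card (ZMod (p ^ (j + 1)))ˣ = p ^ j * (p - 1) := by
  have : NeZero (p ^ (j + 1)) := ⟨pow_ne_zero _ hp.ne_zero⟩
  rw [Nat.card_eq_fintype_card, ZMod.card_units_eq_totient, Nat.totient_prime_pow_succ hp]

/-- the trivial bound -/
theorem trivial_bound {p : ℕ} (hp : p.Prime) (hp2 : p ≠ 2) {τ k' s : ℕ} (hk' : ¬ p ∣ k')
    (hs : p * (p ^ τ * Nat.gcd (p - 1) k') ≤ s * (p - 1)) (j : ℕ) (a : ℕ) :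
    ∃ x : Fin s → ℕ, (∑ i, x i ^ (p ^ τ * k')) ≡ a [MOD p ^ (j + 1)] := by
  classical
  have : NeZero (p ^ (j + 1)) := ⟨pow_ne_zero _ hp.ne_zero⟩
  have hk0 : 0 < k' := Nat.pos_of_ne_zero fun h => hk' (h ▸ dvd_zero p)
  have hk : 1 ≤ p ^ τ * k' := Nat.mul_pos (pow_pos hp.pos _) hk0
  have hcyc := ZMod.isCyclic_units_of_prime_pow p hp hp2 (j + 1)
  apply of_zmod
  refine cover_of_ker hk (D := p ^ τ * Nat.gcd (p - 1) k') (Nat.mul_pos (pow_pos hp.pos _)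
    (Nat.gcd_pos_of_pos_right _ hk0)) ?_ ?_ (a : ZMod (p ^ (j + 1)))
  · intro S hS
    have h1 : #S ≤ Nat.card (powMonoidHom (p ^ τ * k') : (ZMod (p ^ (j + 1)))ˣ →* (ZMod (p ^ (j + 1)))ˣ).ker := by
      have h2 := Set.ncard_le_ncard (s := (S : Set (ZMod (p ^ (j + 1)))ˣ))
        (t := ((powMonoidHom (p ^ τ * k') : (ZMod (p ^ (j + 1)))ˣ →* (ZMod (p ^ (j + 1)))ˣ).ker : Set _))
        (fun u hu => hS u hu) (Set.toFinite _)
      rw [Set.ncard_coe_finset] at h2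
      exact h2
    rw [IsCyclic.card_powMonoidHom_ker, card_G hp] at h1
    exact h1.trans (gcd_le hp hk' j)
  · rw [Nat.totient_prime_pow_succ hp]
    calc p ^ (j + 1) * (p ^ τ * Nat.gcd (p - 1) k') = p ^ j * (p * (p ^ τ * Nat.gcd (p - 1) k')) := by ring
      _ ≤ p ^ j * (s * (p - 1)) := Nat.mul_le_mul_left _ hs
      _ = s * (p ^ j * (p - 1)) := by ring

/-- the `k`-th powers of the units -/
def HH (N k : ℕ) [NeZero N] : Finset (ZMod N) :=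
  (univ : Finset (ZMod N)ˣ).image (fun u => ((u ^ k : (ZMod N)ˣ) : ZMod N))

theorem mem_HH {N k : ℕ} [NeZero N] {x : ZMod N} : x ∈ HH N k ↔ ∃ u : (ZMod N)ˣ, ((u ^ k : (ZMod N)ˣ) : ZMod N) = x := by
  unfold HH
  rw [mem_image]
  simp

theorem HH_mul {N k : ℕ} [NeZero N] : ∀ a ∈ HH N k, ∀ b ∈ HH N k, a * b ∈ HH N k := by
  intro a ha b hb
  rw [mem_HH] at *
  obtain ⟨u, rfl⟩ := ha
  obtain ⟨v, rfl⟩ := hb
  exact ⟨u * v, by rw [mul_pow, Units.val_mul]⟩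

theorem HH_inv {N k : ℕ} [NeZero N] : ∀ a ∈ HH N k, ∃ b ∈ HH N k, a * b = 1 := by
  intro a ha
  rw [mem_HH] at ha
  obtain ⟨u, rfl⟩ := ha
  exact ⟨_, mem_HH.2 ⟨u⁻¹, rfl⟩, by rw [← Units.val_mul, inv_pow, mul_inv_cancel, Units.val_one]⟩

theorem HH_nonempty {N k : ℕ} [NeZero N] : (HH N k).Nonempty := ⟨_, mem_HH.2 ⟨1, rfl⟩⟩

theorem HH_card {N k : ℕ} [NeZero N] : #(HH N k) = Nat.card (powMonoidHom k : (ZMod N)ˣ →* (ZMod N)ˣ).range := by
  have h1 : ((HH N k : Finset (ZMod N)) : Set (ZMod N)) =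
      (fun u : (ZMod N)ˣ => (u : ZMod N)) '' ((powMonoidHom k : (ZMod N)ˣ →* (ZMod N)ˣ).range : Set _) := by
    ext x
    rw [mem_coe, mem_HH]
    constructor
    · rintro ⟨u, rfl⟩
      exact ⟨u ^ k, ⟨u, rfl⟩, rfl⟩
    · rintro ⟨_, ⟨u, rfl⟩, rfl⟩
      exact ⟨u, rfl⟩
  rw [← Set.ncard_coe_finset, h1, Set.ncard_image_of_injective _ Units.val_injective]
  rfl

theorem HH_card_eq {p : ℕ} (hp : p.Prime) (hp2 : p ≠ 2) {τ k' : ℕ} (hk' : ¬ p ∣ k') (m : ℕ) [NeZero (p ^ (τ + m + 1))] :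
    #(HH (p ^ (τ + m + 1)) (p ^ τ * k')) = p ^ m * ((p - 1) / Nat.gcd (p - 1) k') := by
  have hcyc := ZMod.isCyclic_units_of_prime_pow p hp hp2 (τ + m + 1)
  rw [HH_card, IsCyclic.card_powMonoidHom_range, card_G hp, gcd_ge hp hk', pow_add, mul_assoc,
    Nat.mul_div_mul_left _ _ (pow_pos hp.pos τ), Nat.mul_div_assoc _ (Nat.gcd_dvd_left _ _)]

theorem unit_or {p n : ℕ} (hp : p.Prime) [NeZero (p ^ (n + 1))] (x : ZMod (p ^ (n + 1))) :
    IsUnit x ∨ (p : ZMod (p ^ (n + 1))) ∣ x := by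
  by_cases h : p ∣ x.val
  · right
    obtain ⟨c, hc⟩ := h
    refine ⟨(c : ZMod (p ^ (n + 1))), ?_⟩
    rw [← Nat.cast_mul, ← hc, ZMod.natCast_zmod_val]
  · left
    have h1 : IsUnit ((x.val : ℕ) : ZMod (p ^ (n + 1))) := by
      rw [ZMod.isUnit_iff_coprime]
      exact (Nat.Coprime.pow_left _ ((hp.coprime_iff_not_dvd).2 h)).symm
    rwa [ZMod.natCast_zmod_val] at h1

/-- different `k`-th powers of units modulo `p ^ (τ + 1)` are different modulo `p` -/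
theorem HH_diff {p : ℕ} (hp : p.Prime) {τ k' : ℕ} [NeZero (p ^ (τ + 1))] :
    ∀ a ∈ HH (p ^ (τ + 1)) (p ^ τ * k'), ∀ b ∈ HH (p ^ (τ + 1)) (p ^ τ * k'), a ≠ b → IsUnit (a - b) := by
  intro a ha b hb hab
  rcases unit_or hp (a - b) with h | h
  · exact h
  · exfalso
    apply hab
    rw [mem_HH] at ha hb
    obtain ⟨u, rfl⟩ := ha
    obtain ⟨v, rfl⟩ := hb
    have h1 := dvd_sub_pow_of_dvd_sub h τ
    have h0 : (p : ZMod (p ^ (τ + 1))) ^ (τ + 1) = 0 := by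
      rw [← Nat.cast_pow]
      exact ZMod.natCast_self _
    rw [h0, zero_dvd_iff, sub_eq_zero] at h1
    have h2 : (u ^ (p ^ τ * k')) ^ p ^ τ = (v ^ (p ^ τ * k')) ^ p ^ τ := by
      ext
      rw [Units.val_pow_eq_pow_val (u ^ (p ^ τ * k')), Units.val_pow_eq_pow_val (v ^ (p ^ τ * k'))]
      exact h1
    set w := u * v⁻¹ with hw
    have h3 : (w ^ (p ^ τ * k')) ^ p ^ τ = 1 := by
      rw [hw, mul_pow, mul_pow, h2, inv_pow, inv_pow, mul_inv_cancel]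
    have h4 : (w ^ (p ^ τ * k')) ^ (p - 1) = 1 := by
      have h5 : w ^ (p ^ τ * (p - 1)) = 1 := by
        rw [← card_G hp τ]
        exact pow_card_eq_one'
      rw [← pow_mul, show p ^ τ * k' * (p - 1) = p ^ τ * (p - 1) * k' by ring, pow_mul, h5, one_pow]
    have h5 : orderOf (w ^ (p ^ τ * k')) ∣ Nat.gcd (p ^ τ) (p - 1) :=
      Nat.dvd_gcd (orderOf_dvd_of_pow_eq_one h3) (orderOf_dvd_of_pow_eq_one h4)
    have h6 : Nat.gcd (p ^ τ) (p - 1) = 1 := by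
      apply Nat.Coprime.pow_left
      rw [hp.coprime_iff_not_dvd]
      intro h
      have := Nat.le_of_dvd (by have := hp.two_le; omega) h
      have := hp.two_le
      omega
    rw [h6] at h5
    have h7 : w ^ (p ^ τ * k') = 1 := orderOf_eq_one_iff.1 (Nat.dvd_one.1 h5)
    have h8 : u ^ (p ^ τ * k') = v ^ (p ^ τ * k') := by
      have : u = w * v := by rw [hw]; group
      rw [this, mul_pow, h7, one_mul]
    rw [h8]

/-- lifting of powers -/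
theorem lift_pow {p : ℕ} (hp : p.Prime) (hp2 : p ≠ 2) {τ k' : ℕ} (hk' : ¬ p ∣ k') (j : ℕ) {y : ℤ}
    [NeZero (p ^ (τ + 1))] (hy : (y : ZMod (p ^ (τ + 1))) ∈ HH (p ^ (τ + 1)) (p ^ τ * k')) :
    ∃ x : ℤ, (p : ℤ) ^ j ∣ x ^ (p ^ τ * k') - y := by
  classical
  rw [mem_HH] at hy
  obtain ⟨u, hu⟩ := hy
  have : NeZero (p ^ (τ + j + 1)) := ⟨pow_ne_zero _ hp.ne_zero⟩
  have hdiv : p ^ (τ + 1) ∣ p ^ (τ + j + 1) := pow_dvd_pow p (by omega)
  set f := ZMod.unitsMap hdiv with hf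
  have hsurj : Function.Surjective f := ZMod.unitsMap_surjective hdiv
  obtain ⟨v, hv⟩ := hsurj u
  have hcyc := ZMod.isCyclic_units_of_prime_pow p hp hp2 (τ + j + 1)
  -- `y` is a unit
  have hyu : IsUnit (y : ZMod (p ^ (τ + j + 1))) := by
    rcases unit_or (n := τ + j) hp (y : ZMod (p ^ (τ + j + 1))) with h | h
    · exact h
    · exfalso
      have h1 : (p : ZMod (p ^ (τ + 1))) ∣ (y : ZMod (p ^ (τ + 1))) := by
        have h2 := map_dvd (ZMod.castHom hdiv (ZMod (p ^ (τ + 1)))) h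
        rwa [map_natCast, map_intCast] at h2
      have h3 : IsUnit (p : ZMod (p ^ (τ + 1))) := isUnit_of_dvd_unit h1 (by rw [← hu]; exact Units.isUnit _)
      rw [ZMod.isUnit_iff_coprime] at h3
      have h4 : p ∣ 1 := by
        rw [← h3]
        exact Nat.dvd_gcd dvd_rfl (dvd_pow_self p (by omega))
      exact hp.one_lt.ne' (Nat.dvd_one.1 h4)
  obtain ⟨Y, hY⟩ := hyu
  have hfY : f Y = u ^ (p ^ τ * k') := by
    ext
    rw [hu, hf, ZMod.unitsMap_val, hY, ZMod.cast_intCast hdiv]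
  set w := Y * (v ^ (p ^ τ * k'))⁻¹ with hw
  have hfw : w ∈ f.ker := by
    rw [MonoidHom.mem_ker, hw, map_mul, map_inv, map_pow, hfY, hv, mul_inv_cancel]
  have hker : Nat.card f.ker = p ^ j := by
    have h1 := f.ker.card_mul_index
    rw [Subgroup.index_ker, MonoidHom.range_eq_top.2 hsurj, Subgroup.card_top, card_G hp, card_G hp] at h1
    have h2 : p ^ (τ + j) * (p - 1) = p ^ j * (p ^ τ * (p - 1)) := by rw [pow_add]; ring
    rw [h2] at h1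
    exact Nat.eq_of_mul_eq_mul_right (Nat.mul_pos (pow_pos hp.pos _) (by have := hp.two_le; omega)) h1
  have hwj : w ^ p ^ j = 1 := by
    have h1 : (⟨w, hfw⟩ : f.ker) ^ Nat.card f.ker = 1 := pow_card_eq_one'
    rw [hker] at h1
    exact congrArg (fun z : f.ker => (z : (ZMod (p ^ (τ + j + 1)))ˣ)) h1
  set P := (powMonoidHom (p ^ τ * k') : (ZMod (p ^ (τ + j + 1)))ˣ →* (ZMod (p ^ (τ + j + 1)))ˣ).range with hP
  have hPc : Nat.card P = p ^ j * ((p - 1) / Nat.gcd (p - 1) k') := by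
    rw [← HH_card_eq (τ := τ) hp hp2 hk' j, HH_card]
  have hPpos : 0 < Nat.card P := Nat.card_pos
  have hwP : w ^ Nat.card P = 1 := by rw [hPc, pow_mul, hwj, one_pow]
  have hmem : w ∈ P := by
    have h1 : (univ.filter (fun x : (ZMod (p ^ (τ + j + 1)))ˣ => x ∈ P)) ⊆
        univ.filter (fun x : (ZMod (p ^ (τ + j + 1)))ˣ => x ^ Nat.card P = 1) := by
      intro x hx
      rw [mem_filter] at *
      refine ⟨mem_univ _, ?_⟩
      have h2 : (⟨x, hx.2⟩ : P) ^ Nat.card P = 1 := pow_card_eq_one'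
      exact congrArg (fun z : P => (z : (ZMod (p ^ (τ + j + 1)))ˣ)) h2
    have h2 : #(univ.filter (fun x : (ZMod (p ^ (τ + j + 1)))ˣ => x ∈ P)) = Nat.card P := by
      rw [Nat.card_eq_fintype_card, Fintype.card_subtype]
    have h3 : #(univ.filter (fun x : (ZMod (p ^ (τ + j + 1)))ˣ => x ^ Nat.card P = 1)) ≤ Nat.card P := by
      convert IsCyclic.card_pow_eq_one_le (α := (ZMod (p ^ (τ + j + 1)))ˣ) hPpos
    have h4 := eq_of_subset_of_card_le h1 (by rw [h2]; exact h3)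
    have h5 : w ∈ univ.filter (fun x : (ZMod (p ^ (τ + j + 1)))ˣ => x ^ Nat.card P = 1) := mem_filter.2 ⟨mem_univ _, hwP⟩
    rw [← h4] at h5
    exact (mem_filter.1 h5).2
  obtain ⟨z, hz⟩ := hmem
  have hz' : z ^ (p ^ τ * k') = w := hz
  refine ⟨(((z * v : (ZMod (p ^ (τ + j + 1)))ˣ) : ZMod (p ^ (τ + j + 1))).val : ℤ), ?_⟩
  have h1 : ((p ^ (τ + j + 1) : ℕ) : ℤ) ∣ (((z * v : (ZMod (p ^ (τ + j + 1)))ˣ) : ZMod (p ^ (τ + j + 1))).val : ℤ) ^ (p ^ τ * k') - y := by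
    rw [← ZMod.intCast_zmod_eq_zero_iff_dvd]
    push_cast
    rw [ZMod.natCast_zmod_val, ← hY, ← Units.val_mul, ← Units.val_pow_eq_pow_val, mul_pow, hz', hw, mul_assoc,
      inv_mul_cancel, mul_one, sub_self]
  push_cast at h1
  exact (pow_dvd_pow (p : ℤ) (by omega)).trans h1

end Pool.Agent.U416.GE
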