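import Mathlib

/-! Sums of products of local functions over residue classes, and over integers with logarithmic weights. -/

set_option autoImplicit false

namespace Pool.Agent.U416.GE.Wag

open Finset Filter Topology

/-- the Chinese remainder theorem for sums -/
theorem crt_two {r P : ℕ} (hr : 0 < r) (hP : 0 < P) (hc : Nat.Coprime r P) (g F : ℕ → ℝ)
    (hg : ∀ x, g (x % r) = g x) (hF : ∀ x, F (x % P) = F x) :
    ∑ a ∈ range (r * P), g a * F a = (∑ x ∈ range r, g x) * ∑ y ∈ range P, F y := by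
  have hinj : Set.InjOn (fun a : ℕ => (a % r, a % P)) (range (r * P) : Set ℕ) := by
    intro a ha b hb hab
    rw [coe_range, Set.mem_Iio] at ha hb
    have h1 : a ≡ b [MOD r] := congrArg Prod.fst hab
    have h2 : a ≡ b [MOD P] := congrArg Prod.snd hab
    have h3 := (Nat.modEq_and_modEq_iff_modEq_mul hc).1 ⟨h1, h2⟩
    have h4 := h3
    unfold Nat.ModEq at h4
    rwa [Nat.mod_eq_of_lt ha, Nat.mod_eq_of_lt hb] at h4
  have himg : (range (r * P)).image (fun a : ℕ => (a % r, a % P)) = range r ×ˢ range P := by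
    apply eq_of_subset_of_card_le
    · intro z hz
      rw [mem_image] at hz
      obtain ⟨a, -, rfl⟩ := hz
      rw [mem_product, mem_range, mem_range]
      exact ⟨Nat.mod_lt _ hr, Nat.mod_lt _ hP⟩
    · rw [card_image_of_injOn hinj, card_product, card_range, card_range, card_range]
  rw [sum_mul_sum, ← sum_product', ← himg, sum_image hinj]
  refine sum_congr rfl fun a _ => ?_
  rw [hg, hF]

/-- the same for a finite set of primes -/
theorem crt_prod (R : Finset ℕ) (hR : ∀ r ∈ R, r.Prime) (f : ℕ → ℕ → ℝ)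
    (hf : ∀ r ∈ R, ∀ x, f r (x % r) = f r x) :
    ∑ a ∈ range (∏ r ∈ R, r), ∏ r ∈ R, f r a = ∏ r ∈ R, ∑ x ∈ range r, f r x := by
  induction R using Finset.induction_on with
  | empty => simp
  | insert r R hr ih =>
    have hR' : ∀ x ∈ R, x.Prime := fun x hx => hR x (mem_insert_of_mem hx)
    have hf' : ∀ x ∈ R, ∀ y, f x (y % x) = f x y := fun x hx => hf x (mem_insert_of_mem hx)
    have hrp := hR r (mem_insert_self _ _)
    have hc : Nat.Coprime r (∏ x ∈ R, x) := Nat.Coprime.prod_right fun x hx =>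
      (Nat.coprime_primes hrp (hR' x hx)).2 fun h => hr (h ▸ hx)
    have hpos : 0 < ∏ x ∈ R, x := prod_pos fun x hx => (hR' x hx).pos
    rw [prod_insert hr, prod_insert hr, ← ih hR' hf']
    rw [← crt_two hrp.pos hpos hc (f r) (fun a => ∏ x ∈ R, f x a) (hf r (mem_insert_self _ _)) ?_]
    · exact sum_congr rfl fun a _ => prod_insert hr
    · intro x
      refine prod_congr rfl fun y hy => ?_
      rw [← hf' y hy x, ← hf' y hy (x % _)]
      congr 1
      exact Nat.mod_mod_of_dvd x (dvd_prod_of_mem (fun x => x) hy)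

theorem periodic_range {P : ℕ} (F : ℕ → ℝ) (hF : ∀ x, F (x % P) = F x) (n : ℕ) :
    ∑ k ∈ range (n * P), F k = n * ∑ a ∈ range P, F a := by
  induction n with
  | zero => simp
  | succ n ih =>
    rw [Nat.succ_mul, sum_range_add, ih]
    have h : ∀ a ∈ range P, F (n * P + a) = F a := by
      intro a _
      rw [← hF (n * P + a), Nat.mul_add_mod_self_right, hF]
    rw [sum_congr rfl h]
    push_cast
    ring

/-- sums of a periodic function -/
theorem periodic_sum {P : ℕ} (hP : 0 < P) (F : ℕ → ℝ) (hF : ∀ x, F (x % P) = F x) (h0 : ∀ x, 0 ≤ F x)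
    {K : ℕ} (hK : P ≤ K) :
    ∑ k ∈ Icc 1 K, F k ≤ 2 * K * ((∑ a ∈ range P, F a) / P) := by
  have hPr : (0 : ℝ) < P := by exact_mod_cast hP
  have h1 : ∑ k ∈ Icc 1 K, F k ≤ ∑ k ∈ range ((K / P + 1) * P), F k := by
    apply sum_le_sum_of_subset_of_nonneg
    · intro k hk
      rw [mem_Icc] at hk
      rw [mem_range]
      have := Nat.lt_mul_div_succ K hP
      rw [mul_comm] at this
      omega
    · exact fun _ _ _ => h0 _
  rw [periodic_range F hF] at h1
  refine h1.trans ?_
  have h2 : 0 ≤ ∑ a ∈ range P, F a := sum_nonneg fun _ _ => h0 _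
  have h3 : ((K / P + 1 : ℕ) : ℝ) ≤ 2 * K / P := by
    rw [le_div_iff₀ hPr]
    have h4 : (K / P + 1) * P ≤ 2 * K := by
      have := Nat.div_mul_le_self K P
      rw [add_mul, one_mul]
      omega
    exact_mod_cast h4
  calc ((K / P + 1 : ℕ) : ℝ) * ∑ a ∈ range P, F a ≤ 2 * K / P * ∑ a ∈ range P, F a :=
        mul_le_mul_of_nonneg_right h3 h2
    _ = _ := by ring

theorem log_blocks {P : ℕ} (hP : 0 < P) (F : ℕ → ℝ) (hF : ∀ x, F (x % P) = F x) (h0 : ∀ x, 0 ≤ F x)
    (h1 : ∀ x, F x ≤ 1) (n : ℕ) :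
    ∑ m ∈ range ((n + 1) * P), F m / m ≤
      (1 + Real.log P) + (∑ a ∈ range P, F a) / P * ∑ j ∈ range n, ((j : ℝ) + 1)⁻¹ := by
  have hPr : (0 : ℝ) < P := by exact_mod_cast hP
  induction n with
  | zero =>
    rw [zero_add, one_mul, range_zero, sum_empty, mul_zero, add_zero]
    have h2 : ∑ m ∈ range P, F m / m ≤ ∑ m ∈ Icc 1 P, ((m : ℝ))⁻¹ := by
      have h3 : ∑ m ∈ range P, F m / m = ∑ m ∈ (range P).filter (1 ≤ ·), F m / m := by
        rw [sum_filter]
        refine sum_congr rfl fun m _ => ?_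
        split_ifs with h
        · rfl
        · have : m = 0 := by omega
          rw [this]; simp
      rw [h3]
      calc ∑ m ∈ (range P).filter (1 ≤ ·), F m / m ≤ ∑ m ∈ (range P).filter (1 ≤ ·), ((m : ℝ))⁻¹ := by
            refine sum_le_sum fun m hm => ?_
            rw [mem_filter] at hm
            have : (0 : ℝ) < m := by exact_mod_cast hm.2
            rw [div_eq_mul_inv]
            exact mul_le_of_le_one_left (by positivity) (h1 m)
        _ ≤ _ := by
            apply sum_le_sum_of_subset_of_nonneg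
            · intro m hm
              rw [mem_filter, mem_range] at hm
              rw [mem_Icc]
              omega
            · intro m _ _
              positivity
    refine h2.trans ?_
    have h4 := harmonic_le_one_add_log P
    rw [harmonic_eq_sum_Icc] at h4
    push_cast at h4
    exact h4
  | succ n ih =>
    have e : (n + 1 + 1) * P = (n + 1) * P + P := by ring
    rw [e, sum_range_add, sum_range_succ _ n, mul_add]
    have h2 : ∑ a ∈ range P, F ((n + 1) * P + a) / (((n + 1) * P + a : ℕ) : ℝ) ≤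
        (∑ a ∈ range P, F a) / P * ((n : ℝ) + 1)⁻¹ := by
      rw [div_mul_eq_mul_div, sum_mul, sum_div]
      refine sum_le_sum fun a _ => ?_
      rw [← hF ((n + 1) * P + a), Nat.mul_add_mod_self_right, hF]
      push_cast
      have h3 : (0 : ℝ) < ((n : ℝ) + 1) * P := by positivity
      have h4 : ((n : ℝ) + 1) * P ≤ ((n : ℝ) + 1) * P + a := by linarith [(Nat.cast_nonneg a : (0 : ℝ) ≤ a)]
      calc F a / (((n : ℝ) + 1) * P + a) ≤ F a / (((n : ℝ) + 1) * P) := div_le_div_of_nonneg_left (h0 a) h3 h4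
        _ = F a * ((n : ℝ) + 1)⁻¹ / P := by
            field_simp
    linarith

/-- sums of a periodic function with logarithmic weights -/
theorem log_sum {P : ℕ} (hP : 0 < P) (F : ℕ → ℝ) (hF : ∀ x, F (x % P) = F x) (h0 : ∀ x, 0 ≤ F x)
    (h1 : ∀ x, F x ≤ 1) {K : ℕ} (hK : 1 ≤ K) :
    ∑ m ∈ Icc 1 K, F m / m ≤
      (1 + Real.log P) + (∑ a ∈ range P, F a) / P * (1 + Real.log K) := by
  have hPr : (0 : ℝ) < P := by exact_mod_cast hP
  have h2 : 0 ≤ (∑ a ∈ range P, F a) / P := div_nonneg (sum_nonneg fun _ _ => h0 _) hPr.le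
  have h3 : ∑ m ∈ Icc 1 K, F m / m ≤ ∑ m ∈ range ((K / P + 1) * P), F m / m := by
    apply sum_le_sum_of_subset_of_nonneg
    · intro k hk
      rw [mem_Icc] at hk
      rw [mem_range]
      have := Nat.lt_mul_div_succ K hP
      rw [mul_comm] at this
      omega
    · exact fun m _ _ => div_nonneg (h0 m) (Nat.cast_nonneg m)
  refine (h3.trans (log_blocks hP F hF h0 h1 (K / P))).trans ?_
  have h4 : ∑ j ∈ range (K / P), ((j : ℝ) + 1)⁻¹ ≤ 1 + Real.log K := by
    calc ∑ j ∈ range (K / P), ((j : ℝ) + 1)⁻¹ ≤ ∑ j ∈ range K, ((j : ℝ) + 1)⁻¹ := by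
          apply sum_le_sum_of_subset_of_nonneg
          · exact range_mono (Nat.div_le_self _ _)
          · intro m _ _
            positivity
      _ ≤ 1 + Real.log K := by
          have h5 := harmonic_le_one_add_log K
          unfold harmonic at h5
          push_cast at h5
          exact h5
  gcongr

end Pool.Agent.U416.GE.Wag
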