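import Pool.Agent.U416.GE.Wag1
import Pool.Agent.H617R3.BT.Sieve

/-! The number of divisors from a set of primes of the integers `D` with `D t + 1` prime. -/

set_option autoImplicit false

namespace Pool.Agent.U416.GE.Wag

open Finset Filter Topology

/-- `c` to the power of the number of the primes in `R` which divide `n` -/
noncomputable def F (R : Finset ℕ) (c : ℝ) (n : ℕ) : ℝ := ∏ r ∈ R, if r ∣ n then c else 1

/-- the mean value of `F` -/
noncomputable def A (R : Finset ℕ) (c : ℝ) : ℝ := ∏ r ∈ R, (1 - (1 - c) / (r : ℝ))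

theorem F_nonneg {R : Finset ℕ} {c : ℝ} (hc : 0 ≤ c) (n : ℕ) : 0 ≤ F R c n := by
  unfold F
  refine prod_nonneg fun r _ => ?_
  split_ifs <;> linarith

theorem F_le_one {R : Finset ℕ} {c : ℝ} (hc : 0 ≤ c) (hc1 : c ≤ 1) (n : ℕ) : F R c n ≤ 1 := by
  unfold F
  refine prod_le_one (fun r _ => ?_) fun r _ => ?_ <;> split_ifs <;> linarith

theorem F_local {r : ℕ} (c : ℝ) (x : ℕ) : (if r ∣ x % r then c else 1) = if r ∣ x then c else 1 := by
  have : r ∣ x % r ↔ r ∣ x := Nat.dvd_mod_iff dvd_rfl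
  simp only [this]

theorem F_per {R : Finset ℕ} (c : ℝ) (x : ℕ) : F R c (x % ∏ r ∈ R, r) = F R c x := by
  unfold F
  refine prod_congr rfl fun r hr => ?_
  rw [← F_local c x, ← F_local c (x % _)]
  congr 2
  exact Nat.mod_mod_of_dvd x (dvd_prod_of_mem (fun x => x) hr)

theorem prod_pos' {R : Finset ℕ} (hR : ∀ r ∈ R, r.Prime) : 0 < ∏ r ∈ R, r := prod_pos fun x hx => (hR x hx).pos

theorem sum_local {r : ℕ} (hr : 0 < r) (c : ℝ) : ∑ x ∈ range r, (if r ∣ x then c else 1) = r - 1 + c := by
  rw [← add_sum_erase _ _ (mem_range.2 hr), if_pos (dvd_zero r)]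
  have h : ∀ x ∈ (range r).erase 0, (if r ∣ x then c else 1) = 1 := by
    intro x hx
    rw [mem_erase, mem_range] at hx
    rw [if_neg]
    intro h
    have := Nat.le_of_dvd (by omega) h
    omega
  rw [sum_congr rfl h, sum_const, card_erase_of_mem (mem_range.2 hr), card_range, nsmul_eq_mul, mul_one,
    Nat.cast_sub (by omega)]
  push_cast
  ring

theorem sum_F {R : Finset ℕ} (hR : ∀ r ∈ R, r.Prime) (c : ℝ) :
    (∑ a ∈ range (∏ r ∈ R, r), F R c a) / ((∏ r ∈ R, r : ℕ) : ℝ) = A R c := by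
  unfold F
  rw [crt_prod R hR (fun r x => if r ∣ x then c else 1) (fun r _ x => F_local c x)]
  unfold A
  push_cast
  rw [← prod_div_distrib]
  refine prod_congr rfl fun r hr => ?_
  have h := (hR r hr).pos
  have h' : (r : ℝ) ≠ 0 := by exact_mod_cast h.ne'
  rw [sum_local h]
  field_simp
  ring

/-- the local function for the shifted primes -/
noncomputable def g (t : ℕ) (c : ℝ) (r x : ℕ) : ℝ := if r ∣ t * x + 1 then 0 else if r ∣ x then c else 1

theorem g_local {t r : ℕ} (c : ℝ) (x : ℕ) : g t c r (x % r) = g t c r x := by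
  unfold g
  have h1 : r ∣ x % r ↔ r ∣ x := Nat.dvd_mod_iff dvd_rfl
  have h2 : r ∣ t * (x % r) + 1 ↔ r ∣ t * x + 1 := by
    have h3 : t * (x % r) + 1 ≡ t * x + 1 [MOD r] := ((Nat.mod_modEq x r).mul_left t).add_right 1
    exact ⟨fun h => (Nat.modEq_zero_iff_dvd.1 (h3.symm.trans (Nat.modEq_zero_iff_dvd.2 h))),
      fun h => (Nat.modEq_zero_iff_dvd.1 (h3.trans (Nat.modEq_zero_iff_dvd.2 h)))⟩
  simp only [h1, h2]

theorem g_nonneg {t r : ℕ} {c : ℝ} (hc : 0 ≤ c) (x : ℕ) : 0 ≤ g t c r x := by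
  unfold g
  split_ifs <;> linarith

theorem sum_g {t r : ℕ} (hr : r.Prime) (ht : 1 ≤ t) (htr : t < r) {c : ℝ} (hc : 0 ≤ c) (hc1 : c ≤ 1) :
    ∑ x ∈ range r, g t c r x ≤ r - 2 + c := by
  have : Fact r.Prime := ⟨hr⟩
  have ht0 : (t : ZMod r) ≠ 0 := by
    intro h
    rw [ZMod.natCast_eq_zero_iff] at h
    have := Nat.le_of_dvd (by omega) h
    omega
  obtain ⟨x₀, hx₀⟩ : ∃ x₀ : ℕ, x₀ = (-(t : ZMod r)⁻¹).val := ⟨_, rfl⟩
  have hx0lt : x₀ < r := hx₀ ▸ ZMod.val_lt _
  have hdvd : r ∣ t * x₀ + 1 := by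
    rw [← ZMod.natCast_eq_zero_iff]
    push_cast
    rw [hx₀, ZMod.natCast_zmod_val]
    field_simp
    ring
  have hx0 : x₀ ≠ 0 := by
    intro h
    rw [h, mul_zero, zero_add] at hdvd
    exact hr.one_lt.ne' (Nat.dvd_one.1 hdvd)
  rw [← add_sum_erase _ _ (mem_range.2 hr.pos)]
  have hm : x₀ ∈ (range r).erase 0 := mem_erase.2 ⟨hx0, mem_range.2 hx0lt⟩
  rw [← add_sum_erase _ _ hm]
  have h1 : g t c r 0 = c := by
    unfold g
    rw [mul_zero, zero_add, if_neg (fun h => hr.one_lt.ne' (Nat.dvd_one.1 h)), if_pos (dvd_zero r)]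
  have h2 : g t c r x₀ = 0 := by
    unfold g
    rw [if_pos hdvd]
  have h3 : ∑ x ∈ ((range r).erase 0).erase x₀, g t c r x ≤ (r : ℝ) - 2 := by
    calc ∑ x ∈ ((range r).erase 0).erase x₀, g t c r x ≤ ∑ x ∈ ((range r).erase 0).erase x₀, (1 : ℝ) := by
          refine sum_le_sum fun x _ => ?_
          unfold g
          split_ifs <;> linarith
      _ = (r : ℝ) - 2 := by
          rw [sum_const, card_erase_of_mem hm, card_erase_of_mem (mem_range.2 hr.pos), card_range, nsmul_eq_mul,
            mul_one]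
          have := hr.two_le
          rw [Nat.sub_sub, Nat.cast_sub (by omega)]
          norm_num
  rw [h1, h2]
  linarith

theorem totient_prod {R : Finset ℕ} (hR : ∀ r ∈ R, r.Prime) : Nat.totient (∏ r ∈ R, r) = ∏ r ∈ R, (r - 1) := by
  induction R using Finset.induction_on with
  | empty => simp
  | insert r R hr ih =>
    have hR' : ∀ x ∈ R, x.Prime := fun x hx => hR x (mem_insert_of_mem hx)
    have hrp := hR r (mem_insert_self _ _)
    have hc : Nat.Coprime r (∏ x ∈ R, x) := Nat.Coprime.prod_right fun x hx =>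
      (Nat.coprime_primes hrp (hR' x hx)).2 fun h => hr (h ▸ hx)
    rw [prod_insert hr, prod_insert hr, Nat.totient_mul hc, ih hR', Nat.totient_prime hrp]

/-- one residue class -/
theorem class_le {P t N₀ : ℕ} (hP : 0 < P) (ht : 1 ≤ t)
    (hbt : ∀ a q N : ℕ, 1 ≤ q → N₀ ≤ N → (((range N).filter (fun j => (a + j * q).Prime)).card : ℝ) ≤
      (2 + 1) * ((q : ℝ) / Nat.totient q) * N / Real.log N) (hN₀ : 3 ≤ N₀) {X : ℕ} (hX : N₀ * P ≤ X) (hXP : P * P ≤ X) (a : ℕ) :
    ((((Icc 1 X).filter fun D => (D * t + 1).Prime ∧ D % P = a).card : ℕ) : ℝ) ≤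
      12 * t * X / Real.log X / Nat.totient P := by
  have hPr : (0 : ℝ) < P := by exact_mod_cast hP
  have htr : (0 : ℝ) < t := by exact_mod_cast ht
  obtain ⟨N, hN⟩ : ∃ N, N = X / P + 1 := ⟨_, rfl⟩
  have hNN : N₀ ≤ N := by
    have := (Nat.le_div_iff_mul_le hP).2 hX
    omega
  have h1 : ((Icc 1 X).filter fun D => (D * t + 1).Prime ∧ D % P = a).card ≤
      ((range N).filter (fun j => ((t * a + 1) + j * (t * P)).Prime)).card := by
    apply card_le_card_of_injOn (fun D => D / P)
    · intro D hD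
      rw [mem_coe, mem_filter, mem_Icc] at hD
      rw [mem_coe, mem_filter, mem_range]
      have h2 : t * a + 1 + D / P * (t * P) = D * t + 1 := by
        have h3 := Nat.div_add_mod D P
        rw [hD.2.2] at h3
        calc t * a + 1 + D / P * (t * P) = (P * (D / P) + a) * t + 1 := by ring
          _ = D * t + 1 := by rw [h3]
      refine ⟨?_, by rw [h2]; exact hD.2.1⟩
      have := Nat.div_le_div_right (c := P) hD.1.2
      show D / P < N
      omega
    · intro D hD D' hD' h
      rw [mem_coe, mem_filter, mem_Icc] at hD hD'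
      have h3 := Nat.div_add_mod D P
      have h4 := Nat.div_add_mod D' P
      simp only at h
      rw [hD.2.2, h] at h3
      rw [hD'.2.2] at h4
      exact h3.symm.trans h4
  have h2 := hbt (t * a + 1) (t * P) N (Nat.mul_pos ht hP) hNN
  have h3 : ((((Icc 1 X).filter fun D => (D * t + 1).Prime ∧ D % P = a).card : ℕ) : ℝ) ≤
      (2 + 1) * (((t * P : ℕ) : ℝ) / Nat.totient (t * P)) * N / Real.log N := le_trans (by exact_mod_cast h1) h2
  refine h3.trans ?_
  have hX0 : 1 ≤ X := by nlinarith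
  have hXr : (1 : ℝ) ≤ X := by exact_mod_cast hX0
  have hφ : (0 : ℝ) < Nat.totient P := by exact_mod_cast Nat.totient_pos.2 hP
  have hφt : (Nat.totient P : ℝ) ≤ Nat.totient (t * P) := by
    have h5 := Nat.totient_super_multiplicative t P
    have h6 : 1 ≤ Nat.totient t := Nat.totient_pos.2 ht
    have h7 : Nat.totient P ≤ Nat.totient (t * P) := by nlinarith
    exact_mod_cast h7
  have hNle : (N : ℝ) ≤ 2 * X / P := by
    rw [le_div_iff₀ hPr]
    have h4 : N * P ≤ 2 * X := by
      have := Nat.div_mul_le_self X P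
      rw [hN, add_mul, one_mul]
      nlinarith
    exact_mod_cast h4
  have hlogX : 0 < Real.log X := Real.log_pos (by
    have : 3 ≤ X := by nlinarith
    have : (3 : ℝ) ≤ X := by exact_mod_cast this
    linarith)
  have hlogN : Real.log X / 2 ≤ Real.log N := by
    have h5 : X ≤ N * N := by
      have h6 := Nat.lt_mul_div_succ X hP
      have h7 : P ≤ N := by
        have := (Nat.le_div_iff_mul_le hP).2 hXP
        omega
      rw [← hN] at h6
      nlinarith
    have h6 : (X : ℝ) ≤ (N : ℝ) ^ 2 := by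
      rw [sq]; exact_mod_cast h5
    have h7 := Real.log_le_log (by linarith) h6
    rw [Real.log_pow] at h7
    push_cast at h7
    linarith
  have hlogN0 : 0 < Real.log N := by linarith
  push_cast
  calc (2 + 1) * ((t : ℝ) * P / Nat.totient (t * P)) * N / Real.log N
      ≤ (2 + 1) * ((t : ℝ) * P / Nat.totient P) * (2 * X / P) / (Real.log X / 2) := by
        gcongr
    _ = 12 * t * X / Real.log X / Nat.totient P := by
        field_simp
        ring

/-- The primes of `R` which divide the integers `D` with `D t + 1` prime. -/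
theorem shifted {R : Finset ℕ} (hR : ∀ r ∈ R, r.Prime) {t : ℕ} (ht : 1 ≤ t) (hRt : ∀ r ∈ R, t < r) {c : ℝ}
    (hc : 0 ≤ c) (hc1 : c ≤ 1) : ∃ X₀ : ℕ, 3 ≤ X₀ ∧ ∀ X : ℕ, X₀ ≤ X →
      ∑ D ∈ (Icc 1 X).filter (fun D => (D * t + 1).Prime), F R c D ≤ #R + 12 * t * X / Real.log X * A R c := by
  obtain ⟨N₀, hN₀, hbt⟩ := Pool.Agent.H617R3.BT.bt2 1 one_pos
  obtain ⟨P, hPdef⟩ : ∃ P, P = ∏ r ∈ R, r := ⟨_, rfl⟩
  have hP : 0 < P := hPdef ▸ prod_pos' hR
  refine ⟨max 3 (max (N₀ * P) (P * P)), le_max_left _ _, fun X hX => ?_⟩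
  have hX3 : 3 ≤ X := (le_max_left _ _).trans hX
  have hX1 : N₀ * P ≤ X := (le_max_left _ _).trans ((le_max_right _ _).trans hX)
  have hX2 : P * P ≤ X := (le_max_right _ _).trans ((le_max_right _ _).trans hX)
  have hlogX : 0 < Real.log X := Real.log_pos (by
    have : (3 : ℝ) ≤ X := by exact_mod_cast hX3
    linarith)
  obtain ⟨G, hG⟩ : ∃ G : ℕ → ℝ, G = fun a => ∏ r ∈ R, g t c r a := ⟨_, rfl⟩
  have hG0 : ∀ a, 0 ≤ G a := fun a => by
    rw [hG]; exact prod_nonneg fun r _ => g_nonneg hc a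
  have hGper : ∀ a, G (a % P) = G a := by
    intro a
    rw [hG]
    refine prod_congr rfl fun r hr => ?_
    rw [← g_local c a, ← g_local c (a % P)]
    congr 1
    exact Nat.mod_mod_of_dvd a (hPdef ▸ dvd_prod_of_mem (fun x => x) hr)
  -- the primes which are in `R`
  have hsplit : ∀ D ∈ (Icc 1 X).filter (fun D => (D * t + 1).Prime),
      F R c D ≤ (if D * t + 1 ∈ R then 1 else 0) + G D := by
    intro D hD
    rw [mem_filter] at hD
    split_ifs with h
    · have := F_le_one (R := R) hc hc1 D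
      linarith [hG0 D]
    · rw [zero_add, hG]
      unfold F
      refine le_of_eq (prod_congr rfl fun r hr => ?_)
      have hnd : ¬ r ∣ t * D + 1 := by
        intro hd
        rw [mul_comm t D] at hd
        exact h ((Nat.prime_dvd_prime_iff_eq (hR r hr) hD.2).1 hd ▸ hr)
      unfold g
      rw [if_neg hnd]
  have h1 := sum_le_sum hsplit
  rw [sum_add_distrib] at h1
  refine h1.trans (add_le_add ?_ ?_)
  · rw [← sum_filter, sum_const, nsmul_eq_mul, mul_one]
    have : #({D ∈ (Icc 1 X).filter (fun D => (D * t + 1).Prime) | D * t + 1 ∈ R}) ≤ #R := by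
      apply card_le_card_of_injOn (fun D => D * t + 1)
      · intro D hD
        rw [mem_coe, mem_filter] at hD
        exact hD.2
      · intro D _ D' _ h
        simp only [Nat.add_right_cancel_iff] at h
        exact Nat.eq_of_mul_eq_mul_right ht h
    exact_mod_cast this
  · have hmaps : ∀ D ∈ (Icc 1 X).filter (fun D => (D * t + 1).Prime), D % P ∈ range P :=
      fun D _ => mem_range.2 (Nat.mod_lt _ hP)
    rw [← sum_fiberwise_of_maps_to hmaps]
    have h2 : ∀ a ∈ range P, ∑ D ∈ ((Icc 1 X).filter (fun D => (D * t + 1).Prime)).filter (fun D => D % P = a), G D ≤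
        G a * (12 * t * X / Real.log X / Nat.totient P) := by
      intro a _
      have h3 : ∀ D ∈ ((Icc 1 X).filter (fun D => (D * t + 1).Prime)).filter (fun D => D % P = a), G D = G a := by
        intro D hD
        rw [mem_filter] at hD
        rw [← hGper D, hD.2]
      rw [sum_congr rfl h3, sum_const, nsmul_eq_mul, mul_comm, filter_filter]
      exact mul_le_mul_of_nonneg_left (class_le hP ht hbt hN₀ hX1 hX2 a) (hG0 a)
    refine (sum_le_sum h2).trans ?_
    rw [← sum_mul]
    have h4 : ∑ a ∈ range P, G a ≤ ∏ r ∈ R, ((r : ℝ) - 2 + c) := by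
      rw [hG, hPdef, crt_prod R hR (g t c) (fun r _ x => g_local c x)]
      exact prod_le_prod (fun r _ => sum_nonneg fun x _ => g_nonneg hc x) fun r hr => sum_g (hR r hr) ht (hRt r hr) hc hc1
    have h5 : (∏ r ∈ R, ((r : ℝ) - 2 + c)) ≤ A R c * Nat.totient P := by
      rw [hPdef, totient_prod hR]
      unfold A
      push_cast
      rw [← prod_mul_distrib]
      refine prod_le_prod (fun r hr => ?_) fun r hr => ?_
      · have := (hR r hr).two_le
        have : (2 : ℝ) ≤ r := by exact_mod_cast this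
        linarith
      · have h6 := (hR r hr).two_le
        have h7 : (2 : ℝ) ≤ r := by exact_mod_cast h6
        have h8 : (0 : ℝ) < r := by linarith
        rw [Nat.cast_sub (by omega)]
        push_cast
        rw [one_sub_mul, div_mul_eq_mul_div]
        have h9 : (1 - c) * ((r : ℝ) - 1) / r ≤ 1 - c := by
          rw [div_le_iff₀ h8]
          nlinarith
        linarith
    have hφ : (0 : ℝ) < Nat.totient P := by exact_mod_cast Nat.totient_pos.2 hP
    calc (∑ a ∈ range P, G a) * (12 * t * X / Real.log X / Nat.totient P)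
        ≤ (A R c * Nat.totient P) * (12 * t * X / Real.log X / Nat.totient P) :=
          mul_le_mul_of_nonneg_right (h4.trans h5) (by positivity)
      _ = 12 * t * X / Real.log X * A R c := by
          field_simp

end Pool.Agent.U416.GE.Wag
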