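import Pool.Agent.U416.GE.Wag2

/-! Almost all integers have no large divisor `D` with `D t + 1` prime: the first moment over typical integers. -/

set_option autoImplicit false

namespace Pool.Agent.U416.GE.Wag

open Finset Filter Topology

theorem F_eq_pow (R : Finset ℕ) (c : ℝ) (n : ℕ) : F R c n = c ^ #{r ∈ R | r ∣ n} := by
  unfold F
  rw [prod_ite, prod_const, prod_const_one, mul_one]

theorem A_nonneg {R : Finset ℕ} (hR : ∀ r ∈ R, r.Prime) {c : ℝ} (hc : 0 ≤ c) : 0 ≤ A R c := by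
  rw [← sum_F hR]
  exact div_nonneg (sum_nonneg fun _ _ => F_nonneg hc _) (Nat.cast_nonneg _)

theorem A_pos {R : Finset ℕ} (hR : ∀ r ∈ R, r.Prime) {c : ℝ} (hc : 0 < c) : 0 < A R c := by
  unfold A
  refine prod_pos fun r hr => ?_
  have h2 : (2 : ℝ) ≤ r := by exact_mod_cast (hR r hr).two_le
  have h3 : (1 - c) / (r : ℝ) < 1 := by
    rw [div_lt_one (by linarith)]
    linarith
  linarith

theorem A_le_exp {R : Finset ℕ} (hR : ∀ r ∈ R, r.Prime) {c : ℝ} (hc : 0 ≤ c) :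
    A R c ≤ Real.exp ((c - 1) * ∑ r ∈ R, 1 / (r : ℝ)) := by
  unfold A
  rw [mul_sum, Real.exp_sum]
  refine prod_le_prod (fun r hr => ?_) fun r hr => ?_
  · have h2 : (2 : ℝ) ≤ r := by exact_mod_cast (hR r hr).two_le
    have h3 : (1 - c) / (r : ℝ) ≤ 1 := by
      rw [div_le_one (by linarith)]
      linarith
    linarith
  · have h := Real.add_one_le_exp ((c - 1) * (1 / (r : ℝ)))
    have e : 1 - (1 - c) / (r : ℝ) = (c - 1) * (1 / (r : ℝ)) + 1 := by ring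
    rw [e]
    exact h

/-- the weighted number of pairs -/
theorem pairs {R : Finset ℕ} (hR : ∀ r ∈ R, r.Prime) {t : ℕ} (ht : 1 ≤ t) (hRt : ∀ r ∈ R, t < r) {c : ℝ}
    (hc : 0 < c) (hc1 : c ≤ 1) {ε : ℝ} (hε : 0 < ε) (hε1 : ε ≤ 1) : ∀ᶠ K : ℕ in atTop,
      ∑ m ∈ Icc 1 ⌊(K : ℝ) ^ (1 - ε)⌋₊, ∑ D ∈ (Icc 1 (K / m)).filter (fun D => (D * t + 1).Prime), F R c m * F R c D ≤
        50 * t / ε * A R c ^ 2 * K := by
  obtain ⟨X₀, hX₀, hsh⟩ := shifted hR ht hRt hc.le hc1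
  have hA := A_pos hR hc
  have htr : (0 : ℝ) < t := by exact_mod_cast ht
  have hP := prod_pos' hR
  obtain ⟨P, hPdef⟩ : ∃ P, P = ∏ r ∈ R, r := ⟨_, rfl⟩
  rw [← hPdef] at hP
  have hlogP : 0 ≤ Real.log P := Real.log_nonneg (by exact_mod_cast hP)
  have hnat := tendsto_natCast_atTop_atTop (R := ℝ)
  -- large K
  have e1 : ∀ᶠ x : ℝ in atTop, (X₀ : ℝ) + 2 ≤ x ^ (ε / 2) := (tendsto_rpow_atTop (by linarith)).eventually_ge_atTop _
  have e2 : ∀ᶠ x : ℝ in atTop, (#R : ℝ) * ε / (t * A R c ^ 2) ≤ x ^ ε := (tendsto_rpow_atTop hε).eventually_ge_atTop _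
  have e3 : ∀ᶠ x : ℝ in atTop, 24 * (1 + Real.log P + A R c) / A R c ≤ Real.log x := Real.tendsto_log_atTop.eventually_ge_atTop _
  filter_upwards [hnat.eventually e1, hnat.eventually e2, hnat.eventually e3, eventually_ge_atTop 3] with K h1 h2 h3 hK3
  have hKr : (3 : ℝ) ≤ K := by exact_mod_cast hK3
  have hK0 : (0 : ℝ) < K := by linarith
  have hlogK : 0 < Real.log K := Real.log_pos (by linarith)
  obtain ⟨M, hM⟩ : ∃ M, M = ⌊(K : ℝ) ^ (1 - ε)⌋₊ := ⟨_, rfl⟩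
  rw [← hM]
  have hMle : (M : ℝ) ≤ (K : ℝ) ^ (1 - ε) := hM ▸ Nat.floor_le (by positivity)
  have hKe : (K : ℝ) ^ (1 - ε) * (K : ℝ) ^ ε = K := by
    rw [← Real.rpow_add hK0, sub_add_cancel, Real.rpow_one]
  have hKe2 : (K : ℝ) ^ (ε / 2) * (K : ℝ) ^ (ε / 2) = (K : ℝ) ^ ε := by
    rw [← Real.rpow_add hK0]
    congr 1
    ring
  have hKε1 : (K : ℝ) ^ (1 - ε) ≤ K := by
    calc (K : ℝ) ^ (1 - ε) ≤ (K : ℝ) ^ (1 : ℝ) := Real.rpow_le_rpow_of_exponent_le (by linarith) (by linarith)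
      _ = K := Real.rpow_one _
  -- the inner sum
  have hin : ∀ m ∈ Icc 1 M, ∑ D ∈ (Icc 1 (K / m)).filter (fun D => (D * t + 1).Prime), F R c m * F R c D ≤
      #R + 24 * t / ε * (K / Real.log K) * A R c * (F R c m / m) := by
    intro m hm
    rw [mem_Icc] at hm
    have hm1 : (1 : ℝ) ≤ m := by exact_mod_cast hm.1
    have hm0 : (0 : ℝ) < m := by linarith
    have hmle : (m : ℝ) ≤ (K : ℝ) ^ (1 - ε) := le_trans (by exact_mod_cast hm.2) hMle
    have hKm : (K : ℝ) ^ ε ≤ K / m := by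
      rw [le_div_iff₀ hm0]
      calc (K : ℝ) ^ ε * m ≤ (K : ℝ) ^ ε * (K : ℝ) ^ (1 - ε) := mul_le_mul_of_nonneg_left hmle (by positivity)
        _ = K := by rw [mul_comm, hKe]
    have hXle : ((K / m : ℕ) : ℝ) ≤ K / m := Nat.cast_div_le
    have hXge : (K : ℝ) ^ (ε / 2) ≤ ((K / m : ℕ) : ℝ) := by
      have h5 : (K : ℝ) / m < ((K / m : ℕ) : ℝ) + 1 := by
        rw [div_lt_iff₀ hm0]
        have h6 := Nat.lt_mul_div_succ K (show 0 < m by omega)
        have h7 : (K : ℝ) < ((m * (K / m + 1) : ℕ) : ℝ) := by exact_mod_cast h6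
        push_cast at h7
        linarith
      have h6 : (2 : ℝ) ≤ (K : ℝ) ^ (ε / 2) := by
        have : (0 : ℝ) ≤ X₀ := Nat.cast_nonneg _
        linarith
      nlinarith
    have hXX : X₀ ≤ K / m := by
      have : (X₀ : ℝ) ≤ ((K / m : ℕ) : ℝ) := by linarith
      exact_mod_cast this
    have h4 := hsh (K / m) hXX
    have hX1 : (1 : ℝ) < ((K / m : ℕ) : ℝ) := by
      have : 3 ≤ K / m := hX₀.trans hXX
      have : (3 : ℝ) ≤ ((K / m : ℕ) : ℝ) := by exact_mod_cast this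
      linarith
    have hlogX : ε / 2 * Real.log K ≤ Real.log ((K / m : ℕ) : ℝ) := by
      rw [← Real.log_rpow hK0]
      exact Real.log_le_log (by positivity) hXge
    have h5 : 12 * (t : ℝ) * ((K / m : ℕ) : ℝ) / Real.log ((K / m : ℕ) : ℝ) * A R c ≤
        24 * t / ε * (K / Real.log K) * A R c * (1 / m) := by
      calc 12 * (t : ℝ) * ((K / m : ℕ) : ℝ) / Real.log ((K / m : ℕ) : ℝ) * A R c
          ≤ 12 * (t : ℝ) * (K / m) / (ε / 2 * Real.log K) * A R c := by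
            gcongr
        _ = 24 * t / ε * (K / Real.log K) * A R c * (1 / m) := by
            field_simp
            ring
    rw [← mul_sum]
    have hF0 := F_nonneg (R := R) hc.le m
    have hF1 := F_le_one (R := R) hc.le hc1 m
    calc F R c m * ∑ D ∈ (Icc 1 (K / m)).filter (fun D => (D * t + 1).Prime), F R c D
        ≤ F R c m * (#R + 24 * t / ε * (K / Real.log K) * A R c * (1 / m)) :=
          mul_le_mul_of_nonneg_left (h4.trans (by linarith)) hF0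
      _ = F R c m * #R + 24 * t / ε * (K / Real.log K) * A R c * (F R c m / m) := by ring
      _ ≤ _ := by
          have : F R c m * #R ≤ 1 * #R := mul_le_mul_of_nonneg_right hF1 (Nat.cast_nonneg _)
          linarith
  refine (sum_le_sum hin).trans ?_
  rw [sum_add_distrib, sum_const, nsmul_eq_mul, Nat.card_Icc, Nat.add_sub_cancel, ← mul_sum]
  have hls := log_sum hP (F R c) (fun x => by rw [hPdef]; exact F_per c x) (fun x => F_nonneg hc.le x)
    (fun x => F_le_one hc.le hc1 x) (show 1 ≤ K by omega)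
  have hAA : (∑ a ∈ range P, F R c a) / (P : ℝ) = A R c := by rw [hPdef]; exact sum_F hR c
  rw [hAA] at hls
  have hsub : ∑ m ∈ Icc 1 M, F R c m / m ≤ ∑ m ∈ Icc 1 K, F R c m / m := by
    apply sum_le_sum_of_subset_of_nonneg
    · intro m hm
      rw [mem_Icc] at hm ⊢
      have : (M : ℝ) ≤ K := hMle.trans hKε1
      have : M ≤ K := by exact_mod_cast this
      omega
    · intro m _ _
      exact div_nonneg (F_nonneg hc.le m) (Nat.cast_nonneg m)
  have hsum := hsub.trans hls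
  have t1 : (M : ℝ) * #R ≤ t / ε * A R c ^ 2 * K := by
    rw [div_le_iff₀ (by positivity)] at h2
    calc (M : ℝ) * #R ≤ (K : ℝ) ^ (1 - ε) * #R := mul_le_mul_of_nonneg_right hMle (Nat.cast_nonneg _)
      _ = (K : ℝ) ^ (1 - ε) * (#R * ε) / ε := by field_simp
      _ ≤ (K : ℝ) ^ (1 - ε) * ((K : ℝ) ^ ε * (t * A R c ^ 2)) / ε := by gcongr
      _ = t / ε * A R c ^ 2 * ((K : ℝ) ^ (1 - ε) * (K : ℝ) ^ ε) := by ring
      _ = _ := by rw [hKe]
  have t2 : 24 * t / ε * (K / Real.log K) * A R c * ((1 + Real.log P) + A R c * (1 + Real.log K)) ≤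
      25 * t / ε * A R c ^ 2 * K := by
    rw [div_le_iff₀ hA] at h3
    have h5 : 24 * (1 + Real.log P + A R c * (1 + Real.log K)) ≤ 25 * A R c * Real.log K := by nlinarith
    calc 24 * t / ε * (K / Real.log K) * A R c * ((1 + Real.log P) + A R c * (1 + Real.log K))
        = t / ε * (K / Real.log K) * A R c * (24 * (1 + Real.log P + A R c * (1 + Real.log K))) := by ring
      _ ≤ t / ε * (K / Real.log K) * A R c * (25 * A R c * Real.log K) := by gcongr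
      _ = 25 * t / ε * A R c ^ 2 * K := by
          field_simp
  have t3 : 24 * t / ε * (K / Real.log K) * A R c * ∑ m ∈ Icc 1 M, F R c m / m ≤
      24 * t / ε * (K / Real.log K) * A R c * ((1 + Real.log P) + A R c * (1 + Real.log K)) :=
    mul_le_mul_of_nonneg_left hsum (by positivity)
  have t4 : (0 : ℝ) ≤ t / ε * A R c ^ 2 * K := by positivity
  have t5 : 50 * (t : ℝ) / ε * A R c ^ 2 * K = 50 * (t / ε * A R c ^ 2 * K) := by ring
  have t6 : 25 * (t : ℝ) / ε * A R c ^ 2 * K = 25 * (t / ε * A R c ^ 2 * K) := by ring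
  rw [t5]
  rw [t6] at t2
  linarith

open Classical in
/-- typical integers with a large divisor `D`, `D t + 1` prime -/
theorem typical {R : Finset ℕ} (hR : ∀ r ∈ R, r.Prime) {t : ℕ} (ht : 1 ≤ t) (hRt : ∀ r ∈ R, t < r)
    {ε : ℝ} (hε : 0 < ε) (hε1 : ε ≤ 1) (L : ℕ) : ∀ᶠ K : ℕ in atTop,
      (({k ∈ Icc 1 K | (∀ r ∈ R, ¬ r ^ 2 ∣ k) ∧ #{r ∈ R | r ∣ k} ≤ L ∧
        ∃ D, D ∣ k ∧ (D * t + 1).Prime ∧ (K : ℝ) ^ ε ≤ D}.card : ℕ) : ℝ) ≤
        2 ^ L * (50 * t / ε * A R (1 / 2) ^ 2) * K := by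
  classical
  filter_upwards [pairs hR ht hRt (c := 1 / 2) (by norm_num) (by norm_num) hε hε1, eventually_ge_atTop 1] with K h hK1
  have hK0 : (0 : ℝ) < K := by exact_mod_cast hK1
  obtain ⟨B, hB⟩ : ∃ B : Finset ℕ, B = {k ∈ Icc 1 K | (∀ r ∈ R, ¬ r ^ 2 ∣ k) ∧ #{r ∈ R | r ∣ k} ≤ L ∧
        ∃ D, D ∣ k ∧ (D * t + 1).Prime ∧ (K : ℝ) ^ ε ≤ D} := ⟨_, rfl⟩
  have hex : ∀ k : ℕ, ∃ D : ℕ, k ∈ B → D ∣ k ∧ (D * t + 1).Prime ∧ (K : ℝ) ^ ε ≤ D := by
    intro k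
    by_cases hk : k ∈ B
    · have := hk
      rw [hB, mem_filter] at this
      obtain ⟨D, hD⟩ := this.2.2.2
      exact ⟨D, fun _ => hD⟩
    · exact ⟨0, fun h => absurd h hk⟩
  choose D hD using hex
  have hkey : ∀ k ∈ B, 1 ≤ k ∧ k ≤ K ∧ 0 < D k ∧ k / D k * D k = k ∧ 0 < k / D k := by
    intro k hk
    have h1 := hk
    rw [hB, mem_filter, mem_Icc] at h1
    have h2 := (hD k hk).1
    have h3 : 0 < D k := Nat.pos_of_dvd_of_pos h2 (by omega)
    refine ⟨h1.1.1, h1.1.2, h3, Nat.div_mul_cancel h2, Nat.div_pos (Nat.le_of_dvd (by omega) h2) h3⟩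
  -- the weight
  have hw : ∀ k ∈ B, (1 : ℝ) ≤ 2 ^ L * (F R (1 / 2) (k / D k) * F R (1 / 2) (D k)) := by
    intro k hk
    have h1 := hk
    rw [hB, mem_filter] at h1
    obtain ⟨-, hsq, hL, -⟩ := h1
    obtain ⟨hk1, -, hD0, hmul, hm0⟩ := hkey k hk
    have hcard : #{r ∈ R | r ∣ k / D k} + #{r ∈ R | r ∣ D k} ≤ #{r ∈ R | r ∣ k} := by
      rw [← card_union_of_disjoint]
      · apply card_le_card
        intro r hr
        rw [mem_union, mem_filter, mem_filter] at hr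
        rw [mem_filter]
        rcases hr with hr | hr
        · exact ⟨hr.1, hmul ▸ hr.2.mul_right _⟩
        · exact ⟨hr.1, hmul ▸ hr.2.mul_left _⟩
      · rw [disjoint_left]
        intro r hr hr'
        rw [mem_filter] at hr hr'
        apply hsq r hr.1
        rw [sq, ← hmul]
        exact mul_dvd_mul hr.2 hr'.2
    rw [F_eq_pow, F_eq_pow, ← pow_add]
    calc (1 : ℝ) = 2 ^ L * (1 / 2) ^ L := by rw [← mul_pow]; norm_num
      _ ≤ 2 ^ L * (1 / 2) ^ (#{r ∈ R | r ∣ k / D k} + #{r ∈ R | r ∣ D k}) := by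
          apply mul_le_mul_of_nonneg_left _ (by positivity)
          exact pow_le_pow_of_le_one (by norm_num) (by norm_num) (hcard.trans hL)
  have h1 : ((B.card : ℕ) : ℝ) ≤ 2 ^ L * ∑ k ∈ B, F R (1 / 2) (k / D k) * F R (1 / 2) (D k) := by
    rw [mul_sum]
    calc ((B.card : ℕ) : ℝ) = ∑ k ∈ B, (1 : ℝ) := by rw [sum_const, nsmul_eq_mul, mul_one]
      _ ≤ _ := sum_le_sum hw
  have hinj : Set.InjOn (fun k => (⟨k / D k, D k⟩ : Σ _ : ℕ, ℕ)) (B : Set ℕ) := by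
    intro k hk k' hk' h
    rw [mem_coe] at hk hk'
    simp only [Sigma.mk.injEq, heq_eq_eq] at h
    rw [← (hkey k hk).2.2.2.1, ← (hkey k' hk').2.2.2.1, h.1, h.2]
  have h2 : ∑ k ∈ B, F R (1 / 2) (k / D k) * F R (1 / 2) (D k) ≤
      ∑ m ∈ Icc 1 ⌊(K : ℝ) ^ (1 - ε)⌋₊, ∑ D ∈ (Icc 1 (K / m)).filter (fun D => (D * t + 1).Prime),
        F R (1 / 2) m * F R (1 / 2) D := by
    rw [sum_sigma' (Icc 1 ⌊(K : ℝ) ^ (1 - ε)⌋₊) (fun m => (Icc 1 (K / m)).filter (fun D => (D * t + 1).Prime))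
      (fun m D => F R (1 / 2) m * F R (1 / 2) D)]
    rw [← sum_image (f := fun z : Σ _ : ℕ, ℕ => F R (1 / 2) z.1 * F R (1 / 2) z.2) hinj]
    apply sum_le_sum_of_subset_of_nonneg
    · intro z hz
      rw [mem_image] at hz
      obtain ⟨k, hk, rfl⟩ := hz
      obtain ⟨hk1, hkK, hD0, hmul, hm0⟩ := hkey k hk
      obtain ⟨-, hp, hge⟩ := hD k hk
      rw [mem_sigma, mem_Icc, mem_filter, mem_Icc]
      refine ⟨⟨hm0, ?_⟩, ⟨hD0, ?_⟩, hp⟩
      · apply Nat.le_floor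
        have h3 : ((k / D k : ℕ) : ℝ) * D k ≤ K := by
          have : k / D k * D k ≤ K := by omega
          exact_mod_cast this
        have h4 : (0 : ℝ) < (K : ℝ) ^ ε := by positivity
        have h5 : (K : ℝ) ^ (1 - ε) * (K : ℝ) ^ ε = K := by
          rw [← Real.rpow_add hK0, sub_add_cancel, Real.rpow_one]
        by_contra hcon
        rw [not_le] at hcon
        have h6 : (K : ℝ) ^ (1 - ε) * (K : ℝ) ^ ε < ((k / D k : ℕ) : ℝ) * (K : ℝ) ^ ε :=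
          mul_lt_mul_of_pos_right hcon h4
        have h7 : ((k / D k : ℕ) : ℝ) * (K : ℝ) ^ ε ≤ ((k / D k : ℕ) : ℝ) * D k :=
          mul_le_mul_of_nonneg_left hge (Nat.cast_nonneg _)
        linarith
      · show D k ≤ K / (k / D k)
        rw [Nat.le_div_iff_mul_le hm0, mul_comm]
        omega
    · intro z _ _
      exact mul_nonneg (F_nonneg (by norm_num) _) (F_nonneg (by norm_num) _)
  rw [← hB]
  calc ((B.card : ℕ) : ℝ) ≤ 2 ^ L * ∑ k ∈ B, F R (1 / 2) (k / D k) * F R (1 / 2) (D k) := h1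
    _ ≤ 2 ^ L * (50 * t / ε * A R (1 / 2) ^ 2 * K) := by
        apply mul_le_mul_of_nonneg_left (h2.trans h) (by positivity)
    _ = _ := by ring

/-- integers with many prime factors in `R` -/
theorem atypical {R : Finset ℕ} (hR : ∀ r ∈ R, r.Prime) {β : ℝ} (hβ : 1 < β) (L : ℕ) {K : ℕ}
    (hK : ∏ r ∈ R, r ≤ K) :
    (({k ∈ Icc 1 K | L < #{r ∈ R | r ∣ k}}.card : ℕ) : ℝ) * β ^ (L + 1) ≤ 2 * A R β * K := by
  have h := periodic_sum (prod_pos' hR) (F R β) (fun x => F_per β x) (fun x => F_nonneg (by linarith) x) hK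
  rw [sum_F hR] at h
  have h1 : (({k ∈ Icc 1 K | L < #{r ∈ R | r ∣ k}}.card : ℕ) : ℝ) * β ^ (L + 1) ≤
      ∑ k ∈ Icc 1 K, F R β k := by
    calc (({k ∈ Icc 1 K | L < #{r ∈ R | r ∣ k}}.card : ℕ) : ℝ) * β ^ (L + 1)
        = ∑ k ∈ {k ∈ Icc 1 K | L < #{r ∈ R | r ∣ k}}, β ^ (L + 1) := by rw [sum_const, nsmul_eq_mul]
      _ ≤ ∑ k ∈ {k ∈ Icc 1 K | L < #{r ∈ R | r ∣ k}}, F R β k := by
          refine sum_le_sum fun k hk => ?_
          rw [mem_filter] at hk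
          rw [F_eq_pow]
          exact pow_le_pow_right₀ hβ.le hk.2
      _ ≤ _ := by
          apply sum_le_sum_of_subset_of_nonneg (filter_subset _ _)
          intro k _ _
          exact F_nonneg (by linarith) k
  refine h1.trans (h.trans (le_of_eq ?_))
  ring

/-- integers divisible by a square -/
theorem square {R : Finset ℕ} {T : ℕ} (hT : 2 ≤ T) (hR : ∀ r ∈ R, T ≤ r) (K : ℕ) :
    (({k ∈ Icc 1 K | ∃ r ∈ R, r ^ 2 ∣ k}.card : ℕ) : ℝ) ≤ 1 / ((T : ℝ) - 1) * K := by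
  classical
  have h1 : {k ∈ Icc 1 K | ∃ r ∈ R, r ^ 2 ∣ k} ⊆ R.biUnion fun r => {k ∈ Icc 1 K | r ^ 2 ∣ k} := by
    intro k hk
    rw [mem_filter] at hk
    obtain ⟨hk, r, hr, hd⟩ := hk
    rw [mem_biUnion]
    exact ⟨r, hr, mem_filter.2 ⟨hk, hd⟩⟩
  have h2 : ∀ r ∈ R, ((#{k ∈ Icc 1 K | r ^ 2 ∣ k} : ℕ) : ℝ) ≤ K * (1 / ((r : ℝ) - 1) - 1 / r) := by
    intro r hr
    have h3 : 2 ≤ r := hT.trans (hR r hr)
    have h4 : (2 : ℝ) ≤ r := by exact_mod_cast h3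
    have h5 : #{k ∈ Icc 1 K | r ^ 2 ∣ k} ≤ K / r ^ 2 := by
      have := Nat.card_multiples K (r ^ 2)
      rw [← this]
      apply card_le_card_of_injOn (fun k => k - 1)
      · intro k hk
        rw [mem_coe, mem_filter, mem_Icc] at hk
        rw [mem_coe, mem_filter, mem_range]
        refine ⟨(by omega : k - 1 < K), ?_⟩
        show r ^ 2 ∣ k - 1 + 1
        rw [Nat.sub_add_cancel hk.1.1]
        exact hk.2
      · intro k hk k' hk' h
        rw [mem_coe, mem_filter, mem_Icc] at hk hk'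
        simp only at h
        omega
    have h6 : ((K / r ^ 2 : ℕ) : ℝ) ≤ K / (r : ℝ) ^ 2 := by
      have := @Nat.cast_div_le ℝ _ _ _ K (r ^ 2)
      push_cast at this
      exact this
    have h7 : 1 / (r : ℝ) ^ 2 ≤ 1 / ((r : ℝ) - 1) - 1 / r := by
      rw [div_sub_div _ _ (by linarith) (by linarith), div_le_div_iff₀ (by positivity) (by nlinarith)]
      nlinarith
    calc ((#{k ∈ Icc 1 K | r ^ 2 ∣ k} : ℕ) : ℝ) ≤ ((K / r ^ 2 : ℕ) : ℝ) := by exact_mod_cast h5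
      _ ≤ K / (r : ℝ) ^ 2 := h6
      _ = K * (1 / (r : ℝ) ^ 2) := by ring
      _ ≤ _ := mul_le_mul_of_nonneg_left h7 (Nat.cast_nonneg _)
  have h3 : ∀ w : ℕ, T ≤ w → ∑ r ∈ Ico T w, (1 / ((r : ℝ) - 1) - 1 / r) = 1 / ((T : ℝ) - 1) - 1 / ((w : ℝ) - 1) := by
    intro w hw
    induction w, hw using Nat.le_induction with
    | base => simp
    | succ w hw ih =>
      rw [sum_Ico_succ_top hw, ih]
      push_cast
      have e : (w : ℝ) + 1 - 1 = w := by ring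
      rw [e]
      ring
  obtain ⟨w, hw⟩ : ∃ w, w = max T (R.sup id + 1) := ⟨_, rfl⟩
  have hwT : T ≤ w := hw ▸ le_max_left _ _
  have hsub : R ⊆ Ico T w := by
    intro r hr
    rw [mem_Ico]
    refine ⟨hR r hr, ?_⟩
    have : r ≤ R.sup id := le_sup (f := id) hr
    have : R.sup id + 1 ≤ w := hw ▸ le_max_right _ _
    omega
  have hT' : (2 : ℝ) ≤ T := by exact_mod_cast hT
  have hw' : (2 : ℝ) ≤ w := by exact_mod_cast hT.trans hwT
  calc (({k ∈ Icc 1 K | ∃ r ∈ R, r ^ 2 ∣ k}.card : ℕ) : ℝ)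
      ≤ ((#(R.biUnion fun r => {k ∈ Icc 1 K | r ^ 2 ∣ k}) : ℕ) : ℝ) := by exact_mod_cast card_le_card h1
    _ ≤ ((∑ r ∈ R, #{k ∈ Icc 1 K | r ^ 2 ∣ k} : ℕ) : ℝ) := by exact_mod_cast card_biUnion_le
    _ = ∑ r ∈ R, ((#{k ∈ Icc 1 K | r ^ 2 ∣ k} : ℕ) : ℝ) := by push_cast; rfl
    _ ≤ ∑ r ∈ R, K * (1 / ((r : ℝ) - 1) - 1 / r) := sum_le_sum h2
    _ ≤ ∑ r ∈ Ico T w, K * (1 / ((r : ℝ) - 1) - 1 / r) := by
        apply sum_le_sum_of_subset_of_nonneg hsub
        intro r hr _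
        rw [mem_Ico] at hr
        have h4 : (2 : ℝ) ≤ r := by exact_mod_cast hT.trans hr.1
        have : 1 / (r : ℝ) ≤ 1 / ((r : ℝ) - 1) := one_div_le_one_div_of_le (by linarith) (by linarith)
        exact mul_nonneg (Nat.cast_nonneg _) (by linarith)
    _ = K * (1 / ((T : ℝ) - 1) - 1 / ((w : ℝ) - 1)) := by rw [← mul_sum, h3 w hwT]
    _ ≤ 1 / ((T : ℝ) - 1) * K := by
        have h5 : 0 ≤ 1 / ((w : ℝ) - 1) := by
          apply div_nonneg (by norm_num)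
          linarith
        have h6 : (0 : ℝ) ≤ K := Nat.cast_nonneg _
        nlinarith

end Pool.Agent.U416.GE.Wag
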