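import Pool.Agent.U416.GE.Wag3

/-! Almost all integers `k` have no divisor `D ≥ k ^ ε` of the form `φ (q) / t`, `t < T`, `q` a prime power. -/

set_option autoImplicit false

namespace Pool.Agent.U416.GE.Wag

open Finset Filter Topology

theorem primes_sum (T : ℕ) (S : ℝ) : ∃ R : Finset ℕ, (∀ r ∈ R, r.Prime ∧ T ≤ r) ∧ S ≤ ∑ r ∈ R, 1 / (r : ℝ) := by
  classical
  have h := not_summable_one_div_on_primes
  have h0 : ∀ n : ℕ, 0 ≤ Set.indicator {p : ℕ | p.Prime} (fun n : ℕ => (1 : ℝ) / n) n := by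
    intro n
    apply Set.indicator_nonneg
    intro x _
    positivity
  rw [not_summable_iff_tendsto_nat_atTop_of_nonneg h0] at h
  obtain ⟨w, hw⟩ := (h.eventually_ge_atTop (S + ∑ i ∈ range T, Set.indicator {p : ℕ | p.Prime} (fun n : ℕ => (1 : ℝ) / n) i)).exists
  refine ⟨(range w).filter (fun r => r.Prime ∧ T ≤ r), fun r hr => (mem_filter.1 hr).2, ?_⟩
  have h1 : ∑ i ∈ range w, Set.indicator {p : ℕ | p.Prime} (fun n : ℕ => (1 : ℝ) / n) i ≤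
      ∑ i ∈ range T, Set.indicator {p : ℕ | p.Prime} (fun n : ℕ => (1 : ℝ) / n) i +
        ∑ r ∈ (range w).filter (fun r => r.Prime ∧ T ≤ r), 1 / (r : ℝ) := by
    have h2 : ∑ r ∈ (range w).filter (fun r => r.Prime ∧ T ≤ r), 1 / (r : ℝ) =
        ∑ i ∈ (range w).filter (fun r => T ≤ r), Set.indicator {p : ℕ | p.Prime} (fun n : ℕ => (1 : ℝ) / n) i := by
      rw [sum_filter, sum_filter]
      refine sum_congr rfl fun i _ => ?_
      by_cases h3 : i.Prime <;> by_cases h4 : T ≤ i <;> simp [h3, h4]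
    rw [h2, ← sum_filter_add_sum_filter_not (range w) (fun r => T ≤ r)]
    rw [add_comm]
    apply add_le_add_left
    apply sum_le_sum_of_subset_of_nonneg
    · intro i hi
      rw [mem_filter] at hi
      rw [mem_range]
      omega
    · intro i _ _
      exact h0 i
  linarith

theorem wag_prime {t : ℕ} (ht : 1 ≤ t) {ε η : ℝ} (hε : 0 < ε) (hε1 : ε ≤ 1) (hη : 0 < η) : ∀ᶠ K : ℕ in atTop,
    (({k : ℕ | k ∈ (Icc 1 K : Finset ℕ) ∧ ∃ D, D ∣ k ∧ (D * t + 1).Prime ∧ (K : ℝ) ^ ε ≤ D} : Set ℕ).ncard : ℝ) ≤ η * K := by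
  classical
  have htr : (0 : ℝ) < t := by exact_mod_cast ht
  -- the lower end of the set of primes
  obtain ⟨T, hT⟩ := exists_nat_gt (3 / η + 2 + t)
  have h3η : 0 < 3 / η := by positivity
  have hT2 : 2 ≤ T := by
    have : (2 : ℝ) < T := by linarith
    have : (2 : ℕ) < T := by exact_mod_cast this
    omega
  have hTt : t < T := by
    have : (t : ℝ) < T := by linarith
    exact_mod_cast this
  have hTη : 1 / ((T : ℝ) - 1) ≤ η / 3 := by
    rw [div_le_div_iff₀ (by linarith) (by norm_num)]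
    have : 3 / η < (T : ℝ) - 1 := by linarith
    rw [div_lt_iff₀ hη] at this
    linarith
  -- the size of the sum of the reciprocals
  obtain ⟨κ, hκ⟩ : ∃ κ : ℝ, κ = 5 / 4 * Real.log (5 / 4) - 1 / 4 := ⟨_, rfl⟩
  have hκ0 : 0 < κ := by
    have h1 := Real.add_one_lt_exp (show (-(1 / 5 : ℝ)) ≠ 0 by norm_num)
    have h2 : Real.log (4 / 5) < -(1 / 5) := by
      rw [Real.log_lt_iff_lt_exp (by norm_num)]
      linarith
    have h3 : Real.log (5 / 4) = -Real.log (4 / 5) := by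
      rw [← Real.log_inv]; norm_num
    rw [hκ, h3]
    linarith
  have hlim1 : Tendsto (fun S : ℝ => 50 * t / ε * Real.exp (-(S / 10))) atTop (𝓝 0) := by
    have : Tendsto (fun S : ℝ => Real.exp (-(S / 10))) atTop (𝓝 0) :=
      Real.tendsto_exp_neg_atTop_nhds_zero.comp (tendsto_id.atTop_div_const (by norm_num))
    simpa using this.const_mul (50 * t / ε)
  have hlim2 : Tendsto (fun S : ℝ => 2 * Real.exp (-(κ * S))) atTop (𝓝 0) := by
    have : Tendsto (fun S : ℝ => Real.exp (-(κ * S))) atTop (𝓝 0) :=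
      Real.tendsto_exp_neg_atTop_nhds_zero.comp (tendsto_id.const_mul_atTop hκ0)
    simpa using this.const_mul 2
  obtain ⟨S₀, hS₀⟩ := eventually_atTop.1 (((hlim1.eventually_le_const (show (0 : ℝ) < η / 3 by positivity)).and
    (hlim2.eventually_le_const (show (0 : ℝ) < η / 3 by positivity))).and (eventually_ge_atTop 0))
  obtain ⟨R, hR, hRS⟩ := primes_sum T S₀
  obtain ⟨S, hS⟩ : ∃ S : ℝ, S = ∑ r ∈ R, 1 / (r : ℝ) := ⟨_, rfl⟩
  rw [← hS] at hRS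
  obtain ⟨⟨hb1, hb2⟩, hS0⟩ := hS₀ S hRS
  have hRp : ∀ r ∈ R, r.Prime := fun r hr => (hR r hr).1
  have hRT : ∀ r ∈ R, T ≤ r := fun r hr => (hR r hr).2
  have hRt : ∀ r ∈ R, t < r := fun r hr => lt_of_lt_of_le hTt (hRT r hr)
  obtain ⟨L, hL⟩ : ∃ L, L = ⌊5 / 4 * S⌋₊ := ⟨_, rfl⟩
  have hLle : (L : ℝ) ≤ 5 / 4 * S := hL ▸ Nat.floor_le (by positivity)
  have hLlt : 5 / 4 * S < (L : ℝ) + 1 := hL ▸ Nat.lt_floor_add_one _
  have hlog2 : Real.log 2 < 0.6931471808 := Real.log_two_lt_d9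
  have hlog20 : 0 < Real.log 2 := Real.log_pos (by norm_num)
  have hA1 := A_le_exp hRp (c := 1 / 2) (by norm_num)
  have hA2 := A_le_exp hRp (c := 5 / 4) (by norm_num)
  rw [← hS] at hA1 hA2
  have hA10 := A_nonneg hRp (c := 1 / 2) (by norm_num)
  have hA20 := A_nonneg hRp (c := 5 / 4) (by norm_num)
  have hc1 : 2 ^ L * (50 * t / ε * A R (1 / 2) ^ 2) ≤ η / 3 := by
    have h1 : (2 : ℝ) ^ L ≤ Real.exp (9 / 10 * S) := by
      rw [← Real.rpow_natCast, Real.rpow_def_of_pos (by norm_num)]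
      apply Real.exp_le_exp.2
      nlinarith
    have h2 : A R (1 / 2) ^ 2 ≤ Real.exp (-S) := by
      calc A R (1 / 2) ^ 2 ≤ (Real.exp ((1 / 2 - 1) * S)) ^ 2 := pow_le_pow_left₀ hA10 hA1 2
        _ = Real.exp (-S) := by
            rw [← Real.exp_nat_mul]
            congr 1
            push_cast
            ring
    calc 2 ^ L * (50 * t / ε * A R (1 / 2) ^ 2) ≤ Real.exp (9 / 10 * S) * (50 * t / ε * Real.exp (-S)) := by
          gcongr
      _ = 50 * t / ε * (Real.exp (9 / 10 * S) * Real.exp (-S)) := by ring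
      _ = 50 * t / ε * Real.exp (-(S / 10)) := by
          rw [← Real.exp_add]
          congr 2
          ring
      _ ≤ η / 3 := hb1
  have hc2 : 2 * A R (5 / 4) ≤ η / 3 * (5 / 4) ^ (L + 1) := by
    have h1 : Real.exp (Real.log (5 / 4) * (5 / 4 * S)) ≤ (5 / 4 : ℝ) ^ (L + 1) := by
      rw [← Real.rpow_natCast, Real.rpow_def_of_pos (by norm_num)]
      apply Real.exp_le_exp.2
      push_cast
      exact mul_le_mul_of_nonneg_left hLlt.le (Real.log_nonneg (by norm_num))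
    calc 2 * A R (5 / 4) ≤ 2 * Real.exp ((5 / 4 - 1) * S) := by linarith
      _ = 2 * Real.exp (-(κ * S)) * Real.exp (Real.log (5 / 4) * (5 / 4 * S)) := by
          rw [mul_assoc, ← Real.exp_add, hκ]
          congr 2
          ring
      _ ≤ η / 3 * (5 / 4) ^ (L + 1) := by
          apply mul_le_mul hb2 h1 (Real.exp_pos _).le (by positivity)
  filter_upwards [typical hRp ht hRt hε hε1 L, eventually_ge_atTop (∏ r ∈ R, r), eventually_ge_atTop 1] with K h1 h2 hK1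
  have hK0 : (0 : ℝ) < K := by exact_mod_cast hK1
  have h3 := atypical hRp (β := 5 / 4) (by norm_num) L h2
  have h4 := square hT2 hRT K
  have h5 : (({k ∈ Icc 1 K | L < #{r ∈ R | r ∣ k}}.card : ℕ) : ℝ) ≤ η / 3 * K := by
    have h6 : (0 : ℝ) < (5 / 4) ^ (L + 1) := by positivity
    rw [← mul_le_mul_iff_of_pos_right h6]
    calc _ ≤ 2 * A R (5 / 4) * K := h3
      _ ≤ η / 3 * (5 / 4) ^ (L + 1) * K := by gcongr
      _ = _ := by ring
  have h6 : (({k : ℕ | k ∈ (Icc 1 K : Finset ℕ) ∧ ∃ D, D ∣ k ∧ (D * t + 1).Prime ∧ (K : ℝ) ^ ε ≤ D} : Set ℕ)) ⊆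
      ((({k ∈ Icc 1 K | ∃ r ∈ R, r ^ 2 ∣ k} ∪ {k ∈ Icc 1 K | L < #{r ∈ R | r ∣ k}}) ∪
        {k ∈ Icc 1 K | (∀ r ∈ R, ¬ r ^ 2 ∣ k) ∧ #{r ∈ R | r ∣ k} ≤ L ∧
        ∃ D, D ∣ k ∧ (D * t + 1).Prime ∧ (K : ℝ) ^ ε ≤ D} : Finset ℕ) : Set ℕ) := by
    rintro k ⟨hk, hD⟩
    rw [mem_coe, mem_union, mem_union, mem_filter, mem_filter, mem_filter]
    by_cases h7 : ∃ r ∈ R, r ^ 2 ∣ k
    · exact Or.inl (Or.inl ⟨hk, h7⟩)
    · push Not at h7
      by_cases h8 : L < #{r ∈ R | r ∣ k}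
      · exact Or.inl (Or.inr ⟨hk, h8⟩)
      · exact Or.inr ⟨hk, h7, not_lt.1 h8, hD⟩
  have h7 := Set.ncard_le_ncard h6 (Finset.finite_toSet _)
  rw [Set.ncard_coe_finset] at h7
  have h8 := h7.trans ((card_union_le _ _).trans (Nat.add_le_add_right (card_union_le _ _) _))
  have h9 : (({k : ℕ | k ∈ (Icc 1 K : Finset ℕ) ∧ ∃ D, D ∣ k ∧ (D * t + 1).Prime ∧ (K : ℝ) ^ ε ≤ D} : Set ℕ).ncard : ℝ) ≤
      (({k ∈ Icc 1 K | ∃ r ∈ R, r ^ 2 ∣ k}.card : ℕ) : ℝ) + (({k ∈ Icc 1 K | L < #{r ∈ R | r ∣ k}}.card : ℕ) : ℝ) +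
      (({k ∈ Icc 1 K | (∀ r ∈ R, ¬ r ^ 2 ∣ k) ∧ #{r ∈ R | r ∣ k} ≤ L ∧
        ∃ D, D ∣ k ∧ (D * t + 1).Prime ∧ (K : ℝ) ^ ε ≤ D}.card : ℕ) : ℝ) := by exact_mod_cast h8
  have h10 : 1 / ((T : ℝ) - 1) * K ≤ η / 3 * K := mul_le_mul_of_nonneg_right hTη hK0.le
  have h11 : 2 ^ L * (50 * t / ε * A R (1 / 2) ^ 2) * K ≤ η / 3 * K := mul_le_mul_of_nonneg_right hc1 hK0.le
  have h12 : (({k ∈ Icc 1 K | (∀ r ∈ R, ¬ r ^ 2 ∣ k) ∧ #{r ∈ R | r ∣ k} ≤ L ∧
        ∃ D, D ∣ k ∧ (D * t + 1).Prime ∧ (K : ℝ) ^ ε ≤ D}.card : ℕ) : ℝ) ≤ η / 3 * K := by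
    refine le_trans ?_ (h1.trans h11)
    exact_mod_cast le_of_eq (by congr)
  have h13 : (({k ∈ Icc 1 K | ∃ r ∈ R, r ^ 2 ∣ k}.card : ℕ) : ℝ) ≤ η / 3 * K := by
    refine le_trans ?_ (h4.trans h10)
    exact_mod_cast le_of_eq (by congr)
  linarith

end Pool.Agent.U416.GE.Wag
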