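import Pool.Agent.U416.GE.Wag4

/-! Almost all integers `k` have no divisor `D ≥ k ^ ε` of the form `φ (q) / t`, `t < T`, `q` a prime power. -/

set_option autoImplicit false

namespace Pool.Agent.U416.GE.Wag

open Finset Filter Topology

theorem mult_le (K d : ℕ) : #{k ∈ Icc 1 K | d ∣ k} ≤ K / d := by
  have := Nat.card_multiples K d
  rw [← this]
  apply card_le_card_of_injOn (fun k => k - 1)
  · intro k hk
    rw [mem_coe, mem_filter, mem_Icc] at hk
    rw [mem_coe, mem_filter, mem_range]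
    refine ⟨(by omega : k - 1 < K), ?_⟩
    show d ∣ k - 1 + 1
    rw [Nat.sub_add_cancel hk.1.1]
    exact hk.2
  · intro k hk k' hk' h
    rw [mem_coe, mem_filter, mem_Icc] at hk hk'
    simp only at h
    omega

theorem sum_sq {U : ℕ} (hU : 2 ≤ U) (w : ℕ) : ∑ u ∈ Ico U w, 1 / (u : ℝ) ^ 2 ≤ 1 / ((U : ℝ) - 1) := by
  rcases Nat.lt_or_ge w U with h | h
  · rw [Ico_eq_empty (by omega), sum_empty]
    have : (2 : ℝ) ≤ U := by exact_mod_cast hU
    apply div_nonneg (by norm_num)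
    linarith
  · have h3 : ∀ w : ℕ, U ≤ w → ∑ r ∈ Ico U w, (1 / ((r : ℝ) - 1) - 1 / r) = 1 / ((U : ℝ) - 1) - 1 / ((w : ℝ) - 1) := by
      intro w hw
      induction w, hw using Nat.le_induction with
      | base => simp
      | succ w hw ih =>
        rw [sum_Ico_succ_top hw, ih]
        push_cast
        have e : (w : ℝ) + 1 - 1 = w := by ring
        rw [e]
        ring
    calc ∑ u ∈ Ico U w, 1 / (u : ℝ) ^ 2 ≤ ∑ r ∈ Ico U w, (1 / ((r : ℝ) - 1) - 1 / r) := by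
          refine sum_le_sum fun r hr => ?_
          rw [mem_Ico] at hr
          have h4 : (2 : ℝ) ≤ r := by exact_mod_cast hU.trans hr.1
          rw [div_sub_div _ _ (by linarith) (by linarith), div_le_div_iff₀ (by positivity) (by nlinarith)]
          nlinarith
      _ ≤ 1 / ((U : ℝ) - 1) := by
          rw [h3 w h]
          have hw' : (2 : ℝ) ≤ w := by exact_mod_cast hU.trans h
          have h5 : 0 ≤ 1 / ((w : ℝ) - 1) := by
            apply div_nonneg (by norm_num)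
            linarith
          linarith

theorem phi_ge {p a : ℕ} (hp : p.Prime) (ha : 1 ≤ a) : p ^ a ≤ 2 * Nat.totient (p ^ a) := by
  obtain ⟨a, rfl⟩ : ∃ b, a = b + 1 := ⟨a - 1, by omega⟩
  rw [Nat.totient_prime_pow_succ hp, pow_succ]
  have := hp.two_le
  calc p ^ a * p ≤ p ^ a * (2 * (p - 1)) := Nat.mul_le_mul_left _ (by omega)
    _ = 2 * (p ^ a * (p - 1)) := by ring

/-- the divisors which come from proper prime powers -/
theorem wag_pow {t : ℕ} (ht : 1 ≤ t) {ε η : ℝ} (hε : 0 < ε) (hη : 0 < η) : ∀ᶠ K : ℕ in atTop,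
    (({k : ℕ | k ∈ (Icc 1 K : Finset ℕ) ∧ ∃ D p a, D ∣ k ∧ p.Prime ∧ 2 ≤ a ∧ D * t = Nat.totient (p ^ a) ∧
      (K : ℝ) ^ ε ≤ D} : Set ℕ).ncard : ℝ) ≤ η * K := by
  classical
  have htr : (0 : ℝ) < t := by exact_mod_cast ht
  obtain ⟨U, hU⟩ := exists_nat_gt (4 * t / η + 2)
  have h4η : 0 < 4 * t / η := by positivity
  have hU2 : 2 ≤ U := by
    have : (2 : ℝ) < U := by linarith
    have : (2 : ℕ) < U := by exact_mod_cast this
    omega
  have hUη : 4 * t * (1 / ((U : ℝ) - 1)) ≤ η := by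
    rw [mul_one_div, div_le_iff₀ (by linarith)]
    have : 4 * t / η < (U : ℝ) - 1 := by linarith
    rw [div_lt_iff₀ hη] at this
    linarith
  have hnat := tendsto_natCast_atTop_atTop (R := ℝ)
  have e1 : ∀ᶠ x : ℝ in atTop, (U : ℝ) ^ 3 ≤ x ^ ε := (tendsto_rpow_atTop hε).eventually_ge_atTop _
  filter_upwards [hnat.eventually e1, eventually_ge_atTop 1] with K h1 hK1
  have hK0 : (0 : ℝ) < K := by exact_mod_cast hK1
  -- the two values for each `u`
  obtain ⟨E, hE⟩ : ∃ E : ℕ → Bool → ℕ, E = fun u b => Nat.totient (u ^ 2 * (if b then u.minFac else 1)) / t := ⟨_, rfl⟩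
  have hbig : ({k : ℕ | k ∈ (Icc 1 K : Finset ℕ) ∧ ∃ D p a, D ∣ k ∧ p.Prime ∧ 2 ≤ a ∧ D * t = Nat.totient (p ^ a) ∧
      (K : ℝ) ^ ε ≤ D} : Set ℕ) ⊆ ((Ico U (2 * K * t + 1)).biUnion fun u => (univ : Finset Bool).biUnion fun b =>
        {k ∈ Icc 1 K | E u b ∣ k ∧ u ^ 2 ≤ 2 * t * E u b} : Finset ℕ) := by
    rintro k ⟨hk, D, p, a, hDk, hp, ha, hDt, hD⟩
    rw [mem_Icc] at hk
    have hD1 : 0 < D := Nat.pos_of_dvd_of_pos hDk (by omega)
    have hDK : D ≤ K := (Nat.le_of_dvd (by omega) hDk).trans hk.2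
    have hb : 1 ≤ a / 2 := by omega
    have hu2 : 2 ≤ p ^ (a / 2) := by
      calc 2 ≤ p := hp.two_le
        _ = p ^ 1 := (pow_one p).symm
        _ ≤ p ^ (a / 2) := Nat.pow_le_pow_right hp.pos hb
    have hmf : (p ^ (a / 2)).minFac = p := hp.pow_minFac (by omega)
    have hge := phi_ge hp (show 1 ≤ a by omega)
    rw [← hDt] at hge
    -- `p ^ a` in terms of `u`
    have hpa : p ^ a = (p ^ (a / 2)) ^ 2 * (if decide (a % 2 = 1) then (p ^ (a / 2)).minFac else 1) := by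
      rw [hmf, ← pow_mul]
      rcases Nat.mod_two_eq_zero_or_one a with h | h
      · rw [h]
        simp only [zero_ne_one, decide_false, Bool.false_eq_true, if_false, mul_one]
        congr 1
        omega
      · rw [h]
        simp only [decide_true, if_true]
        rw [← pow_succ]
        congr 1
        omega
    have hEu : E (p ^ (a / 2)) (decide (a % 2 = 1)) = D := by
      rw [hE]
      show Nat.totient ((p ^ (a / 2)) ^ 2 * (if decide (a % 2 = 1) = true then (p ^ (a / 2)).minFac else 1)) / t = D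
      rw [← hpa, ← hDt, Nat.mul_div_cancel _ ht]
    have hsq : (p ^ (a / 2)) ^ 2 ≤ p ^ a := by
      rw [← pow_mul]
      exact Nat.pow_le_pow_right hp.pos (by omega)
    have hcube : p ^ a ≤ (p ^ (a / 2)) ^ 3 := by
      rw [← pow_mul]
      exact Nat.pow_le_pow_right hp.pos (by omega)
    rw [mem_coe, mem_biUnion]
    refine ⟨p ^ (a / 2), ?_, ?_⟩
    · rw [mem_Ico]
      constructor
      · have h2 : (U : ℝ) ^ 3 ≤ ((p ^ (a / 2) : ℕ) : ℝ) ^ 3 := by
          calc (U : ℝ) ^ 3 ≤ (K : ℝ) ^ ε := h1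
            _ ≤ D := hD
            _ ≤ ((D * t : ℕ) : ℝ) := by exact_mod_cast Nat.le_mul_of_pos_right D ht
            _ ≤ ((p ^ a : ℕ) : ℝ) := by rw [hDt]; exact_mod_cast Nat.totient_le _
            _ ≤ _ := by exact_mod_cast hcube
        have h3 := le_of_pow_le_pow_left₀ (by norm_num) (by positivity) h2
        exact_mod_cast h3
      · have h2 : p ^ (a / 2) ≤ (p ^ (a / 2)) ^ 2 := by nlinarith
        have h3 : D * t ≤ K * t := Nat.mul_le_mul_right _ hDK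
        have h4 : 2 * K * t = 2 * (K * t) := by ring
        omega
    · rw [mem_biUnion]
      refine ⟨decide (a % 2 = 1), mem_univ _, ?_⟩
      rw [mem_filter, mem_Icc]
      refine ⟨hk, ?_, ?_⟩
      · rw [hEu]; exact hDk
      · rw [hEu]
        have h4 : 2 * t * D = 2 * (D * t) := by ring
        omega
  have hcard := Set.ncard_le_ncard hbig (Finset.finite_toSet _)
  rw [Set.ncard_coe_finset] at hcard
  have hone : ∀ u ∈ Ico U (2 * K * t + 1), ∀ b : Bool,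
      ((#{k ∈ Icc 1 K | E u b ∣ k ∧ u ^ 2 ≤ 2 * t * E u b} : ℕ) : ℝ) ≤ 2 * t * K * (1 / (u : ℝ) ^ 2) := by
    intro u hu b
    rw [mem_Ico] at hu
    have hu0 : (0 : ℝ) < u := by
      have : 0 < u := by omega
      exact_mod_cast this
    by_cases h : u ^ 2 ≤ 2 * t * E u b
    · have h2 : #{k ∈ Icc 1 K | E u b ∣ k ∧ u ^ 2 ≤ 2 * t * E u b} ≤ K / E u b := by
        refine le_trans (card_le_card ?_) (mult_le K (E u b))
        intro k hk
        rw [mem_filter] at hk ⊢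
        exact ⟨hk.1, hk.2.1⟩
      have h3 : (u : ℝ) ^ 2 ≤ 2 * t * (E u b : ℝ) := by exact_mod_cast h
      have h4 : (0 : ℝ) < (E u b : ℝ) := by
        have : (0 : ℝ) < (u : ℝ) ^ 2 := by positivity
        by_contra hcon
        nlinarith
      calc ((#{k ∈ Icc 1 K | E u b ∣ k ∧ u ^ 2 ≤ 2 * t * E u b} : ℕ) : ℝ) ≤ ((K / E u b : ℕ) : ℝ) := by exact_mod_cast h2
        _ ≤ K / (E u b : ℝ) := Nat.cast_div_le
        _ ≤ 2 * t * K * (1 / (u : ℝ) ^ 2) := by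
            rw [mul_one_div, div_le_div_iff₀ h4 (by positivity)]
            nlinarith
    · have h2 : #{k ∈ Icc 1 K | E u b ∣ k ∧ u ^ 2 ≤ 2 * t * E u b} = 0 := by
        rw [card_eq_zero, filter_eq_empty_iff]
        intro k _ hk
        exact h hk.2
      rw [h2]
      push_cast
      positivity
  calc _ ≤ ((#((Ico U (2 * K * t + 1)).biUnion fun u => (univ : Finset Bool).biUnion fun b =>
        {k ∈ Icc 1 K | E u b ∣ k ∧ u ^ 2 ≤ 2 * t * E u b}) : ℕ) : ℝ) := by exact_mod_cast hcard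
    _ ≤ ((∑ u ∈ Ico U (2 * K * t + 1), ∑ b : Bool, #{k ∈ Icc 1 K | E u b ∣ k ∧ u ^ 2 ≤ 2 * t * E u b} : ℕ) : ℝ) := by
        exact_mod_cast card_biUnion_le.trans (sum_le_sum fun u _ => card_biUnion_le)
    _ = ∑ u ∈ Ico U (2 * K * t + 1), ∑ b : Bool, ((#{k ∈ Icc 1 K | E u b ∣ k ∧ u ^ 2 ≤ 2 * t * E u b} : ℕ) : ℝ) := by
        push_cast; rfl
    _ ≤ ∑ u ∈ Ico U (2 * K * t + 1), ∑ b : Bool, 2 * t * K * (1 / (u : ℝ) ^ 2) :=
        sum_le_sum fun u hu => sum_le_sum fun b _ => hone u hu b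
    _ = 4 * t * K * ∑ u ∈ Ico U (2 * K * t + 1), 1 / (u : ℝ) ^ 2 := by
        rw [mul_sum]
        refine sum_congr rfl fun u _ => ?_
        rw [sum_const, card_univ, Fintype.card_bool, nsmul_eq_mul]
        push_cast
        ring
    _ ≤ 4 * t * K * (1 / ((U : ℝ) - 1)) := mul_le_mul_of_nonneg_left (sum_sq hU2 _) (by positivity)
    _ = (4 * t * (1 / ((U : ℝ) - 1))) * K := by ring
    _ ≤ η * K := mul_le_mul_of_nonneg_right hUη hK0.le

/-- **Almost all integers have no large divisor of the form `φ (q) / t`.** -/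
theorem wag (T : ℕ) {ε η : ℝ} (hε : 0 < ε) (hε1 : ε ≤ 1) (hη : 0 < η) : ∀ᶠ K : ℕ in atTop,
    (({k : ℕ | k ∈ (Icc 1 K : Finset ℕ) ∧ ∃ D t q, D ∣ k ∧ t < T ∧ IsPrimePow q ∧ D * t = Nat.totient q ∧
      (K : ℝ) ^ ε ≤ D} : Set ℕ).ncard : ℝ) ≤ η * K := by
  classical
  obtain ⟨δ, hδ⟩ : ∃ δ : ℝ, δ = η / (2 * (T + 1)) := ⟨_, rfl⟩
  have hδ0 : 0 < δ := by rw [hδ]; positivity
  have h1 : ∀ᶠ K : ℕ in atTop, ∀ t ∈ Ico 1 T,
      (({k : ℕ | k ∈ (Icc 1 K : Finset ℕ) ∧ ∃ D, D ∣ k ∧ (D * t + 1).Prime ∧ (K : ℝ) ^ ε ≤ D} : Set ℕ).ncard : ℝ) ≤ δ * K := by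
    rw [Filter.eventually_all_finset]
    intro t ht
    rw [mem_Ico] at ht
    exact wag_prime ht.1 hε hε1 hδ0
  have h2 : ∀ᶠ K : ℕ in atTop, ∀ t ∈ Ico 1 T,
      (({k : ℕ | k ∈ (Icc 1 K : Finset ℕ) ∧ ∃ D p a, D ∣ k ∧ p.Prime ∧ 2 ≤ a ∧ D * t = Nat.totient (p ^ a) ∧
      (K : ℝ) ^ ε ≤ D} : Set ℕ).ncard : ℝ) ≤ δ * K := by
    rw [Filter.eventually_all_finset]
    intro t ht
    rw [mem_Ico] at ht
    exact wag_pow ht.1 hε hδ0
  filter_upwards [h1, h2] with K h1 h2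
  obtain ⟨A₁, hA₁⟩ : ∃ A₁ : ℕ → Set ℕ, A₁ = fun t => {k : ℕ | k ∈ (Icc 1 K : Finset ℕ) ∧ ∃ D, D ∣ k ∧ (D * t + 1).Prime ∧ (K : ℝ) ^ ε ≤ D} := ⟨_, rfl⟩
  obtain ⟨A₂, hA₂⟩ : ∃ A₂ : ℕ → Set ℕ, A₂ = fun t => {k : ℕ | k ∈ (Icc 1 K : Finset ℕ) ∧ ∃ D p a, D ∣ k ∧ p.Prime ∧ 2 ≤ a ∧
      D * t = Nat.totient (p ^ a) ∧ (K : ℝ) ^ ε ≤ D} := ⟨_, rfl⟩
  have hfin1 : ∀ t, (A₁ t).Finite := fun t => (Finset.finite_toSet (Icc 1 K)).subset (by rw [hA₁]; exact fun k hk => hk.1)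
  have hfin2 : ∀ t, (A₂ t).Finite := fun t => (Finset.finite_toSet (Icc 1 K)).subset (by rw [hA₂]; exact fun k hk => hk.1)
  have hsub : {k : ℕ | k ∈ (Icc 1 K : Finset ℕ) ∧ ∃ D t q, D ∣ k ∧ t < T ∧ IsPrimePow q ∧ D * t = Nat.totient q ∧
      (K : ℝ) ^ ε ≤ D} ⊆ (((Ico 1 T).biUnion fun t => (hfin1 t).toFinset ∪ (hfin2 t).toFinset : Finset ℕ) : Set ℕ) := by
    rintro k ⟨hk, D, t, q, hDk, htT, hq, hDt, hD⟩
    obtain ⟨p, a, hp, ha, rfl⟩ := hq
    have hp' := hp.nat_prime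
    have ht1 : 1 ≤ t := by
      rcases Nat.eq_zero_or_pos t with h | h
      · exfalso
        rw [h, mul_zero] at hDt
        have := Nat.totient_pos.2 (pow_pos hp'.pos a)
        omega
      · exact h
    rw [mem_coe, mem_biUnion]
    refine ⟨t, mem_Ico.2 ⟨ht1, htT⟩, ?_⟩
    rw [mem_union, Set.Finite.mem_toFinset, Set.Finite.mem_toFinset]
    rcases Nat.lt_or_ge a 2 with h | h
    · left
      have ha1 : a = 1 := by omega
      subst ha1
      rw [hA₁]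
      refine ⟨hk, D, hDk, ?_, hD⟩
      rw [hDt, pow_one, Nat.totient_prime hp', Nat.sub_add_cancel hp'.one_le]
      exact hp'
    · right
      rw [hA₂]
      exact ⟨hk, D, p, a, hDk, hp', h, hDt, hD⟩
  have hcard := Set.ncard_le_ncard hsub (Finset.finite_toSet _)
  rw [Set.ncard_coe_finset] at hcard
  calc _ ≤ ((#((Ico 1 T).biUnion fun t => (hfin1 t).toFinset ∪ (hfin2 t).toFinset) : ℕ) : ℝ) := by exact_mod_cast hcard
    _ ≤ ((∑ t ∈ Ico 1 T, (#((hfin1 t).toFinset) + #((hfin2 t).toFinset)) : ℕ) : ℝ) := by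
        exact_mod_cast card_biUnion_le.trans (sum_le_sum fun t _ => card_union_le _ _)
    _ = ∑ t ∈ Ico 1 T, (((#((hfin1 t).toFinset) : ℕ) : ℝ) + ((#((hfin2 t).toFinset) : ℕ) : ℝ)) := by push_cast; rfl
    _ ≤ ∑ t ∈ Ico 1 T, (δ * K + δ * K) := by
        refine sum_le_sum fun t ht => ?_
        have e1 := h1 t ht
        have e2 := h2 t ht
        rw [← Set.ncard_eq_toFinset_card (A₁ t) (hfin1 t), ← Set.ncard_eq_toFinset_card (A₂ t) (hfin2 t), hA₁, hA₂]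
        exact add_le_add e1 e2
    _ = ((T - 1 : ℕ) : ℝ) * (2 * δ * K) := by
        rw [sum_const, Nat.card_Ico, nsmul_eq_mul]
        ring
    _ ≤ ((T : ℝ) + 1) * (2 * δ * K) := by
        apply mul_le_mul_of_nonneg_right _ (by positivity)
        have : ((T - 1 : ℕ) : ℝ) ≤ T := by exact_mod_cast Nat.sub_le T 1
        linarith
    _ = η * K := by
        rw [hδ]
        field_simp

end Pool.Agent.U416.GE.Wag
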